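import Mathlib
import Pool.Agent.Work.MP_b62148_ag.Sextic.PolF

/-!
Quartic forms over a field `K` with an embedding in the real or complex numbers: definitions.
-/

namespace Pool.Agent.Work.QK

open MvPolynomial Pool.Agent.Work.PD6

variable {K : Type*} [Field K] {σ : Type*} [Fintype σ]

/-- the symmetric four-linear form with functional `a` -/
noncomputable def q4 (a : (σ →₀ ℕ) → K) {R : Type*} [CommRing R] [Algebra K R] (x y z w : σ → R) :
    R :=
  Lf a (ell x * ell y * ell z * ell w)

/-- base change of a vector -/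
def bc (R : Type*) [CommRing R] [Algebra K R] (p : σ → K) : σ → R := fun i => algebraMap K R (p i)

/-- the matrix of the quadratic form `[p p . .]` -/
noncomputable def hm [DecidableEq σ] (a : (σ →₀ ℕ) → K) {R : Type*} [CommRing R] [Algebra K R]
    (p : σ → R) : Matrix σ σ R :=
  Matrix.of fun i j => q4 a p p (Pi.single i 1) (Pi.single j 1)

/-- the `K`-rational zeros of the form, as a set of vectors over `R` -/
def Zr (a : (σ →₀ ℕ) → K) (R : Type*) [CommRing R] [Algebra K R] : Set (σ → R) :=
  {x | ∃ y : σ → K, q4 a y y y y = 0 ∧ x = bc R y}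

/-- the bilinear form with matrix `M` -/
noncomputable def mb (M : Matrix σ σ K) {R : Type*} [CommRing R] [Algebra K R] (x y : σ → R) : R :=
  ∑ i, ∑ j, algebraMap K R (M i j) * x i * y j

/-- every diagonal quadratic form in `m` variables has a nontrivial zero -/
def DiagIso (K : Type*) [Field K] (m : ℕ) : Prop :=
  ∀ a : Fin m → K, ∃ x : Fin m → K, x ≠ 0 ∧ ∑ i, a i * x i ^ 2 = 0

/-- the isotropy property of the pair `(K, R)` for symmetric matrices of rank at least `ρ`:
a nonsingular zero over `R` of a quadratic form of rank at least `ρ`, restricted to the polar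
hyperplane of a zero `p` over `K` (not in the radical), gives a zero over `K` in this hyperplane
which is not orthogonal to the given one -/
def IsoProp (K : Type*) [Field K] (R : Type*) [CommRing R] [Algebra K R] (σ : Type*) [Fintype σ]
    (ρ : ℕ) : Prop :=
  ∀ M : Matrix σ σ K, M.IsSymm → ρ ≤ M.rank → ∀ p : σ → K, mb M p p = 0 →
    (∃ u : σ → K, mb M p u ≠ 0) → ∀ x : σ → R, mb M (bc R p) x = 0 → mb M x x = 0 →
    (∃ u : σ → R, mb M (bc R p) u = 0 ∧ mb M x u ≠ 0) →
    ∃ y : σ → K, mb M p y = 0 ∧ mb M y y = 0 ∧ mb M (bc R y) x ≠ 0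

end Pool.Agent.Work.QK
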