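import Mathlib
import Pool.Agent.Work.MP_b62148_ag.QK.Defs

/-!
Module Elim: a polynomial which vanishes at the zeros, near a smooth zero over the real or complex
numbers, of an irreducible polynomial over a subfield is divisible by it.
-/

set_option autoImplicit false

namespace Pool.Agent.Work.QK

open MvPolynomial Pool.Agent.Work.PD6 Filter Topology

variable {σ : Type*}

namespace EL

/-- the elimination identity -/
theorem exists_elim {k : Type*} [Field k] [DecidableEq σ] (F : MvPolynomial σ k) (hirr : Irreducible F) (i : σ)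
    (hi : pderiv i F ≠ 0) (G : MvPolynomial σ k) (hndvd : ¬ F ∣ G) :
    ∃ (A B : MvPolynomial σ k) (c : MvPolynomial {j : σ // j ≠ i} k), c ≠ 0 ∧
      A * F + B * G = rename (Subtype.val : {j : σ // j ≠ i} → σ) c := by
  classical
  let ι := {j : σ // j ≠ i}
  let e : MvPolynomial σ k ≃ₐ[k] Polynomial (MvPolynomial ι k) :=
    (renameEquiv k (Equiv.optionSubtypeNe i).symm).trans (optionEquivLeft k ι)
  let R := MvPolynomial ι k
  let K := FractionRing R
  have h3 : ∀ r : R, e (rename (Subtype.val : ι → σ) r) = Polynomial.C r := by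
    intro r
    induction r using MvPolynomial.induction_on with
    | C a => simp [e]
    | add p q hp hq => simp only [map_add, hp, hq]
    | mul_X p j hp =>
      rw [map_mul, map_mul, hp, rename_X, map_mul]
      congr 1
      simp [e, Equiv.optionSubtypeNe_symm_of_ne j.2]
  have hdeg : (e F).natDegree ≠ 0 := by
    intro h0
    have h1 : e F = Polynomial.C ((e F).coeff 0) := Polynomial.eq_C_of_natDegree_eq_zero h0
    have h2 : F = rename (Subtype.val : ι → σ) ((e F).coeff 0) := by
      apply e.injective
      rw [h3]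
      exact h1
    apply hi
    rw [h2]
    apply pderiv_eq_zero_of_notMem_vars
    intro h5
    have h6 := vars_rename (Subtype.val : ι → σ) ((e F).coeff 0) h5
    rw [Finset.mem_image] at h6
    obtain ⟨j, -, hj⟩ := h6
    exact j.2 hj
  have hirr' : Irreducible (e F) := (MulEquiv.irreducible_iff e.toMulEquiv).mpr hirr
  have hprim : (e F).IsPrimitive := hirr'.isPrimitive hdeg
  have hirrK : Irreducible ((e F).map (algebraMap R K)) :=
    hprim.irreducible_iff_irreducible_map_fraction_map.mp hirr'
  have hnd : ¬ ((e F).map (algebraMap R K) ∣ (e G).map (algebraMap R K)) := by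
    intro h0
    apply hndvd
    have h1 : e F ∣ e G := hprim.dvd_of_fraction_map_dvd_fraction_map h0
    exact (map_dvd_iff e).mp h1
  obtain ⟨a, b, hab⟩ := (hirrK.coprime_iff_not_dvd).mpr hnd
  obtain ⟨u, hu1, hu⟩ := IsLocalization.integerNormalization_spec (nonZeroDivisors R) a
  obtain ⟨v, hv1, hv⟩ := IsLocalization.integerNormalization_spec (nonZeroDivisors R) b
  set A1 := IsLocalization.integerNormalization (nonZeroDivisors R) a
  set B1 := IsLocalization.integerNormalization (nonZeroDivisors R) b
  have hu0 : (u : R) ≠ 0 := nonZeroDivisors.ne_zero hu1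
  have hv0 : (v : R) ≠ 0 := nonZeroDivisors.ne_zero hv1
  have hid : Polynomial.C (v : R) * A1 * e F + Polynomial.C (u : R) * B1 * e G =
      Polynomial.C ((u : R) * v) := by
    apply Polynomial.map_injective (algebraMap R K) (IsFractionRing.injective R K)
    rw [Polynomial.map_add, Polynomial.map_mul, Polynomial.map_mul, Polynomial.map_mul,
      Polynomial.map_mul, hu, hv, Polynomial.map_C, Polynomial.map_C, Polynomial.map_C, map_mul]
    have e1 : ((u : R) • a : Polynomial K) = Polynomial.C (algebraMap R K u) * a := by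
      rw [← algebraMap_smul K (u : R) a, Polynomial.smul_eq_C_mul]
    have e2 : ((v : R) • b : Polynomial K) = Polynomial.C (algebraMap R K v) * b := by
      rw [← algebraMap_smul K (v : R) b, Polynomial.smul_eq_C_mul]
    rw [e1, e2, Polynomial.C_mul]
    linear_combination (Polynomial.C (algebraMap R K u) * Polynomial.C (algebraMap R K v)) * hab
  refine ⟨e.symm (Polynomial.C (v : R) * A1), e.symm (Polynomial.C (u : R) * B1), (u : R) * v,
    mul_ne_zero hu0 hv0, ?_⟩
  apply e.injective
  have h4 : ∀ (P : Polynomial R) (Q : MvPolynomial σ k), e (e.symm P * Q) = P * e Q := by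
    intro P Q
    rw [map_mul, e.apply_symm_apply]
  rw [h3, map_add, h4, h4]
  exact hid


/-- the strict derivative of a polynomial function -/
theorem hasStrictFDerivAt_aeval {K : Type*} [Field K] {𝕜 : Type*} [RCLike 𝕜] [Algebra K 𝕜]
    [Fintype σ] [DecidableEq σ] (F : MvPolynomial σ K) (r : σ → 𝕜) :
    HasStrictFDerivAt (fun x : σ → 𝕜 => aeval x F)
      (∑ j, aeval r (pderiv j F) • (ContinuousLinearMap.proj (R := 𝕜) (φ := fun _ : σ => 𝕜) j)) r := by
  induction F using MvPolynomial.induction_on with
  | C a =>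
    have h : (∑ j, aeval r (pderiv j (C a : MvPolynomial σ K)) •
        (ContinuousLinearMap.proj (R := 𝕜) (φ := fun _ : σ => 𝕜) j)) = 0 := by
      ext v
      simp only [sum_apply, smul_apply, pderiv_C, map_zero, zero_mul, smul_eq_mul,
        Finset.sum_const_zero, zero_apply]
    rw [h]
    simp only [aeval_C]
    exact hasStrictFDerivAt_const _ _
  | add p q hp hq =>
    have h := hp.fun_add hq
    have h2 : (∑ j, aeval r (pderiv j (p + q)) •
        (ContinuousLinearMap.proj (R := 𝕜) (φ := fun _ : σ => 𝕜) j)) =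
        (∑ j, aeval r (pderiv j p) • (ContinuousLinearMap.proj (R := 𝕜) (φ := fun _ : σ => 𝕜) j)) +
        ∑ j, aeval r (pderiv j q) •
          (ContinuousLinearMap.proj (R := 𝕜) (φ := fun _ : σ => 𝕜) j) := by
      ext v
      simp only [sum_apply, smul_apply, add_apply, map_add, add_mul, smul_eq_mul,
        Finset.sum_add_distrib]
    rw [h2]
    simp only [map_add]
    exact h
  | mul_X p i hp =>
    have hi : HasStrictFDerivAt (fun x : σ → 𝕜 => x i)
        (ContinuousLinearMap.proj (R := 𝕜) (φ := fun _ : σ => 𝕜) i) r :=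
      (ContinuousLinearMap.proj (R := 𝕜) (φ := fun _ : σ => 𝕜) i).hasStrictFDerivAt
    have h := hp.fun_mul hi
    have h2 : (∑ j, aeval r (pderiv j (p * X i)) •
        (ContinuousLinearMap.proj (R := 𝕜) (φ := fun _ : σ => 𝕜) j)) =
        aeval r p • (ContinuousLinearMap.proj (R := 𝕜) (φ := fun _ : σ => 𝕜) i) +
        r i • ∑ j, aeval r (pderiv j p) •
          (ContinuousLinearMap.proj (R := 𝕜) (φ := fun _ : σ => 𝕜) j) := by
      ext v
      simp only [sum_apply, add_apply,
        smul_apply, ContinuousLinearMap.proj_apply, smul_eq_mul,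
        Derivation.leibniz, map_add, map_mul, aeval_X, pderiv_X, add_mul, Finset.sum_add_distrib,
        Finset.mul_sum, smul_eq_mul]
      congr 1
      · rw [Finset.sum_eq_single i]
        · rw [Pi.single_eq_same, map_one, mul_one]
        · intro j _ hj
          rw [Pi.single_eq_of_ne hj.symm, map_zero, mul_zero, zero_mul]
        · intro h
          exact absurd (Finset.mem_univ i) h
      · refine Finset.sum_congr rfl fun j _ => ?_
        ring
    rw [h2]
    simp only [map_mul, aeval_X]
    exact h

end EL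

theorem elim {K : Type*} [Field K] [CharZero K] {𝕜 : Type*} [RCLike 𝕜] [Algebra K 𝕜] {σ : Type*}
    [Fintype σ] (F : MvPolynomial σ K) (hF : Irreducible F) (r : σ → 𝕜) (i : σ)
    (hr : aeval r F = 0) (hi : aeval r (pderiv i F) ≠ 0) (G : MvPolynomial σ K)
    (hG : ∀ᶠ r' in 𝓝 r, aeval r' F = 0 → aeval r' G = 0) : F ∣ G := by
  classical
  by_contra hnd
  obtain ⟨A, B, c, hc0, hc⟩ := EL.exists_elim F hF i (by
    intro h0
    rw [h0, map_zero] at hi
    exact hi rfl) G hnd
  apply hc0
  -- the local homeomorphism replacing the coordinate i by the value of the polynomial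
  let Φ : (σ → 𝕜) → (σ → 𝕜) := fun x => Function.update x i (aeval x F)
  let L : (σ → 𝕜) →L[𝕜] 𝕜 :=
    ∑ j, aeval r (pderiv j F) • (ContinuousLinearMap.proj (R := 𝕜) (φ := fun _ : σ => 𝕜) j)
  let Φ' : (σ → 𝕜) →L[𝕜] (σ → 𝕜) := ContinuousLinearMap.pi fun j =>
    if j = i then L else ContinuousLinearMap.proj (R := 𝕜) (φ := fun _ : σ => 𝕜) j
  have hΦ : HasStrictFDerivAt Φ Φ' r := by
    refine hasStrictFDerivAt_pi.mpr fun j => ?_
    by_cases hj : j = i
    · subst hj
      simp only [Φ, Function.update_self, if_pos rfl]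
      exact EL.hasStrictFDerivAt_aeval F r
    · simp only [Φ, Function.update_of_ne hj, if_neg hj]
      exact (ContinuousLinearMap.proj (R := 𝕜) (φ := fun _ : σ => 𝕜) j).hasStrictFDerivAt
  have hL : ∀ x : σ → 𝕜, (∀ j, j ≠ i → x j = 0) → L x = aeval r (pderiv i F) * x i := by
    intro x hx
    simp only [L, sum_apply, smul_apply,
      ContinuousLinearMap.proj_apply, smul_eq_mul]
    rw [Finset.sum_eq_single i]
    · intro j _ hj
      rw [hx j hj, mul_zero]
    · intro h
      exact absurd (Finset.mem_univ i) h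
  have hinj : Function.Injective Φ' := by
    rw [injective_iff_map_eq_zero]
    intro x hx
    have h1 : ∀ j, j ≠ i → x j = 0 := by
      intro j hj
      have h2 := congrFun hx j
      simpa [Φ', hj] using h2
    have h2 : L x = 0 := by
      have h3 := congrFun hx i
      simpa [Φ'] using h3
    rw [hL x h1] at h2
    funext j
    by_cases hj : j = i
    · subst hj
      exact (mul_eq_zero.mp h2).resolve_left hi
    · exact h1 j hj
  have hsurj : Function.Surjective Φ' :=
    (LinearMap.injective_iff_surjective (f := (Φ' : (σ → 𝕜) →ₗ[𝕜] (σ → 𝕜)))).mp hinj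
  have hmap := hΦ.map_nhds_eq_of_surj (LinearMap.range_eq_top.mpr hsurj)
  set U : Set (σ → 𝕜) := {x | aeval x F = 0 → aeval x G = 0} with hU
  have hUn : U ∈ 𝓝 r := hG
  have hFU : Φ '' U ∈ 𝓝 (Φ r) := by
    rw [← hmap]
    exact Filter.image_mem_map hUn
  have hcont : Continuous fun y : {j : σ // j ≠ i} → 𝕜 =>
      (fun j => if h : j ≠ i then y ⟨j, h⟩ else 0 : σ → 𝕜) := by
    refine continuous_pi fun j => ?_
    by_cases hj : j ≠ i
    · simp only [dif_pos hj]
      exact continuous_apply _
    · simp only [dif_neg hj]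
      exact continuous_const
  have h0 : Φ r = (fun j => if h : j ≠ i then (fun l : {j : σ // j ≠ i} => r l) ⟨j, h⟩ else 0 :
      σ → 𝕜) := by
    funext j
    by_cases hj : j ≠ i
    · simp only [Φ, dif_pos hj, Function.update_of_ne hj]
    · simp only [dif_neg hj]
      have hj' : j = i := not_not.mp hj
      subst hj'
      simp only [Φ, Function.update_self]
      exact hr
  have hpre : (fun y : {j : σ // j ≠ i} → 𝕜 =>
      (fun j => if h : j ≠ i then y ⟨j, h⟩ else 0 : σ → 𝕜)) ⁻¹' (Φ '' U) ∈
      𝓝 (fun l : {j : σ // j ≠ i} => r l) := by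
    apply hcont.continuousAt.preimage_mem_nhds
    rw [← h0]
    exact hFU
  obtain ⟨ε, hε, hball⟩ := Metric.mem_nhds_iff.mp hpre
  have hvan : ∀ y : {j : σ // j ≠ i} → 𝕜, (∀ j : {j : σ // j ≠ i}, y j ∈ Metric.ball (r j) ε) →
      eval y (MvPolynomial.map (algebraMap K 𝕜) c) = 0 := by
    intro y hy
    have hyb : y ∈ Metric.ball (fun l : {j : σ // j ≠ i} => r l) ε := by
      rw [Metric.mem_ball, dist_pi_lt_iff hε]
      intro j
      exact Metric.mem_ball.mp (hy j)
    obtain ⟨x, hxU, hx⟩ := hball hyb
    have hx1 : aeval x F = 0 := by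
      have h2 := congrFun hx i
      simpa [Φ] using h2
    have hx2 : ∀ l : {j : σ // j ≠ i}, x l = y l := by
      intro l
      have h2 := congrFun hx l
      simpa [Φ, l.2] using h2
    have h1 := congrArg (aeval x) hc
    rw [map_add, map_mul, map_mul, hx1, hxU hx1, mul_zero, mul_zero, add_zero, aeval_rename] at h1
    have h3 : x ∘ (Subtype.val : {j : σ // j ≠ i} → σ) = y := by
      funext l
      exact hx2 l
    rw [h3] at h1
    rw [eval_map, ← aeval_def]
    exact h1.symm
  have hz : MvPolynomial.map (algebraMap K 𝕜) c = 0 := by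
    refine MvPolynomial.funext_set (fun j : {j : σ // j ≠ i} => Metric.ball (r j) ε) ?_ ?_
    · intro j
      exact infinite_of_mem_nhds (r j) (Metric.ball_mem_nhds _ hε)
    · intro y hy
      rw [map_zero]
      exact hvan y fun j => hy j trivial
  exact MvPolynomial.map_injective _ (algebraMap K 𝕜).injective (by rw [hz, map_zero])

end Pool.Agent.Work.QK
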