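import Mathlib
import Pool.Agent.Work.MP_b62148_ag.Polar
import Pool.Agent.Work.MP_b62148_ag.Sextic.DerExt

/-!
Derivations with prescribed values on algebraically independent elements, and places over the
field of constants of a derivation.
-/

namespace Pool.Agent.Work.QK

open MvPolynomial

namespace DerAux

/-- derivations extend along formally smooth extensions -/
theorem extend {K A Ω : Type*} [Field K] [CommRing A] [Field Ω] [Algebra K A]
    [Algebra K Ω] [Algebra A Ω] [IsScalarTower K A Ω] [Algebra.FormallySmooth A Ω]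
    (d : Derivation K A Ω) :
    ∃ D : Derivation K Ω Ω, ∀ x, D (algebraMap A Ω x) = d x := by
  have hsurj : Function.Surjective (TrivSqZeroExt.fstHom Ω Ω Ω).toRingHom := fun x =>
    ⟨TrivSqZeroExt.inl x, by simp⟩
  have hker : IsNilpotent (RingHom.ker (TrivSqZeroExt.fstHom Ω Ω Ω).toRingHom) := by
    refine ⟨2, ?_⟩
    rw [Ideal.zero_eq_bot, eq_bot_iff, Submodule.pow_succ, Submodule.pow_one]
    refine Ideal.mul_le.mpr ?_
    intro x hx y hy
    have hx' : x.fst = 0 := hx
    have hy' : y.fst = 0 := hy
    rw [Ideal.mem_bot]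
    ext
    · simp [hx', hy']
    · simp [hx', hy']
  obtain ⟨l, hl1, hl2⟩ := Pool.Agent.Work.PD6.exists_ring_lift (Pool.Agent.Work.PD5.A4.phiD d)
    (TrivSqZeroExt.fstHom Ω Ω Ω).toRingHom
    hsurj hker (RingHom.id Ω) (fun r => by
      show (Pool.Agent.Work.PD5.A4.phiD d r).fst = algebraMap A Ω r
      simp [Pool.Agent.Work.PD5.A4.phiD])
  have hfst : ∀ x, (l x).fst = x := fun x => hl1 x
  have hK : ∀ k : K, l (algebraMap K Ω k) = TrivSqZeroExt.inl (algebraMap K Ω k) := by
    intro k
    rw [IsScalarTower.algebraMap_apply K A Ω, hl2]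
    ext
    · simp [Pool.Agent.Work.PD5.A4.phiD]
    · simp [Pool.Agent.Work.PD5.A4.phiD]
  refine ⟨Derivation.mk'
    { toFun := fun x => (l x).snd
      map_add' := fun x y => by rw [map_add]; simp
      map_smul' := fun k x => by
        rw [Algebra.smul_def, map_mul, hK]
        simp [Algebra.smul_def] } ?_, ?_⟩
  · intro x y
    simp only [LinearMap.coe_mk, AddHom.coe_mk, map_mul, TrivSqZeroExt.snd_mul, hfst]
    simp [mul_comm]
  · intro x
    change (l (algebraMap A Ω x)).snd = d x
    rw [hl2]
    simp [Pool.Agent.Work.PD5.A4.phiD]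

attribute [local instance] FractionRing.liftAlgebra

/-- a field of characteristic zero is formally smooth over a domain contained in it -/
theorem smooth_of_injective {A Ω : Type*} [CommRing A] [IsDomain A] [Field Ω] [CharZero Ω]
    [Algebra A Ω] [FaithfulSMul A Ω] : Algebra.FormallySmooth A Ω := by
  have i1 : Algebra.FormallySmooth A (FractionRing A) :=
    Algebra.FormallySmooth.of_isLocalization (nonZeroDivisors A)
  have hchar' : CharZero (FractionRing A) := by
    constructor
    intro m n hmn
    have := congrArg (algebraMap (FractionRing A) Ω) hmn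
    simpa using this
  have i2 : Algebra.FormallySmooth (FractionRing A) Ω :=
    Pool.Agent.Work.PD6.formallySmooth_ext _ _
  exact Algebra.FormallySmooth.comp A (FractionRing A) Ω

/-- the constants of a derivation, a subring -/
def consts {K Ω : Type*} [Field K] [Field Ω] [Algebra K Ω] (D : Derivation K Ω Ω) : Subring Ω where
  carrier := {z | D z = 0}
  mul_mem' := by
    intro a b ha hb
    simp only [Set.mem_ofPred_eq] at ha hb ⊢
    rw [Derivation.leibniz, ha, hb]; simp
  one_mem' := by simp
  add_mem' := by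
    intro a b ha hb
    simp only [Set.mem_ofPred_eq] at ha hb ⊢
    rw [map_add, ha, hb, add_zero]
  zero_mem' := by simp
  neg_mem' := by
    intro a ha
    simp only [Set.mem_ofPred_eq] at ha ⊢
    rw [map_neg, ha, neg_zero]

theorem mem_consts {K Ω : Type*} [Field K] [Field Ω] [Algebra K Ω] (D : Derivation K Ω Ω) (z : Ω) :
    z ∈ consts D ↔ D z = 0 := Iff.rfl

theorem inv_mem {K Ω : Type*} [Field K] [Field Ω] [Algebra K Ω] (D : Derivation K Ω Ω) {z : Ω}
    (hz : D z = 0) : D z⁻¹ = 0 := by
  rw [Derivation.leibniz_inv, hz]; simp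

/-- the derivative of a polynomial with constant coefficients -/
theorem der_eval {K Ω : Type*} [Field K] [Field Ω] [Algebra K Ω] (D : Derivation K Ω Ω)
    (p : Polynomial (consts D)) (x : Ω) :
    D (Polynomial.aeval x p) = Polynomial.aeval x (Polynomial.derivative p) * D x := by
  induction p using Polynomial.induction_on' with
  | add p q hp hq =>
    rw [map_add, map_add, hp, hq, map_add, map_add, add_mul]
  | monomial n a =>
    have ha : D (algebraMap (consts D) Ω a) = 0 := a.2
    rw [Polynomial.aeval_monomial, Polynomial.derivative_monomial, Polynomial.aeval_monomial,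
      Derivation.leibniz, ha, Derivation.leibniz_pow]
    simp only [smul_zero, add_zero, smul_eq_mul, nsmul_eq_mul, map_mul, map_natCast]
    ring

/-- the constants are integrally closed -/
theorem integrally_closed {K Ω : Type*} [Field K] [CharZero K] [Field Ω] [Algebra K Ω]
    (D : Derivation K Ω Ω) : IsIntegrallyClosedIn (consts D) Ω := by
  have hchar : CharZero Ω := charZero_of_injective_algebraMap (algebraMap K Ω).injective
  rw [Subring.isIntegrallyClosedIn_iff]
  intro y hy
  rw [mem_consts]
  by_contra hD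
  have hyi : IsIntegral (consts D) y := hy
  -- a monic polynomial of minimal degree
  have hex : ∃ n : ℕ, ∃ p : Polynomial (consts D), p ≠ 0 ∧ p.natDegree = n ∧
      Polynomial.aeval y p = 0 := by
    obtain ⟨p, hp1, hp2⟩ := hyi
    exact ⟨_, p, hp1.ne_zero, rfl, hp2⟩
  classical
  obtain ⟨p, hp0, hpn, hpy⟩ := Nat.find_spec hex
  have hmin := fun m (hm : m < Nat.find hex) => Nat.find_min hex hm
  have hder : Polynomial.aeval y (Polynomial.derivative p) = 0 := by
    have h1 := der_eval D p y
    rw [hpy, map_zero] at h1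
    rcases mul_eq_zero.mp h1.symm with h | h
    · exact h
    · exact absurd h hD
  by_cases hdeg : p.natDegree = 0
  · rw [Polynomial.eq_C_of_natDegree_eq_zero hdeg] at hpy hp0
    rw [Polynomial.aeval_C] at hpy
    apply hp0
    have : p.coeff 0 = 0 := by
      apply Subtype.ext
      exact hpy
    rw [this, Polynomial.C_0]
  · have hlt : (Polynomial.derivative p).natDegree < p.natDegree :=
      Polynomial.natDegree_derivative_lt hdeg
    refine hmin _ (hpn ▸ hlt) ⟨Polynomial.derivative p, ?_, rfl, hder⟩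
    have hcR : CharZero (consts D) := by
      constructor
      intro m n hmn
      have := congrArg (Subtype.val) hmn
      simpa using this
    intro h0
    have := Polynomial.natDegree_eq_zero_of_derivative_eq_zero h0
    exact hdeg this

end DerAux

theorem exists_der {K Ω : Type*} [Field K] [CharZero K] [Field Ω] [Algebra K Ω] {ι : Type*}
    (x : ι → Ω) (hx : AlgebraicIndependent K x) (c : ι → Ω) :
    ∃ D : Derivation K Ω Ω, ∀ i, D (x i) = c i := by
  have hchar : CharZero Ω := charZero_of_injective_algebraMap (algebraMap K Ω).injective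
  let a1 : Algebra (MvPolynomial ι K) Ω := (aeval x : MvPolynomial ι K →ₐ[K] Ω).toRingHom.toAlgebra
  have hmap : ∀ p : MvPolynomial ι K, algebraMap (MvPolynomial ι K) Ω p = aeval x p := fun p => rfl
  have a2 : IsScalarTower K (MvPolynomial ι K) Ω := by
    refine IsScalarTower.of_algebraMap_eq fun k => ?_
    rw [hmap, MvPolynomial.algebraMap_eq, MvPolynomial.aeval_C]
  have a3 : FaithfulSMul (MvPolynomial ι K) Ω := by
    rw [faithfulSMul_iff_algebraMap_injective]
    exact hx
  have a4 := DerAux.smooth_of_injective (A := MvPolynomial ι K) (Ω := Ω)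
  obtain ⟨D, hD⟩ := DerAux.extend (MvPolynomial.mkDerivation K c : Derivation K (MvPolynomial ι K) Ω)
  refine ⟨D, fun i => ?_⟩
  have h := hD (X i)
  rw [hmap, aeval_X, mkDerivation_X] at h
  exact h

universe u

theorem exists_place {K : Type*} {Ω : Type u} [Field K] [CharZero K] [Field Ω] [Algebra K Ω]
    {σ : Type*} [Finite σ] (D : Derivation K Ω Ω) (x : σ → Ω) (hx : ∃ i, D (x i) ≠ 0) :
    ∃ (A : Type u) (_ : CommRing A) (_ : Algebra K A) (κ : Type u) (_ : Field κ) (_ : Algebra K κ)
      (i : A →ₐ[K] Ω) (r : A →ₐ[K] κ),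
      Function.Injective i ∧ (∀ z, D z = 0 → ∃ b, i b = z ∧ (z ≠ 0 → r b ≠ 0)) ∧
      ∃ (m : σ) (y : σ → A) (s : A), x m ≠ 0 ∧ (∀ j, i (y j) = x j / x m) ∧ i s = (x m)⁻¹ ∧
        r s = 0 ∧ r (y m) ≠ 0 := by
  obtain ⟨i0, hi0⟩ := hx
  have hnot : x i0 ∉ DerAux.consts D := hi0
  have hic := DerAux.integrally_closed D
  obtain ⟨V, hV1, hV2⟩ :=
    (DerAux.consts D).exists_le_valuationSubring_of_isIntegrallyClosedIn hnot
  have hVk : ∀ e : K, algebraMap K Ω e ∈ V := fun e => hV1 (by
    rw [DerAux.mem_consts]; exact D.map_algebraMap e)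
  have hx0 : x ≠ 0 := by
    intro h0
    apply hi0
    rw [h0]; simp
  obtain ⟨m, hm0, hm⟩ := Pool.Agent.Work.PD.exists_max_coord V x hx0
  have hmV : x m ∉ V := by
    intro h1
    apply hV2
    have : x i0 = x i0 / x m * x m := by field_simp
    rw [this]
    exact V.mul_mem _ _ (hm i0) h1
  have hminv : (x m)⁻¹ ∈ V := (V.mem_or_inv_mem (x m)).resolve_left hmV
  obtain ⟨A, c1, c2, κ, c3, c4, i, r, hi, hiV, hr⟩ :=
    Pool.Agent.Work.PD.exists_reduction V hVk
  choose y hy using fun l => hiV _ (hm l)
  obtain ⟨s, hs⟩ := hiV _ hminv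
  refine ⟨A, c1, c2, κ, c3, c4, i, r, hi, ?_, m, y, s, hm0, hy, hs, ?_, ?_⟩
  · intro z hz
    obtain ⟨b, hb⟩ := hiV z (hV1 hz)
    refine ⟨b, hb, fun hz0 => ?_⟩
    rw [Ne, hr, hb]
    push Not
    exact ⟨hz0, hV1 (DerAux.inv_mem D hz)⟩
  · rw [hr, hs, inv_inv]; right; exact hmV
  · rw [Ne, hr, hy, div_self hm0]
    push Not
    refine ⟨one_ne_zero, ?_⟩
    rw [inv_one]; exact V.one_mem

end Pool.Agent.Work.QK
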