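import Mathlib
import Pool.Agent.Work.MP_b62148_ag.QK.Defs

/-!
Values, gradient and Hessian of a quartic form in terms of its polarisation.
-/

namespace Pool.Agent.Work.QK

open MvPolynomial Pool.Agent.Work.PD6

variable {K : Type*} [Field K] {σ : Type*} [Fintype σ] {F : MvPolynomial σ K} {a : (σ →₀ ℕ) → K}

theorem ev0 (ha : IsPol 4 F a) {R : Type*} [CommRing R] [Algebra K R] (x : σ → R) :
    aeval x F = q4 a x x x x := by
  have h : (ell x ^ 4 : MvPolynomial σ R) = ell x * ell x * ell x * ell x := by ring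
  rw [ha.aeval_eq, q4, h]

theorem ev1 [DecidableEq σ] (ha : IsPol 4 F a) {R : Type*} [CommRing R] [Algebra K R] (x : σ → R)
    (i : σ) : aeval x (pderiv i F) = 4 * q4 a x x x (Pi.single i 1) := by
  have h1 := isPol_grad (d := 3) ha x (Pi.single i 1 : σ → R)
  rw [Finset.sum_eq_single i (fun j _ hj => by rw [Pi.single_eq_of_ne hj, mul_zero])
    (fun hi => absurd (Finset.mem_univ i) hi), Pi.single_eq_same, mul_one] at h1
  have h : (ell x ^ 3 * ell (Pi.single i 1) : MvPolynomial σ R) =
    ell x * ell x * ell x * ell (Pi.single i 1) := by ring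
  rw [h1, h, q4]
  norm_num

theorem hess_isPol [DecidableEq σ] (ha : IsPol 4 F a) (i j : σ) : pderiv i (pderiv j F) =
    (12 : MvPolynomial σ K) * Lf a (ell (fun l => (X l : MvPolynomial σ K)) ^ 2 *
      (ell (Pi.single i 1) * ell (Pi.single j 1))) := by
  obtain ⟨D', h1, h2⟩ := exists_cD_ring (pderiv i : Derivation K (MvPolynomial σ K) _) a
  have h0 : D' (ell (Pi.single j 1 : σ → MvPolynomial σ K)) = 0 := by
    rw [h1]
    have : (fun l => (pderiv i) ((Pi.single j 1 : σ → MvPolynomial σ K) l)) = 0 := by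
      funext l
      by_cases hl : l = j
      · subst hl; simp
      · simp [Pi.single_eq_of_ne hl]
    rw [this, ell_zero]
  have h4 : (fun l => (pderiv i) (X l : MvPolynomial σ K)) = Pi.single i 1 := by
    funext l
    rw [pderiv_X]
  have h3 := h2 (ell (fun l => (X l : MvPolynomial σ K)) ^ 3 * ell (Pi.single j 1))
  rw [Derivation.leibniz, h0, smul_zero, zero_add, Derivation.leibniz_pow, h1, h4] at h3
  have h5 : (ell (Pi.single j 1 : σ → MvPolynomial σ K)) • 3 •
      ell (fun l => (X l : MvPolynomial σ K)) ^ (3 - 1) • ell (Pi.single i 1) =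
      ((3 : ℕ) : MvPolynomial σ (MvPolynomial σ K)) * (ell (fun l => (X l : MvPolynomial σ K)) ^ 2 *
        (ell (Pi.single i 1) * ell (Pi.single j 1))) := by
    rw [nsmul_eq_mul]
    simp only [smul_eq_mul]
    push_cast
    ring
  rw [h5, Lf_nsmul] at h3
  rw [pderiv_isPol (d := 3) ha, Derivation.leibniz, h3]
  have h6 : pderiv i (((3 : ℕ) : MvPolynomial σ K) + 1) = 0 := by
    rw [map_add, Derivation.map_natCast]
    simp
  rw [h6]
  simp only [smul_eq_mul, mul_zero, add_zero]
  push_cast
  ring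

theorem ev2 [DecidableEq σ] (ha : IsPol 4 F a) {R : Type*} [CommRing R] [Algebra K R] (x : σ → R)
    (i j : σ) : aeval x (pderiv i (pderiv j F)) =
    12 * q4 a x x (Pi.single i 1) (Pi.single j 1) := by
  rw [hess_isPol ha, map_mul, map_ofNat]
  refine congrArg (fun z : R => 12 * z) ?_
  have h1 := map_Lf a (aeval x : MvPolynomial σ K →ₐ[K] R)
    (ell (fun l => (X l : MvPolynomial σ K)) ^ 2 * (ell (Pi.single i 1) * ell (Pi.single j 1)))
  rw [h1, RingHom.map_mul, RingHom.map_pow, RingHom.map_mul, map_ell, map_ell, map_ell, q4]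
  have e1 : (fun l => ((aeval x : MvPolynomial σ K →ₐ[K] R) : MvPolynomial σ K →+* R) (X l)) = x := by
    funext l
    exact aeval_X x l
  have e2 : ∀ m : σ, (fun l => ((aeval x : MvPolynomial σ K →ₐ[K] R) : MvPolynomial σ K →+* R)
      ((Pi.single m 1 : σ → MvPolynomial σ K) l)) = Pi.single m 1 := by
    intro m
    funext l
    by_cases hl : l = m
    · subst hl; simp
    · simp [Pi.single_eq_of_ne hl]
  have h : (ell x ^ 2 * (ell (Pi.single i 1) * ell (Pi.single j 1)) : MvPolynomial σ R) =
    ell x * ell x * ell (Pi.single i 1) * ell (Pi.single j 1) := by ring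
  rw [e1, e2, e2, h]

end Pool.Agent.Work.QK
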