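import Mathlib
import Pool.Agent.Work.MP_b62148_ag.QK.Defs
import Pool.Agent.Work.MP_b62148_ag.QK.Ev
import Pool.Agent.Work.MP_b62148_ag.QK.Der

/-!
A relation between polar forms of a smooth quartic at a vector and at constants of a derivation
forces the vector to be a constant.
-/

namespace Pool.Agent.Work.QK

open MvPolynomial Pool.Agent.Work.PD6

namespace BirchAux

section Ring

variable {K : Type*} [Field K] {σ : Type*} [Fintype σ] (a : (σ →₀ ℕ) → K)
  {R : Type*} [CommRing R] [Algebra K R]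

theorem map_q4 {S : Type*} [CommRing S] [Algebra K S] (g : R →ₐ[K] S) (x y z w : σ → R) :
    g (q4 a x y z w) = q4 a (fun i => g (x i)) (fun i => g (y i)) (fun i => g (z i))
      (fun i => g (w i)) := by
  have e1 : ∀ v : σ → R, MvPolynomial.map (g : R →+* S) (ell v) = ell (fun i => g (v i)) :=
    fun v => map_ell (g : R →+* S) v
  have e2 : MvPolynomial.map (g : R →+* S) (ell x * ell y * ell z * ell w) =
      ell (fun i => g (x i)) * ell (fun i => g (y i)) * ell (fun i => g (z i)) *
        ell (fun i => g (w i)) := by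
    rw [RingHom.map_mul, RingHom.map_mul, RingHom.map_mul, e1, e1, e1, e1]
  rw [q4, q4, map_Lf, e2]

theorem lin3 (y v u : σ → R) (l : R) :
    q4 a y y (l • y + v) u = l * q4 a y y y u + q4 a y y v u := by
  have h : ell y * ell y * ell (l • y + v) * ell u =
      C l * (ell y * ell y * ell y * ell u) + ell y * ell y * ell v * ell u := by
    rw [ell_add, ell_smul]; ring
  rw [q4, h, map_add, Lf_C_mul, q4, q4]

theorem lin23 (y v u : σ → R) (l : R) :
    q4 a y (l • y + v) (l • y + v) u =
      l ^ 2 * q4 a y y y u + 2 * l * q4 a y y v u + q4 a y v v u := by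
  have h : ell y * ell (l • y + v) * ell (l • y + v) * ell u =
      C (l ^ 2) * (ell y * ell y * ell y * ell u) + C (2 * l) * (ell y * ell y * ell v * ell u) +
        ell y * ell v * ell v * ell u := by
    rw [ell_add, ell_smul]
    simp only [map_pow, map_mul, map_ofNat]
    ring
  rw [q4, h, map_add, map_add, Lf_C_mul, Lf_C_mul, q4, q4, q4]

theorem sm3 (y u : σ → R) (t : R) : q4 a (t • y) (t • y) (t • y) u = t ^ 3 * q4 a y y y u := by
  have h : ell (t • y) * ell (t • y) * ell (t • y) * ell u =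
      C (t ^ 3) * (ell y * ell y * ell y * ell u) := by
    rw [ell_smul]
    simp only [map_pow]
    ring
  rw [q4, h, Lf_C_mul, q4]

theorem sm2 (y v u : σ → R) (t : R) : q4 a (t • y) (t • y) v u = t ^ 2 * q4 a y y v u := by
  have h : ell (t • y) * ell (t • y) * ell v * ell u =
      C (t ^ 2) * (ell y * ell y * ell v * ell u) := by
    rw [ell_smul]
    simp only [map_pow]
    ring
  rw [q4, h, Lf_C_mul, q4]

theorem sm1 (y v w u : σ → R) (t : R) : q4 a (t • y) v w u = t * q4 a y v w u := by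
  have h : ell (t • y) * ell v * ell w * ell u = C t * (ell y * ell v * ell w * ell u) := by
    rw [ell_smul]
    ring
  rw [q4, h, Lf_C_mul, q4]

theorem sm1' (y v w u : σ → R) (t : R) : q4 a v w (t • y) u = t * q4 a v w y u := by
  have h : ell v * ell w * ell (t • y) * ell u = C t * (ell v * ell w * ell y * ell u) := by
    rw [ell_smul]
    ring
  rw [q4, h, Lf_C_mul, q4]

end Ring

end BirchAux

open BirchAux in
theorem const_of_rel {K : Type*} [Field K] [CharZero K] {Ω : Type*} [Field Ω] [Algebra K Ω]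
    {σ : Type*} [Fintype σ] [DecidableEq σ] {F : MvPolynomial σ K}
    (hs : PD.SmoothForm F) {a : (σ →₀ ℕ) → K} (ha : IsPol 4 F a) (D : Derivation K Ω Ω)
    (q w p : σ → Ω) (c0 c1 c2 α β lam : Ω)
    (hw : ∀ i, D (w i) = 0) (hp : ∀ i, D (p i) = 0) (h0 : D c0 = 0) (h1 : D c1 = 0)
    (h2 : D c2 = 0) (hα : D α = 0) (hβ : D β = 0) (hl : D lam = 0)
    (hne : c0 + c1 * lam + c2 * lam ^ 2 ≠ 0)
    (h : ∀ u : σ → Ω, c0 * q4 a q q q u + c1 * q4 a q q (lam • q + w) u +
      c2 * q4 a q (lam • q + w) (lam • q + w) u =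
      α * q4 a p p p u + β * q4 a p p q u) : ∀ i, D (q i) = 0 := by
  by_contra hcon
  push Not at hcon
  obtain ⟨A, _, _, κ, _, _, i, r, hi, hc, m, y, s, hm, hy, his, hrs, hrm⟩ := exists_place D q hcon
  choose W hW hW' using fun j => hc (w j) (hw j)
  choose P hP hP' using fun j => hc (p j) (hp j)
  obtain ⟨b0, hb0, -⟩ := hc c0 h0
  obtain ⟨b1, hb1, -⟩ := hc c1 h1
  obtain ⟨b2, hb2, -⟩ := hc c2 h2
  obtain ⟨bα, hbα, -⟩ := hc α hα
  obtain ⟨bβ, hbβ, -⟩ := hc β hβ
  obtain ⟨bl, hbl, -⟩ := hc lam hl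
  have hDe : D (c0 + c1 * lam + c2 * lam ^ 2) = 0 := by
    rw [map_add, map_add, Derivation.leibniz, Derivation.leibniz, Derivation.leibniz_pow, h0, h1,
      h2, hl]
    simp
  obtain ⟨bE, hbE, hbE'⟩ := hc _ hDe
  have hrE : r (b0 + b1 * bl + b2 * bl ^ 2) ≠ 0 := by
    have : bE = b0 + b1 * bl + b2 * bl ^ 2 := by
      apply hi
      rw [hbE, map_add, map_add, map_mul, map_mul, map_pow, hb0, hb1, hb2, hbl]
    rw [← this]
    exact hbE' hne
  have hq : q = q m • fun j => i (y j) := by
    funext j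
    rw [Pi.smul_apply, smul_eq_mul, hy]
    field_simp
  have hts : i s * q m = 1 := by rw [his]; exact inv_mul_cancel₀ hm
  -- the relation in the valuation ring
  have key : ∀ j : σ, (b0 + b1 * bl + b2 * bl ^ 2) * q4 a y y y (Pi.single j 1) +
      (b1 + 2 * b2 * bl) * s * q4 a y y W (Pi.single j 1) +
      b2 * s ^ 2 * q4 a y W W (Pi.single j 1) =
      bα * s ^ 3 * q4 a P P P (Pi.single j 1) + bβ * s ^ 2 * q4 a P P y (Pi.single j 1) := by
    intro j
    apply hi
    have e1 : (fun l => i ((Pi.single j 1 : σ → A) l)) = (Pi.single j 1 : σ → Ω) := by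
      funext l
      by_cases hl' : l = j
      · subst hl'; simp
      · simp [Pi.single_eq_of_ne hl']
    have e2 : (fun l => i (W l)) = w := funext hW
    have e3 : (fun l => i (P l)) = p := funext hP
    simp only [map_add, map_mul, map_pow, map_ofNat, map_q4 a i, e1, e2, e3, hb0, hb1, hb2, hbα,
      hbβ, hbl]
    have h5 := h (Pi.single j 1)
    rw [lin3, lin23] at h5
    rw [hq] at h5
    rw [sm3, sm2, sm1, sm1'] at h5
    set y' : σ → Ω := fun l => i (y l) with hy'
    set t := q m
    set s' := i s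
    set A1 := q4 a y' y' y' (Pi.single j 1 : σ → Ω)
    set A2 := q4 a y' y' w (Pi.single j 1 : σ → Ω)
    set A3 := q4 a y' w w (Pi.single j 1 : σ → Ω)
    set A4 := q4 a p p p (Pi.single j 1 : σ → Ω)
    set A5 := q4 a p p y' (Pi.single j 1 : σ → Ω)
    have h6 := congrArg (fun z => s' ^ 3 * z) h5
    have h7 : s' ^ 3 * t ^ 3 = 1 := by rw [← mul_pow, hts, one_pow]
    have h8 : s' ^ 3 * t ^ 2 = s' := by
      calc s' ^ 3 * t ^ 2 = s' * (s' * t) ^ 2 := by ring
        _ = s' := by rw [hts]; ring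
    have h9 : s' ^ 3 * t = s' ^ 2 := by
      calc s' ^ 3 * t = s' ^ 2 * (s' * t) := by ring
        _ = s' ^ 2 := by rw [hts]; ring
    linear_combination h6 - (c0 + c1 * lam + c2 * lam ^ 2) * A1 * h7 -
      (c1 + 2 * c2 * lam) * A2 * h8 - c2 * A3 * h9 + β * A5 * h9
  have hgrad : ∀ j : σ, aeval (fun l => r (y l)) (pderiv j F) = 0 := by
    intro j
    rw [ev1 ha]
    have h5 := congrArg r (key j)
    have e1 : (fun l => r ((Pi.single j 1 : σ → A) l)) = (Pi.single j 1 : σ → κ) := by
      funext l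
      by_cases hl' : l = j
      · subst hl'; simp
      · simp [Pi.single_eq_of_ne hl']
    simp only [map_add, map_mul, map_pow, hrs, map_q4 a r, e1] at h5
    have h6 : r (b0 + b1 * bl + b2 * bl ^ 2) *
        q4 a (fun l => r (y l)) (fun l => r (y l)) (fun l => r (y l)) (Pi.single j 1) = 0 := by
      simp only [map_add, map_mul, map_pow]
      linear_combination h5
    rcases mul_eq_zero.mp h6 with h7 | h7
    · exact absurd h7 hrE
    · rw [h7, mul_zero]
  exact hrm (congrFun (hs.ext _ hgrad) m)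

end Pool.Agent.Work.QK
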