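import Mathlib
import Pool.Agent.Work.MP_b62148_ag.QK.Defs

/-!
Open mapping arguments for the density theorem for quartics with a rational point.
-/

set_option maxSynthPendingDepth 3

namespace Pool.Agent.Work.QK.Op

open MvPolynomial Pool.Agent.Work.PD6 Filter Topology Pool.Agent.Work.QK

variable {K : Type*} [Field K] {𝕜 : Type*} [RCLike 𝕜] [Algebra K 𝕜] {σ : Type*} [Fintype σ]

section Multilinear

variable (a : (σ →₀ ℕ) → K) {R : Type*} [CommRing R] [Algebra K R]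

theorem q4_add (x y z w w' : σ → R) : q4 a x y z (w + w') = q4 a x y z w + q4 a x y z w' := by
  simp only [q4, ell_add, mul_add, map_add]

theorem q4_smul (x y z w : σ → R) (c : R) : q4 a x y z (c • w) = c * q4 a x y z w := by
  simp only [q4, ell_smul]
  rw [← Lf_C_mul]
  congr 1
  ring

theorem q4_perm {x y z w x' y' z' w' : σ → R}
    (h : ell x * ell y * ell z * ell w = ell x' * ell y' * ell z' * ell w') :
    q4 a x y z w = q4 a x' y' z' w' := by
  rw [q4, q4, h]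

theorem q4_s12 (x y z w : σ → R) : q4 a x y z w = q4 a y x z w := q4_perm a (by ring)

theorem q4_s23 (x y z w : σ → R) : q4 a x y z w = q4 a x z y w := q4_perm a (by ring)

theorem q4_s34 (x y z w : σ → R) : q4 a x y z w = q4 a x y w z := q4_perm a (by ring)

end Multilinear

section Real

variable (a : (σ →₀ ℕ) → K)

theorem q4_add3 (x y z z' w : σ → 𝕜) : q4 a x y (z + z') w = q4 a x y z w + q4 a x y z' w := by
  rw [q4_s34, q4_add, q4_s34, q4_s34 a x y w z']

theorem q4_smul3 (x y z w : σ → 𝕜) (c : 𝕜) : q4 a x y (c • z) w = c * q4 a x y z w := by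
  rw [q4_s34, q4_smul, q4_s34]

theorem q4_add2 (x y y' z w : σ → 𝕜) : q4 a x (y + y') z w = q4 a x y z w + q4 a x y' z w := by
  rw [q4_s23, q4_add3, q4_s23, q4_s23 a x z y']

theorem q4_smul2 (x y z w : σ → 𝕜) (c : 𝕜) : q4 a x (c • y) z w = c * q4 a x y z w := by
  rw [q4_s23, q4_smul3, q4_s23]

theorem q4_add1 (x x' y z w : σ → 𝕜) : q4 a (x + x') y z w = q4 a x y z w + q4 a x' y z w := by
  rw [q4_s12, q4_add2, q4_s12, q4_s12 a y x']

theorem q4_smul1 (x y z w : σ → 𝕜) (c : 𝕜) : q4 a (c • x) y z w = c * q4 a x y z w := by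
  rw [q4_s12, q4_smul2, q4_s12]

/-- the quartic form as a continuous multilinear map -/
noncomputable def T1 (x y z : σ → 𝕜) : (σ → 𝕜) →L[𝕜] 𝕜 :=
  LinearMap.toContinuousLinearMap
    { toFun := fun w => q4 a x y z w
      map_add' := fun w w' => q4_add a x y z w w'
      map_smul' := fun c w => q4_smul a x y z w c }

noncomputable def T2 (x y : σ → 𝕜) : (σ → 𝕜) →L[𝕜] (σ → 𝕜) →L[𝕜] 𝕜 :=
  LinearMap.toContinuousLinearMap
    { toFun := fun z => T1 a x y z
      map_add' := fun z z' => by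
        ext w
        exact q4_add3 a x y z z' w
      map_smul' := fun c z => by
        ext w
        exact q4_smul3 a x y z w c }

noncomputable def T3 (x : σ → 𝕜) : (σ → 𝕜) →L[𝕜] (σ → 𝕜) →L[𝕜] (σ → 𝕜) →L[𝕜] 𝕜 :=
  LinearMap.toContinuousLinearMap
    { toFun := fun y => T2 a x y
      map_add' := fun y y' => by
        ext z w
        exact q4_add2 a x y y' z w
      map_smul' := fun c y => by
        ext z w
        exact q4_smul2 a x y z w c }

variable (𝕜) in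
noncomputable def T : (σ → 𝕜) →L[𝕜] (σ → 𝕜) →L[𝕜] (σ → 𝕜) →L[𝕜] (σ → 𝕜) →L[𝕜] 𝕜 :=
  LinearMap.toContinuousLinearMap
    { toFun := fun x => T3 a x
      map_add' := fun x x' => by
        ext y z w
        exact q4_add1 a x x' y z w
      map_smul' := fun c x => by
        ext y z w
        exact q4_smul1 a x y z w c }

theorem T_apply (x y z w : σ → 𝕜) : T 𝕜 a x y z w = q4 a x y z w := rfl

/-- the product rule -/
theorem hs4 {E : Type*} [NormedAddCommGroup E] [NormedSpace 𝕜 E] {f g h k : E → (σ → 𝕜)}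
    {f' g' h' k' : E →L[𝕜] (σ → 𝕜)} {x : E} (hf : HasStrictFDerivAt f f' x)
    (hg : HasStrictFDerivAt g g' x) (hh : HasStrictFDerivAt h h' x)
    (hk : HasStrictFDerivAt k k' x) :
    ∃ L : E →L[𝕜] 𝕜, HasStrictFDerivAt (fun y => q4 a (f y) (g y) (h y) (k y)) L x ∧
      ∀ v, L v = q4 a (f' v) (g x) (h x) (k x) + q4 a (f x) (g' v) (h x) (k x) +
        q4 a (f x) (g x) (h' v) (k x) + q4 a (f x) (g x) (h x) (k' v) := by
  have h1 : HasStrictFDerivAt (fun y => T 𝕜 a (f y)) ((T 𝕜 a).comp f') x :=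
    (T 𝕜 a).hasStrictFDerivAt.comp x hf
  have h2 := h1.clm_apply hg
  have h3 := h2.clm_apply hh
  have h4 := h3.clm_apply hk
  refine ⟨_, h4, fun v => ?_⟩
  simp only [_root_.add_apply, ContinuousLinearMap.comp_apply,
    ContinuousLinearMap.flip_apply, T_apply]
  ring

/-- functionals without linear relation take arbitrary values -/
theorem onto_of_indep {n : ℕ} (f : Fin n → ((σ → 𝕜) →L[𝕜] 𝕜))
    (h : LinearIndependent 𝕜 f) (r : Fin n → 𝕜) : ∃ w, ∀ i, f i w = r i := by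
  classical
  let Φ : (σ → 𝕜) →ₗ[𝕜] (Fin n → 𝕜) := LinearMap.pi fun i => (f i : (σ → 𝕜) →ₗ[𝕜] 𝕜)
  have hsurj : Function.Surjective Φ := by
    rw [← LinearMap.range_eq_top]
    by_contra hne
    obtain ⟨g, hg0, hg⟩ := Submodule.exists_le_ker_of_lt_top _ (lt_top_iff_ne_top.mpr hne)
    apply hg0
    have h1 : ∀ κ : Fin n → 𝕜, g κ = ∑ i, κ i * g (Pi.single i 1) := by
      intro κ
      conv_lhs => rw [pi_eq_sum_univ' κ]
      rw [map_sum]
      refine Finset.sum_congr rfl fun i _ => ?_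
      rw [map_smul, smul_eq_mul]
    have h2 : ∑ i, g (Pi.single i 1) • f i = 0 := by
      ext w
      have h3 : Φ w ∈ LinearMap.ker g := hg ⟨w, rfl⟩
      rw [LinearMap.mem_ker, h1] at h3
      rw [_root_.sum_apply, _root_.zero_apply, ← h3]
      refine Finset.sum_congr rfl fun i _ => ?_
      show g (Pi.single i 1) * f i w = _
      rw [mul_comm]
      rfl
    have h4 := Fintype.linearIndependent_iff.mp h _ h2
    ext i
    simpa using h4 i
  obtain ⟨w, hw⟩ := hsurj r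
  exact ⟨w, fun i => congrFun hw i⟩

end Real

section Rank

/-- rank at least `ρ` through independent rows -/
theorem rank_rows {F : Type*} [Field F] (M : Matrix σ σ F) (ρ : ℕ) :
    ρ ≤ M.rank ↔ ∃ f : Fin ρ → σ, LinearIndependent F fun i => M (f i) := by
  classical
  constructor
  · intro h
    rw [Matrix.rank_eq_finrank_span_row] at h
    obtain ⟨g, hg, -, hli⟩ := Submodule.exists_fun_fin_finrank_span_eq F (Set.range M.row)
    choose e he using hg
    refine ⟨fun i => e (Fin.castLE h i), ?_⟩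
    have h1 := hli.comp (Fin.castLE h) (Fin.castLE_injective h)
    have h2 : (fun i => M (e (Fin.castLE h i))) = g ∘ Fin.castLE h := funext fun i => he _
    rw [h2]
    exact h1
  · rintro ⟨f, hf⟩
    have h1 : (M.submatrix f id).rank = Fintype.card (Fin ρ) := by
      apply LinearIndependent.rank_matrix
      exact hf
    have h2 : (M.submatrix f id).rank ≤ M.rank := by
      rw [Matrix.rank_eq_finrank_span_row, Matrix.rank_eq_finrank_span_row]
      apply Submodule.finrank_mono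
      apply Submodule.span_mono
      rintro _ ⟨i, rfl⟩
      exact ⟨f i, rfl⟩
    rw [h1, Fintype.card_fin] at h2
    exact h2

end Rank

section Near

variable [DecidableEq σ] (a : (σ →₀ ℕ) → K)

omit [DecidableEq σ] in
/-- compatibility with the embedding -/
theorem q4_bc (x y z w : σ → K) :
    q4 a (bc 𝕜 x) (bc 𝕜 y) (bc 𝕜 z) (bc 𝕜 w) = algebraMap K 𝕜 (q4 a x y z w) := by
  have h1 := map_Lf a (Algebra.ofId K 𝕜) (ell x * ell y * ell z * ell w)
  simp only [map_mul, map_ell] at h1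
  exact h1.symm

theorem bc_single (i : σ) : bc 𝕜 (Pi.single i 1 : σ → K) = Pi.single i 1 := by
  funext j
  by_cases h : j = i
  · subst h; simp [bc]
  · simp [bc, h]

/-- the five functionals -/
noncomputable def fam (P q r : σ → 𝕜) : Fin 5 → ((σ → 𝕜) →L[𝕜] 𝕜) :=
  ![T 𝕜 a P P P, T 𝕜 a P P q, T 𝕜 a q q q, T 𝕜 a q q r, T 𝕜 a q r r]

/-- the open conditions -/
def Good (ρ : ℕ) (P : σ → 𝕜) (x : (σ → 𝕜) × (σ → 𝕜)) : Prop :=
  LinearIndependent 𝕜 (fam a P x.1 x.2) ∧ q4 a P x.1 x.1 x.1 ≠ 0 ∧ q4 a x.1 x.2 x.2 x.2 ≠ 0 ∧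
    ∃ f : Fin ρ → σ, LinearIndependent 𝕜 fun i => hm a x.1 (f i)

theorem continuous_q4 {X : Type*} [TopologicalSpace X] {f g h k : X → (σ → 𝕜)} (hf : Continuous f)
    (hg : Continuous g) (hh : Continuous h) (hk : Continuous k) :
    Continuous fun x => q4 a (f x) (g x) (h x) (k x) :=
  (((((T 𝕜 a).continuous.comp hf).clm_apply hg).clm_apply hh).clm_apply hk)

theorem continuous_T3 {X : Type*} [TopologicalSpace X] {f g h : X → (σ → 𝕜)} (hf : Continuous f)
    (hg : Continuous g) (hh : Continuous h) :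
    Continuous fun x => T 𝕜 a (f x) (g x) (h x) :=
  (((T 𝕜 a).continuous.comp hf).clm_apply hg).clm_apply hh

theorem isOpen_good (ρ : ℕ) (P : σ → 𝕜) : IsOpen {x | Good a ρ P x} := by
  have h1 : IsOpen {x : (σ → 𝕜) × (σ → 𝕜) | LinearIndependent 𝕜 (fam a P x.1 x.2)} := by
    have hc : Continuous fun x : (σ → 𝕜) × (σ → 𝕜) => fam a P x.1 x.2 := by
      refine continuous_pi fun i => ?_
      have cP : Continuous fun _ : (σ → 𝕜) × (σ → 𝕜) => P := continuous_const
      fin_cases i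
      · exact continuous_T3 a cP cP cP
      · exact continuous_T3 a cP cP continuous_fst
      · exact continuous_T3 a continuous_fst continuous_fst continuous_fst
      · exact continuous_T3 a continuous_fst continuous_fst continuous_snd
      · exact continuous_T3 a continuous_fst continuous_snd continuous_snd
    exact isOpen_setOfPred_linearIndependent.preimage hc
  have h2 : IsOpen {x : (σ → 𝕜) × (σ → 𝕜) | q4 a P x.1 x.1 x.1 ≠ 0} :=
    isOpen_ne_fun (continuous_q4 a continuous_const continuous_fst continuous_fst continuous_fst)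
      continuous_const
  have h3 : IsOpen {x : (σ → 𝕜) × (σ → 𝕜) | q4 a x.1 x.2 x.2 x.2 ≠ 0} :=
    isOpen_ne_fun (continuous_q4 a continuous_fst continuous_snd continuous_snd continuous_snd)
      continuous_const
  have h4 : IsOpen {x : (σ → 𝕜) × (σ → 𝕜) | ∃ f : Fin ρ → σ,
      LinearIndependent 𝕜 fun i => hm a x.1 (f i)} := by
    have : {x : (σ → 𝕜) × (σ → 𝕜) | ∃ f : Fin ρ → σ,
        LinearIndependent 𝕜 fun i => hm a x.1 (f i)} = ⋃ f : Fin ρ → σ,
        {x : (σ → 𝕜) × (σ → 𝕜) | LinearIndependent 𝕜 fun i => hm a x.1 (f i)} := by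
      ext x; simp
    rw [this]
    refine isOpen_iUnion fun f => ?_
    have hc : Continuous fun x : (σ → 𝕜) × (σ → 𝕜) => fun i => hm a x.1 (f i) := by
      refine continuous_pi fun i => continuous_pi fun j => ?_
      exact continuous_q4 a continuous_fst continuous_fst continuous_const continuous_const
    exact isOpen_setOfPred_linearIndependent.preimage hc
  exact h1.inter (h2.inter (h3.inter h4))

/-- first open mapping -/
theorem open1 (P q r : σ → 𝕜) (hg : LinearIndependent 𝕜 (fam a P q r))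
    (h1 : q4 a P P P q = 0) (h2 : q4 a P P q q = 0) (h4 : q4 a q q q q = 0)
    (g1 : q4 a q q q r = 0) (g2 : q4 a q q r r = 0) {U : Set (σ → 𝕜)} (hU : U ∈ 𝓝 q) :
    ∀ᶠ r' in 𝓝 r, ∃ q' ∈ U, q4 a P P P q' = 0 ∧ q4 a P P q' q' = 0 ∧ q4 a q' q' q' q' = 0 ∧
      q4 a q' q' q' r' = 0 ∧ q4 a q' q' r' r' = 0 := by
  let x₀ : (σ → 𝕜) × (σ → 𝕜) := (q, r)
  have hf : HasStrictFDerivAt (fun x : (σ → 𝕜) × (σ → 𝕜) => x.1)
    (ContinuousLinearMap.fst 𝕜 (σ → 𝕜) (σ → 𝕜)) x₀ := hasStrictFDerivAt_fst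
  have hs : HasStrictFDerivAt (fun x : (σ → 𝕜) × (σ → 𝕜) => x.2)
    (ContinuousLinearMap.snd 𝕜 (σ → 𝕜) (σ → 𝕜)) x₀ := hasStrictFDerivAt_snd
  have hc : HasStrictFDerivAt (fun _ : (σ → 𝕜) × (σ → 𝕜) => P)
    (0 : (σ → 𝕜) × (σ → 𝕜) →L[𝕜] (σ → 𝕜)) x₀ := hasStrictFDerivAt_const _ _
  obtain ⟨L1, hL1, hL1'⟩ := hs4 a hc hc hc hf
  obtain ⟨L2, hL2, hL2'⟩ := hs4 a hc hc hf hf
  obtain ⟨L3, hL3, hL3'⟩ := hs4 a hf hf hf hf
  obtain ⟨L4, hL4, hL4'⟩ := hs4 a hf hf hf hs
  obtain ⟨L5, hL5, hL5'⟩ := hs4 a hf hf hs hs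
  have hΨ := hs.prodMk (hL1.prodMk (hL2.prodMk (hL3.prodMk (hL4.prodMk hL5))))
  have hsurj : ((ContinuousLinearMap.snd 𝕜 (σ → 𝕜) (σ → 𝕜)).prod
      (L1.prod (L2.prod (L3.prod (L4.prod L5))))).range = ⊤ := by
    rw [LinearMap.range_eq_top]
    rintro ⟨η, c1, c2, c3, c4, c5⟩
    obtain ⟨δ, hδ⟩ := onto_of_indep (fam a P q r) hg ![c1, c2 / 2, c3 / 4,
      (c4 - q4 a q q q η) / 3, (c5 - 2 * q4 a q q r η) / 2]
    have e1 : q4 a P P P δ = c1 := hδ 0
    have e2 : q4 a P P q δ = c2 / 2 := hδ 1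
    have e3 : q4 a q q q δ = c3 / 4 := hδ 2
    have e4 : q4 a q q r δ = (c4 - q4 a q q q η) / 3 := hδ 3
    have e5 : q4 a q r r δ = (c5 - 2 * q4 a q q r η) / 2 := hδ 4
    refine ⟨(δ, η), ?_⟩
    have z1 : ∀ x y z : σ → 𝕜, q4 a 0 x y z = 0 := fun x y z => by
      simpa using q4_smul1 a 0 x y z 0
    have z2 : ∀ x y z : σ → 𝕜, q4 a x 0 y z = 0 := fun x y z => by
      simpa using q4_smul2 a x 0 y z 0
    have z3 : ∀ x y z : σ → 𝕜, q4 a x y 0 z = 0 := fun x y z => by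
      simpa using q4_smul3 a x y 0 z 0
    have E1 : L1 (δ, η) = c1 := by
      rw [hL1']
      simp only [_root_.zero_apply, z1, z2, z3, zero_add]
      exact e1
    have E2 : L2 (δ, η) = c2 := by
      rw [hL2']
      simp only [_root_.zero_apply, z1, z2, zero_add]
      show q4 a P P δ q + q4 a P P q δ = c2
      rw [q4_s34 a P P δ q, e2]; ring
    have E3 : L3 (δ, η) = c3 := by
      rw [hL3']
      show q4 a δ q q q + q4 a q δ q q + q4 a q q δ q + q4 a q q q δ = c3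
      have k1 : q4 a δ q q q = q4 a q q q δ := q4_perm a (by ring)
      have k2 : q4 a q δ q q = q4 a q q q δ := q4_perm a (by ring)
      have k3 : q4 a q q δ q = q4 a q q q δ := q4_perm a (by ring)
      rw [k1, k2, k3, e3]; ring
    have E4 : L4 (δ, η) = c4 := by
      rw [hL4']
      show q4 a δ q q r + q4 a q δ q r + q4 a q q δ r + q4 a q q q η = c4
      have k1 : q4 a δ q q r = q4 a q q r δ := q4_perm a (by ring)
      have k2 : q4 a q δ q r = q4 a q q r δ := q4_perm a (by ring)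
      have k3 : q4 a q q δ r = q4 a q q r δ := q4_perm a (by ring)
      rw [k1, k2, k3, e4]; ring
    have E5 : L5 (δ, η) = c5 := by
      rw [hL5']
      show q4 a δ q r r + q4 a q δ r r + q4 a q q η r + q4 a q q r η = c5
      have k1 : q4 a δ q r r = q4 a q r r δ := q4_perm a (by ring)
      have k2 : q4 a q δ r r = q4 a q r r δ := q4_perm a (by ring)
      have k3 : q4 a q q η r = q4 a q q r η := q4_perm a (by ring)
      rw [k1, k2, k3, e5]; ring
    show (η, L1 (δ, η), L2 (δ, η), L3 (δ, η), L4 (δ, η), L5 (δ, η)) = _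
    rw [E1, E2, E3, E4, E5]
  have hmap := hΨ.map_nhds_eq_of_surj hsurj
  have hmem : U ×ˢ Set.univ ∈ 𝓝 x₀ := prod_mem_nhds hU univ_mem
  have himg := image_mem_map (m := fun x : (σ → 𝕜) × (σ → 𝕜) => (x.2, q4 a P P P x.1,
    q4 a P P x.1 x.1, q4 a x.1 x.1 x.1 x.1, q4 a x.1 x.1 x.1 x.2, q4 a x.1 x.1 x.2 x.2)) hmem
  rw [hmap] at himg
  simp only [x₀, h1, h2, h4, g1, g2] at himg
  have hcont : Tendsto (fun r' : σ → 𝕜 => (r', (0:𝕜), (0:𝕜), (0:𝕜), (0:𝕜), (0:𝕜))) (𝓝 r)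
      (𝓝 (r, 0, 0, 0, 0, 0)) := (Continuous.prodMk_left _).tendsto r
  filter_upwards [hcont himg] with r' hr'
  obtain ⟨⟨q', r''⟩, ⟨hq', -⟩, he⟩ := hr'
  simp only [Prod.mk.injEq] at he
  obtain ⟨rfl, e1, e2, e3, e4, e5⟩ := he
  exact ⟨q', hq', e1, e2, e3, e4, e5⟩

/-- second open mapping -/
theorem open2 (q r : σ → 𝕜) (hg : LinearIndependent 𝕜 ![T 𝕜 a q q q, T 𝕜 a q q r, T 𝕜 a r r r])
    (g1 : q4 a q q q r = 0) (g2 : q4 a q q r r = 0) (g4 : q4 a r r r r = 0) {W : Set (σ → 𝕜)}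
    (hW : W ∈ 𝓝 r) :
    ∀ᶠ q' in 𝓝 q, ∃ r' ∈ W, q4 a q' q' q' r' = 0 ∧ q4 a q' q' r' r' = 0 ∧
      q4 a r' r' r' r' = 0 := by
  let x₀ : (σ → 𝕜) × (σ → 𝕜) := (q, r)
  have hf : HasStrictFDerivAt (fun x : (σ → 𝕜) × (σ → 𝕜) => x.1)
    (ContinuousLinearMap.fst 𝕜 (σ → 𝕜) (σ → 𝕜)) x₀ := hasStrictFDerivAt_fst
  have hs : HasStrictFDerivAt (fun x : (σ → 𝕜) × (σ → 𝕜) => x.2)
    (ContinuousLinearMap.snd 𝕜 (σ → 𝕜) (σ → 𝕜)) x₀ := hasStrictFDerivAt_snd
  obtain ⟨L4, hL4, hL4'⟩ := hs4 a hf hf hf hs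
  obtain ⟨L5, hL5, hL5'⟩ := hs4 a hf hf hs hs
  obtain ⟨L6, hL6, hL6'⟩ := hs4 a hs hs hs hs
  have hΨ := hf.prodMk (hL4.prodMk (hL5.prodMk hL6))
  have hsurj : ((ContinuousLinearMap.fst 𝕜 (σ → 𝕜) (σ → 𝕜)).prod
      (L4.prod (L5.prod L6))).range = ⊤ := by
    rw [LinearMap.range_eq_top]
    rintro ⟨δ, c4, c5, c6⟩
    obtain ⟨η, hη⟩ := onto_of_indep _ hg ![c4 - 3 * q4 a q q r δ,
      (c5 - 2 * q4 a q r r δ) / 2, c6 / 4]
    have e1 : q4 a q q q η = c4 - 3 * q4 a q q r δ := hη 0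
    have e2 : q4 a q q r η = (c5 - 2 * q4 a q r r δ) / 2 := hη 1
    have e3 : q4 a r r r η = c6 / 4 := hη 2
    refine ⟨(δ, η), ?_⟩
    have E4 : L4 (δ, η) = c4 := by
      rw [hL4']
      show q4 a δ q q r + q4 a q δ q r + q4 a q q δ r + q4 a q q q η = c4
      have k1 : q4 a δ q q r = q4 a q q r δ := q4_perm a (by ring)
      have k2 : q4 a q δ q r = q4 a q q r δ := q4_perm a (by ring)
      have k3 : q4 a q q δ r = q4 a q q r δ := q4_perm a (by ring)
      rw [k1, k2, k3, e1]; ring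
    have E5 : L5 (δ, η) = c5 := by
      rw [hL5']
      show q4 a δ q r r + q4 a q δ r r + q4 a q q η r + q4 a q q r η = c5
      have k1 : q4 a δ q r r = q4 a q r r δ := q4_perm a (by ring)
      have k2 : q4 a q δ r r = q4 a q r r δ := q4_perm a (by ring)
      have k3 : q4 a q q η r = q4 a q q r η := q4_perm a (by ring)
      rw [k1, k2, k3, e2]; ring
    have E6 : L6 (δ, η) = c6 := by
      rw [hL6']
      show q4 a η r r r + q4 a r η r r + q4 a r r η r + q4 a r r r η = c6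
      have k1 : q4 a η r r r = q4 a r r r η := q4_perm a (by ring)
      have k2 : q4 a r η r r = q4 a r r r η := q4_perm a (by ring)
      have k3 : q4 a r r η r = q4 a r r r η := q4_perm a (by ring)
      rw [k1, k2, k3, e3]; ring
    show (δ, L4 (δ, η), L5 (δ, η), L6 (δ, η)) = _
    rw [E4, E5, E6]
  have hmap := hΨ.map_nhds_eq_of_surj hsurj
  have hmem : Set.univ ×ˢ W ∈ 𝓝 x₀ := prod_mem_nhds univ_mem hW
  have himg := image_mem_map (m := fun x : (σ → 𝕜) × (σ → 𝕜) => (x.1,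
    q4 a x.1 x.1 x.1 x.2, q4 a x.1 x.1 x.2 x.2, q4 a x.2 x.2 x.2 x.2)) hmem
  rw [hmap] at himg
  simp only [x₀, g1, g2, g4] at himg
  have hcont : Tendsto (fun q' : σ → 𝕜 => (q', (0:𝕜), (0:𝕜), (0:𝕜))) (𝓝 q)
      (𝓝 (q, 0, 0, 0)) := (Continuous.prodMk_left _).tendsto q
  filter_upwards [hcont himg] with q' hq'
  obtain ⟨⟨q'', r'⟩, ⟨-, hr'⟩, he⟩ := hq'
  simp only [Prod.mk.injEq] at he
  obtain ⟨rfl, e1, e2, e3⟩ := he
  exact ⟨r', hr', e1, e2, e3⟩

end Near

end Pool.Agent.Work.QK.Op
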