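import Mathlib
import Pool.Agent.Work.MP_b62148_ag.QK.Defs
import Pool.Agent.Work.MP_b62148_ag.QK.Birch
import Pool.Agent.Work.MP_b62148_ag.QK.Open

/-!
The five linear forms at a generic pair of a point of the tangent section and a tangent direction
with contact three are linearly independent.
-/

namespace Pool.Agent.Work.QK

open MvPolynomial Pool.Agent.Work.PD6

namespace IndAux

section Ring

variable {K : Type*} [Field K] {σ : Type*} [Fintype σ] (a : (σ →₀ ℕ) → K)
  {R : Type*} [CommRing R] [Algebra K R]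

theorem der_q4 (D : Derivation K R R) (x y z w : σ → R) :
    D (q4 a x y z w) = q4 a (fun i => D (x i)) y z w + q4 a x (fun i => D (y i)) z w +
      q4 a x y (fun i => D (z i)) w + q4 a x y z (fun i => D (w i)) := by
  obtain ⟨D', h1, h2⟩ := exists_cD_ring D a
  have h : D' (ell x * ell y * ell z * ell w) =
      ell (fun i => D (x i)) * ell y * ell z * ell w +
      ell x * ell (fun i => D (y i)) * ell z * ell w +
      ell x * ell y * ell (fun i => D (z i)) * ell w +
      ell x * ell y * ell z * ell (fun i => D (w i)) := by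
    simp only [Derivation.leibniz, h1, smul_eq_mul]
    ring
  rw [q4, h2, h, map_add, map_add, map_add, q4, q4, q4, q4]

omit [Fintype σ] in
theorem der_bc (D : Derivation K R R) (p : σ → K) : (fun i => D (bc R p i)) = 0 := by
  funext i
  exact D.map_algebraMap (p i)

theorem q4_z1 (y z w : σ → R) : q4 a (0 : σ → R) y z w = 0 := by
  rw [q4, ell_zero, zero_mul, zero_mul, zero_mul, map_zero]

theorem q4_z2 (y z w : σ → R) : q4 a y (0 : σ → R) z w = 0 := by
  rw [Op.q4_s12, q4_z1]

theorem q4_z3 (y z w : σ → R) : q4 a y z (0 : σ → R) w = 0 := by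
  rw [Op.q4_s23, q4_z2]

theorem q4_z4 (y z w : σ → R) : q4 a y z w (0 : σ → R) = 0 := by
  rw [Op.q4_s34, q4_z3]

/-- the form as a linear map in the last argument -/
noncomputable def lin (x y z : σ → R) : (σ → R) →ₗ[R] R :=
  { toFun := fun w => q4 a x y z w
    map_add' := fun w w' => Op.q4_add a x y z w w'
    map_smul' := fun c w => Op.q4_smul a x y z w c }

end Ring

/-- a nonzero combination of derivations dual to independent elements which kills few elements -/
theorem exists_comb {K : Type*} [Field K] [CharZero K] {Ω : Type*} [Field Ω] [Algebra K Ω]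
    {ι : Type*} [Fintype ι] [DecidableEq ι] (x : ι → Ω) (hx : AlgebraicIndependent K x)
    {τ : Type*} [Fintype τ] (z : τ → Ω) (h : Fintype.card τ < Fintype.card ι) :
    ∃ D : Derivation K Ω Ω, (∀ k, D (z k) = 0) ∧ ∃ i, D (x i) ≠ 0 := by
  choose D1 hD1 using fun l : ι => exists_der (K := K) x hx (Pi.single l 1 : ι → Ω)
  let Φ : (ι → Ω) →ₗ[Ω] (τ → Ω) :=
    { toFun := fun t k => ∑ l, t l * D1 l (z k)
      map_add' := fun t t' => by
        funext k
        simp only [Pi.add_apply, add_mul, Finset.sum_add_distrib]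
      map_smul' := fun c t => by
        funext k
        simp only [Pi.smul_apply, smul_eq_mul, RingHom.id_apply, Finset.mul_sum, mul_assoc] }
  have hΦ : LinearMap.ker Φ ≠ ⊥ := by
    apply LinearMap.ker_ne_bot_of_finrank_lt
    rw [Module.finrank_fintype_fun_eq_card, Module.finrank_fintype_fun_eq_card]
    exact h
  obtain ⟨t, ht, ht0⟩ := (Submodule.ne_bot_iff _).mp hΦ
  have hsum : ∀ (s : Finset ι) (y : Ω), (∑ l ∈ s, t l • D1 l) y = ∑ l ∈ s, t l * D1 l y := by
    intro s y
    induction s using Finset.induction_on with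
    | empty => simp
    | insert l s hl ih =>
      rw [Finset.sum_insert hl, Finset.sum_insert hl, Derivation.add_apply, ih]
      rfl
  refine ⟨∑ l, t l • D1 l, fun k => ?_, ?_⟩
  · rw [hsum]
    exact congrFun (LinearMap.mem_ker.mp ht) k
  · obtain ⟨i, hi⟩ := Function.ne_iff.mp ht0
    refine ⟨i, ?_⟩
    rw [hsum]
    have h3 : ∀ l : ι, D1 l (x i) = (Pi.single l 1 : ι → Ω) i := fun l => hD1 l i
    simp only [h3]
    rw [Finset.sum_eq_single i (fun l _ hl => by
      rw [Pi.single_eq_of_ne (Ne.symm hl), mul_zero]) (fun h => absurd (Finset.mem_univ i) h),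
      Pi.single_eq_same, mul_one]
    exact hi

/-- a nonzero quadratic polynomial is nonzero at one of the three points zero, one, minus one -/
theorem exists_lam {Ω : Type*} [Field Ω] [CharZero Ω] (c0 c1 c2 : Ω)
    (h : ¬ (c0 = 0 ∧ c1 = 0 ∧ c2 = 0)) :
    ∃ l : Ω, (l = 0 ∨ l = 1 ∨ l = -1) ∧ c0 + c1 * l + c2 * l ^ 2 ≠ 0 := by
  by_contra hcon
  push Not at hcon
  have e0 := hcon 0 (Or.inl rfl)
  have e1 := hcon 1 (Or.inr (Or.inl rfl))
  have e2 := hcon (-1) (Or.inr (Or.inr rfl))
  have f0 : c0 = 0 := by simpa using e0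
  have f2 : 2 * c2 = 0 := by linear_combination e1 + e2 - 2 * f0
  have g2 : c2 = 0 := by
    rcases mul_eq_zero.mp f2 with h' | h'
    · exact absurd h' two_ne_zero
    · exact h'
  have g1 : c1 = 0 := by linear_combination e1 - f0 - g2
  exact h ⟨f0, g1, g2⟩

/-- a linear functional which vanishes on the images of a point under all derivations and on the
remaining basis vectors vanishes -/
theorem functional_zero {K : Type*} [Field K] [CharZero K] {Ω : Type*} [Field Ω] [Algebra K Ω]
    {ι : Type*} [Fintype ι] [DecidableEq ι] (x : ι → Ω) (J : Finset ι)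
    (hx : AlgebraicIndependent K fun j : J => x j) (M : (ι → Ω) →ₗ[Ω] Ω)
    (h1 : ∀ D : Derivation K Ω Ω, M (fun i => D (x i)) = 0)
    (h2 : ∀ k, k ∉ J → M (Pi.single k 1) = 0) : M = 0 := by
  have hM : ∀ z : ι → Ω, M z = ∑ k, z k * M (Pi.single k 1) := by
    intro z
    conv_lhs => rw [pi_eq_sum_univ' z]
    rw [map_sum]
    refine Finset.sum_congr rfl fun i _ => ?_
    rw [map_smul, smul_eq_mul]
  have hJ : ∀ k, k ∈ J → M (Pi.single k 1) = 0 := by
    intro k hk
    obtain ⟨D, hD⟩ := exists_der (K := K) (fun j : J => x j) hx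
      (Pi.single (⟨k, hk⟩ : J) 1 : J → Ω)
    have h3 := h1 D
    rw [hM] at h3
    rw [Finset.sum_eq_single k] at h3
    · have h4 := hD ⟨k, hk⟩
      rw [Pi.single_eq_same] at h4
      have h5 : D (x k) = 1 := h4
      rw [h5, one_mul] at h3
      exact h3
    · intro l _ hl
      by_cases hlJ : l ∈ J
      · have h4 := hD ⟨l, hlJ⟩
        have h5 : D (x l) = 0 := by
          rw [Pi.single_eq_of_ne (by
            intro h; exact hl (congrArg Subtype.val h))] at h4
          exact h4
        rw [h5, zero_mul]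
      · rw [h2 l hlJ, mul_zero]
    · intro h; exact absurd (Finset.mem_univ k) h
  apply LinearMap.ext
  intro z
  rw [hM, LinearMap.zero_apply]
  refine Finset.sum_eq_zero fun k _ => ?_
  by_cases hk : k ∈ J
  · rw [hJ k hk, mul_zero]
  · rw [h2 k hk, mul_zero]

end IndAux

open IndAux in
theorem indep5 {K : Type*} [Field K] [CharZero K] {Ω : Type*} [Field Ω] [Algebra K Ω]
    {σ : Type*} [Fintype σ] [DecidableEq σ] (hN : 10 ≤ Fintype.card σ)
    {F : MvPolynomial σ K} (hs : PD.SmoothForm F) {a : (σ →₀ ℕ) → K} (ha : IsPol 4 F a)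
    (p : σ → K) (q v : σ → Ω)
    (h1 : q4 a (bc Ω p) (bc Ω p) (bc Ω p) q = 0) (h2 : q4 a (bc Ω p) (bc Ω p) q q = 0)
    (h3 : q4 a q q q q = 0) (h4 : q4 a q q q v = 0) (h5 : q4 a q q v v = 0)
    (hpq : ∀ α β : Ω, (∀ u, α * q4 a (bc Ω p) (bc Ω p) (bc Ω p) u +
      β * q4 a (bc Ω p) (bc Ω p) q u = 0) → α = 0 ∧ β = 0)
    (J : Finset (σ ⊕ σ)) (hJ : J.card + 5 = 2 * Fintype.card σ)
    (halg : AlgebraicIndependent K fun j : J => Sum.elim q v (j : σ ⊕ σ)) :
    (∀ c : Fin 5 → Ω, (∀ u, c 0 * q4 a (bc Ω p) (bc Ω p) (bc Ω p) u +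
      c 1 * q4 a (bc Ω p) (bc Ω p) q u + c 2 * q4 a q q q u +
      c 3 * q4 a q q v u + c 4 * q4 a q v v u = 0) → c = 0) ∧ q4 a q v v v ≠ 0 := by
  have hchar : CharZero Ω := charZero_of_injective_algebraMap (algebraMap K Ω).injective
  have part1 : ∀ c : Fin 5 → Ω, (∀ u, c 0 * q4 a (bc Ω p) (bc Ω p) (bc Ω p) u +
      c 1 * q4 a (bc Ω p) (bc Ω p) q u + c 2 * q4 a q q q u +
      c 3 * q4 a q q v u + c 4 * q4 a q v v u = 0) → c = 0 := by
    intro c hc
    by_contra hc0
    have hne : ∃ i0 : Fin 5, (i0 = 2 ∨ i0 = 3 ∨ i0 = 4) ∧ c i0 ≠ 0 := by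
      by_contra hcon
      push Not at hcon
      have e2 := hcon 2 (Or.inl rfl)
      have e3 := hcon 3 (Or.inr (Or.inl rfl))
      have e4 := hcon 4 (Or.inr (Or.inr rfl))
      obtain ⟨e0, e1⟩ := hpq (c 0) (c 1) (fun u => by
        have := hc u
        rw [e2, e3, e4] at this
        linear_combination this)
      apply hc0
      funext i
      fin_cases i
      · exact e0
      · exact e1
      · exact e2
      · exact e3
      · exact e4
    obtain ⟨i0, hi0, hci⟩ := hne
    -- normalise
    let e : Fin 5 → Ω := fun i => c i / c i0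
    have he0 : e i0 = 1 := div_self hci
    have he : ∀ u, e 0 * q4 a (bc Ω p) (bc Ω p) (bc Ω p) u +
        e 1 * q4 a (bc Ω p) (bc Ω p) q u + e 2 * q4 a q q q u +
        e 3 * q4 a q q v u + e 4 * q4 a q v v u = 0 := by
      intro u
      have := hc u
      simp only [e]
      field_simp
      linear_combination this
    obtain ⟨lam, hlam, hlam'⟩ := exists_lam (e 2) (e 3) (e 4) (by
      rintro ⟨f2, f3, f4⟩
      rcases hi0 with h | h | h
      · rw [h, f2] at he0; exact zero_ne_one he0
      · rw [h, f3] at he0; exact zero_ne_one he0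
      · rw [h, f4] at he0; exact zero_ne_one he0)
    -- a derivation
    obtain ⟨D, hD, ⟨j, hj⟩⟩ := exists_comb (K := K)
      (fun j : J => Sum.elim q v (j : σ ⊕ σ)) halg
      (Sum.elim (fun i => v i - lam * q i) (fun k : {k : Fin 5 // k ≠ i0} => e k) :
        σ ⊕ {k : Fin 5 // k ≠ i0} → Ω) (by
        have hcard : Fintype.card {k : Fin 5 // k ≠ i0} = 4 := by
          rw [Fintype.card_subtype_compl, Fintype.card_fin, Fintype.card_subtype_eq]
        rw [Fintype.card_sum, Fintype.card_coe, hcard]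
        omega)
    have hDe : ∀ k, D (e k) = 0 := by
      intro k
      by_cases hk : k = i0
      · rw [hk, he0]; exact D.map_one_eq_zero
      · exact hD (Sum.inr ⟨k, hk⟩)
    have hDl : D lam = 0 := by
      rcases hlam with h | h | h
      · rw [h, map_zero]
      · rw [h]; exact D.map_one_eq_zero
      · rw [h, map_neg, D.map_one_eq_zero, neg_zero]
    have hDw : ∀ i, D (v i - lam * q i) = 0 := fun i => hD (Sum.inl i)
    have hDq : ∀ i, D (q i) = 0 := by
      refine const_of_rel hs ha D q (fun i => v i - lam * q i) (bc Ω p) (e 2) (e 3) (e 4)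
        (-(e 0)) (-(e 1)) lam hDw (fun i => D.map_algebraMap (p i)) (hDe 2) (hDe 3) (hDe 4)
        (by rw [map_neg, hDe, neg_zero]) (by rw [map_neg, hDe, neg_zero]) hDl hlam' ?_
      intro u
      have hv : lam • q + (fun i => v i - lam * q i) = v := by
        funext i
        simp
      rw [hv]
      linear_combination he u
    have hDv : ∀ i, D (v i) = 0 := by
      intro i
      have := hDw i
      rw [map_sub, Derivation.leibniz, hDq, hDl] at this
      simpa using this
    apply hj
    rcases hj' : (j : σ ⊕ σ) with i | i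
    · exact hDq i
    · exact hDv i
  refine ⟨part1, fun h6 => ?_⟩
  -- six functionals
  let P := bc Ω p
  let X : (σ ⊕ σ → Ω) →ₗ[Ω] (σ → Ω) := LinearMap.funLeft Ω Ω Sum.inl
  let Y : (σ ⊕ σ → Ω) →ₗ[Ω] (σ → Ω) := LinearMap.funLeft Ω Ω Sum.inr
  let L : Fin 6 → (σ ⊕ σ → Ω) →ₗ[Ω] Ω :=
    ![(lin a P P P).comp X, (lin a P P q).comp X, (lin a q q q).comp X,
      (3 : Ω) • (lin a q q v).comp X + (lin a q q q).comp Y,
      (lin a q v v).comp X + (lin a q q v).comp Y,
      (lin a v v v).comp X + (3 : Ω) • (lin a q v v).comp Y]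
  have hbcD : ∀ D : Derivation K Ω Ω, (fun i => D (P i)) = 0 := fun D => der_bc D p
  have hLD : ∀ (D : Derivation K Ω Ω) (i : Fin 6),
      L i (fun k => D (Sum.elim q v k)) = 0 := by
    intro D i
    have hX : X (fun k => D (Sum.elim q v k)) = fun k => D (q k) := rfl
    have hY : Y (fun k => D (Sum.elim q v k)) = fun k => D (v k) := rfl
    have d1 := der_q4 a D P P P q
    have d2 := der_q4 a D P P q q
    have d3 := der_q4 a D q q q q
    have d4 := der_q4 a D q q q v
    have d5 := der_q4 a D q q v v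
    have d6 := der_q4 a D q v v v
    rw [h1, map_zero, hbcD, q4_z1, q4_z2, q4_z3] at d1
    rw [h2, map_zero, hbcD, q4_z1, q4_z2] at d2
    rw [h3, map_zero] at d3
    rw [h4, map_zero] at d4
    rw [h5, map_zero] at d5
    rw [h6, map_zero] at d6
    set q' : σ → Ω := fun k => D (q k)
    set v' : σ → Ω := fun k => D (v k)
    fin_cases i
    · show q4 a P P P (X _) = 0
      rw [hX]
      linear_combination -d1
    · show q4 a P P q (X _) = 0
      rw [hX]
      have e1 : q4 a P P q' q = q4 a P P q q' := Op.q4_s34 a P P q' q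
      rw [e1] at d2
      have e2 : (2 : Ω) * q4 a P P q q' = 0 := by linear_combination -d2
      exact (mul_eq_zero.mp e2).resolve_left two_ne_zero
    · show q4 a q q q (X _) = 0
      rw [hX]
      have e1 : q4 a q' q q q = q4 a q q q q' := Op.q4_perm a (by ring)
      have e2 : q4 a q q' q q = q4 a q q q q' := Op.q4_perm a (by ring)
      have e3 : q4 a q q q' q = q4 a q q q q' := Op.q4_perm a (by ring)
      rw [e1, e2, e3] at d3
      have e4 : (4 : Ω) * q4 a q q q q' = 0 := by linear_combination -d3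
      have e5 : (4 : Ω) ≠ 0 := by norm_num
      exact (mul_eq_zero.mp e4).resolve_left e5
    · show (3 : Ω) * q4 a q q v (X _) + q4 a q q q (Y _) = 0
      rw [hX, hY]
      have e1 : q4 a q' q q v = q4 a q q v q' := Op.q4_perm a (by ring)
      have e2 : q4 a q q' q v = q4 a q q v q' := Op.q4_perm a (by ring)
      have e3 : q4 a q q q' v = q4 a q q v q' := Op.q4_perm a (by ring)
      rw [e1, e2, e3] at d4
      linear_combination -d4
    · show q4 a q v v (X _) + q4 a q q v (Y _) = 0
      rw [hX, hY]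
      have e1 : q4 a q' q v v = q4 a q v v q' := Op.q4_perm a (by ring)
      have e2 : q4 a q q' v v = q4 a q v v q' := Op.q4_perm a (by ring)
      have e3 : q4 a q q v' v = q4 a q q v v' := Op.q4_perm a (by ring)
      rw [e1, e2, e3] at d5
      have e4 : (2 : Ω) * (q4 a q v v q' + q4 a q q v v') = 0 := by linear_combination -d5
      exact (mul_eq_zero.mp e4).resolve_left two_ne_zero
    · show q4 a v v v (X _) + (3 : Ω) * q4 a q v v (Y _) = 0
      rw [hX, hY]
      have e1 : q4 a q' v v v = q4 a v v v q' := Op.q4_perm a (by ring)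
      have e2 : q4 a q v' v v = q4 a q v v v' := Op.q4_perm a (by ring)
      have e3 : q4 a q v v' v = q4 a q v v v' := Op.q4_perm a (by ring)
      rw [e1, e2, e3] at d6
      linear_combination -d6
  -- a combination vanishing on the remaining basis vectors
  let Ψ : (Fin 6 → Ω) →ₗ[Ω] ({k : σ ⊕ σ // k ∉ J} → Ω) :=
    { toFun := fun l k => (∑ i, l i • L i) (Pi.single (k : σ ⊕ σ) 1)
      map_add' := fun l l' => by
        funext k
        simp only [Pi.add_apply, add_smul, Finset.sum_add_distrib, LinearMap.add_apply]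
      map_smul' := fun c l => by
        funext k
        simp only [Pi.smul_apply, smul_eq_mul, RingHom.id_apply, mul_smul, ← Finset.smul_sum,
          LinearMap.smul_apply] }
  have hΨ : LinearMap.ker Ψ ≠ ⊥ := by
    apply LinearMap.ker_ne_bot_of_finrank_lt
    rw [Module.finrank_fintype_fun_eq_card, Module.finrank_fintype_fun_eq_card,
      Fintype.card_fin, Fintype.card_subtype_compl, Fintype.card_sum, Fintype.card_coe]
    omega
  obtain ⟨l, hl, hl0⟩ := (Submodule.ne_bot_iff _).mp hΨ
  have hM : (∑ i, l i • L i) = 0 := by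
    refine functional_zero (K := K) (Sum.elim q v) J halg _ (fun D => ?_) (fun k hk => ?_)
    · rw [LinearMap.sum_apply]
      refine Finset.sum_eq_zero fun i _ => ?_
      rw [LinearMap.smul_apply, hLD, smul_zero]
    · exact congrFun (LinearMap.mem_ker.mp hl) ⟨k, hk⟩
  have hval : ∀ x y : σ → Ω, l 0 * q4 a P P P x + l 1 * q4 a P P q x + l 2 * q4 a q q q x +
      l 3 * (3 * q4 a q q v x + q4 a q q q y) + l 4 * (q4 a q v v x + q4 a q q v y) +
      l 5 * (q4 a v v v x + 3 * q4 a q v v y) = 0 := by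
    intro x y
    have h7 := congrArg (fun M : (σ ⊕ σ → Ω) →ₗ[Ω] Ω => M (Sum.elim x y)) hM
    simp only [LinearMap.sum_apply, Fin.sum_univ_six, LinearMap.smul_apply, smul_eq_mul,
      LinearMap.zero_apply] at h7
    exact h7
  have hy := part1 ![0, 0, l 3, l 4, 3 * l 5] (fun u => by
    have h8 := hval 0 u
    simp only [q4_z4] at h8
    show 0 * q4 a (bc Ω p) (bc Ω p) (bc Ω p) u +
      0 * q4 a (bc Ω p) (bc Ω p) q u + l 3 * q4 a q q q u +
      l 4 * q4 a q q v u + (3 * l 5) * q4 a q v v u = 0
    linear_combination h8)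
  have hl3 : l 3 = 0 := congrFun hy 2
  have hl4 : l 4 = 0 := congrFun hy 3
  have hl5 : l 5 = 0 := by
    have h9 : 3 * l 5 = 0 := congrFun hy 4
    exact (mul_eq_zero.mp h9).resolve_left three_ne_zero
  have hx := part1 ![l 0, l 1, l 2, 0, 0] (fun u => by
    have h8 := hval u 0
    rw [hl3, hl4, hl5] at h8
    show l 0 * q4 a (bc Ω p) (bc Ω p) (bc Ω p) u +
      l 1 * q4 a (bc Ω p) (bc Ω p) q u + l 2 * q4 a q q q u +
      0 * q4 a q q v u + 0 * q4 a q v v u = 0
    linear_combination h8)
  have hl00 : l 0 = 0 := congrFun hx 0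
  have hl1 : l 1 = 0 := congrFun hx 1
  have hl2 : l 2 = 0 := congrFun hx 2
  apply hl0
  funext i
  fin_cases i
  · exact hl00
  · exact hl1
  · exact hl2
  · exact hl3
  · exact hl4
  · exact hl5

end Pool.Agent.Work.QK
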