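import Mathlib
import Pool.Agent.Work.MP_b62148_ag.QK.Defs
import Pool.Agent.Work.MP_b62148_ag.Meyer.Form

/-!
The module Form: isotropic vectors over a field near an isotropic vector over a larger field,
from the isotropy of diagonal forms.
-/

namespace Pool.Agent.Work.QK

open Module Matrix

namespace Form

section

variable {K : Type*} [Field K] {σ : Type*} [Fintype σ] (M : Matrix σ σ K)

section R

variable {R : Type*} [CommRing R] [Algebra K R]

theorem mb_add_left (x x' y : σ → R) : mb M (x + x') y = mb M x y + mb M x' y := by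
  simp only [mb, Pi.add_apply, ← Finset.sum_add_distrib]
  refine Finset.sum_congr rfl fun i _ => Finset.sum_congr rfl fun j _ => ?_
  ring

theorem mb_smul_left (c : R) (x y : σ → R) : mb M (c • x) y = c * mb M x y := by
  simp only [mb, Pi.smul_apply, smul_eq_mul, Finset.mul_sum]
  refine Finset.sum_congr rfl fun i _ => Finset.sum_congr rfl fun j _ => ?_
  ring

variable {M} in
theorem mb_comm (hM : M.IsSymm) (x y : σ → R) : mb M x y = mb M y x := by
  unfold mb
  rw [Finset.sum_comm]
  refine Finset.sum_congr rfl fun i _ => Finset.sum_congr rfl fun j _ => ?_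
  rw [hM.apply i j]
  ring

/-- as a bilinear map -/
noncomputable def bl (R : Type*) [CommRing R] [Algebra K R] : LinearMap.BilinForm R (σ → R) :=
  LinearMap.mk₂ R (fun x y => mb M x y) (mb_add_left M) (mb_smul_left M)
    (by
      intro x y y'
      simp only [mb, Pi.add_apply, ← Finset.sum_add_distrib]
      refine Finset.sum_congr rfl fun i _ => Finset.sum_congr rfl fun j _ => ?_
      ring)
    (by
      intro c x y
      simp only [mb, Pi.smul_apply, smul_eq_mul, Finset.mul_sum]
      refine Finset.sum_congr rfl fun i _ => Finset.sum_congr rfl fun j _ => ?_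
      ring)

theorem bl_apply (x y : σ → R) : bl M R x y = mb M x y := rfl

/-- the base change as a linear map -/
def cst (R : Type*) [CommRing R] [Algebra K R] : (σ → K) →ₗ[K] (σ → R) where
  toFun x i := algebraMap K R (x i)
  map_add' x y := by ext i; simp
  map_smul' c x := by ext i; simp [Algebra.smul_def]

omit [Fintype σ] in
theorem cst_apply (x : σ → K) : cst R x = fun i => algebraMap K R (x i) := rfl

theorem bl_cst (x y : σ → K) : bl M R (cst R x) (cst R y) = algebraMap K R (bl M K x y) := by
  simp [bl_apply, mb, cst_apply]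

end R

end

theorem exists_isotropic {K : Type*} [Field K] [CharZero K] {R : Type*} [Field R] [Algebra K R]
    {σ : Type*} [Fintype σ] {m : ℕ} (hd : DiagIso K m) (M : Matrix σ σ K) (hM : M.IsSymm)
    (hr : m + 2 ≤ M.rank) (p : σ → K) (hp0 : ∃ u : σ → K, mb M p u ≠ 0)
    (x : σ → R) (hx : mb M (bc R p) x = 0)
    (hns : ∃ u : σ → R, mb M (bc R p) u = 0 ∧ mb M x u ≠ 0) :
    ∃ y : σ → K, mb M p y = 0 ∧ mb M y y = 0 ∧ mb M (bc R y) x ≠ 0 := by
  classical
  obtain ⟨e, he⟩ := hp0
  set b := bl M K with hb
  set bR := bl M R with hbR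
  have hinj : Function.Injective (algebraMap K R) := (algebraMap K R).injective
  have hsym : ∀ y z, b y z = b z y := fun y z => mb_comm hM y z
  have hsymR : ∀ y z, bR y z = bR z y := fun y z => mb_comm hM y z
  have he' : b p e ≠ 0 := he
  let T : Submodule K (σ → K) := LinearMap.ker (b p)
  have hT : ∀ y, y ∈ T ↔ b p y = 0 := fun y => LinearMap.mem_ker
  let bT : LinearMap.BilinForm K T := LinearMap.BilinForm.restrict b T
  have hbT : ∀ y z : T, bT y z = b y z := fun y z => rfl
  have hbTs : LinearMap.IsSymm bT := ⟨fun y z => by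
    simp only [hbT]; exact hsym _ _⟩
  have : Invertible (2 : K) := invertibleOfNonzero two_ne_zero
  obtain ⟨n, v, hv⟩ : ∃ (n : ℕ) (v : Basis (Fin n) K T), ∀ i j, i ≠ j → bT (v i) (v j) = 0 := by
    obtain ⟨v0, hv0⟩ := LinearMap.BilinForm.exists_orthogonal_basis hbTs
    exact ⟨_, v0, fun i j h => hv0 h⟩
  have hvo : ∀ i j, i ≠ j → b (v i) (v j) = 0 := fun i j hij => hv i j hij
  -- expansion of vectors over K
  have hexp : ∀ y ∈ T, ∃ c : Fin n → K, y = ∑ i, c i • (v i : σ → K) := by
    intro y hy
    refine ⟨fun i => v.repr ⟨y, hy⟩ i, ?_⟩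
    have h1 := congrArg (fun z : T => (z : σ → K)) (v.sum_repr ⟨y, hy⟩)
    simp only at h1
    rw [AddSubmonoidClass.coe_finsetSum] at h1
    exact h1.symm
  set J : Finset (Fin n) := Finset.univ.filter (fun i => b (v i) (v i) ≠ 0) with hJ
  -- at least m nonzero diagonal entries
  have hJ5 : m ≤ J.card := by
    let Φ : (σ → K) →ₗ[K] ((J → K) × K × K) :=
      (LinearMap.pi (fun i : J => b (v i : σ → K))).prod ((b p).prod (b e))
    have hker : LinearMap.ker Φ ≤ LinearMap.ker M.mulVecLin := by
      intro y hy
      rw [LinearMap.mem_ker] at hy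
      have h1 : ∀ i : J, b (v i : σ → K) y = 0 := by
        intro i
        have := congrArg (fun t => t.1 i) hy
        simpa [Φ] using this
      have h2 : b p y = 0 := by
        have := congrArg (fun t => t.2.1) hy
        simpa [Φ] using this
      have h3 : b e y = 0 := by
        have := congrArg (fun t => t.2.2) hy
        simpa [Φ] using this
      obtain ⟨c, hc⟩ := hexp y ((hT y).mpr h2)
      have h4 : ∀ i, b (v i : σ → K) y = 0 := by
        intro i
        by_cases hi : b (v i : σ → K) (v i) = 0
        · rw [hc, map_sum]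
          apply Finset.sum_eq_zero
          intro j _
          rw [map_smul]
          by_cases hij : i = j
          · subst hij; rw [hi, smul_zero]
          · rw [hvo i j hij, smul_zero]
        · exact h1 ⟨i, by rw [hJ]; simp [hi]⟩
      have h5 : ∀ z ∈ T, b z y = 0 := by
        intro z hz
        obtain ⟨d, hd⟩ := hexp z hz
        rw [hd, map_sum, LinearMap.sum_apply]
        apply Finset.sum_eq_zero
        intro j _
        rw [map_smul, LinearMap.smul_apply, h4, smul_zero]
      have h6 : ∀ z, b z y = 0 := by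
        intro z
        have h7 : z - (b p z / b p e) • e ∈ T := by
          rw [hT, map_sub, map_smul, smul_eq_mul, div_mul_cancel₀ _ he', sub_self]
        have h8 : z = (z - (b p z / b p e) • e) + (b p z / b p e) • e := by abel
        rw [h8, map_add, LinearMap.add_apply, h5 _ h7, map_smul, LinearMap.smul_apply, h3,
          smul_zero, add_zero]
      rw [LinearMap.mem_ker, Matrix.mulVecLin_apply]
      funext i
      have h9 := h6 (Pi.single i 1)
      have h10 : b (Pi.single i 1) y = (M *ᵥ y) i := by
        change mb M _ _ = _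
        rw [mb, Finset.sum_eq_single i]
        · simp [Matrix.mulVec, dotProduct]
        · intro j _ hji
          simp [hji]
        · simp
      rw [← h10, h9]
      rfl
    have h1 := LinearMap.finrank_range_add_finrank_ker Φ
    have h2 := LinearMap.finrank_range_add_finrank_ker M.mulVecLin
    have h3 : finrank K (LinearMap.ker Φ) ≤ finrank K (LinearMap.ker M.mulVecLin) :=
      Submodule.finrank_mono hker
    have h4 : finrank K (LinearMap.range Φ) ≤ J.card + 2 := by
      refine (Submodule.finrank_le _).trans ?_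
      simp [Module.finrank_prod]
    have h5 : M.rank = finrank K (LinearMap.range M.mulVecLin) := rfl
    omega
  -- expansion of vectors over R
  have hexpR : ∀ y : σ → R, bR (cst R p) y = 0 →
      ∃ c : Fin n → R, y = ∑ i, c i • cst R (v i : σ → K) := by
    intro y hy
    have h1 : ∀ j : σ, ∃ r : Fin n → K,
        (Pi.single j 1 : σ → K) - (b p (Pi.single j 1) / b p e) • e = ∑ i, r i • (v i : σ → K) := by
      intro j
      apply hexp
      rw [hT, map_sub, map_smul, smul_eq_mul, div_mul_cancel₀ _ he', sub_self]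
    choose r hr using h1
    refine ⟨fun i => ∑ j, y j * algebraMap K R (r j i), ?_⟩
    have h2 : ∀ j, cst R (Pi.single j 1 : σ → K) =
        (algebraMap K R (b p (Pi.single j 1)) / algebraMap K R (b p e)) • cst R e +
          ∑ i, (algebraMap K R (r j i)) • cst R (v i : σ → K) := by
      intro j
      have h3 : (Pi.single j 1 : σ → K) =
          (b p (Pi.single j 1) / b p e) • e + ∑ i, r j i • (v i : σ → K) := by
        rw [← hr j]; abel
      conv_lhs => rw [h3]
      funext k
      simp only [cst_apply, Finset.sum_apply, Pi.add_apply, Pi.smul_apply,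
        smul_eq_mul, map_add, map_mul, map_sum, map_div₀]
    have h5 : y = ∑ j, y j • cst R (Pi.single j 1 : σ → K) := by
      funext k
      simp only [cst_apply, Finset.sum_apply, Pi.smul_apply, smul_eq_mul]
      rw [Finset.sum_eq_single k]
      · simp
      · intro j _ hjk
        simp [Ne.symm hjk]
      · simp
    have h6 : ∑ j, y j * algebraMap K R (b p (Pi.single j 1)) = 0 := by
      rw [h5, map_sum] at hy
      rw [← hy]
      apply Finset.sum_congr rfl
      intro j _
      rw [map_smul, hbR, bl_cst, smul_eq_mul]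
    calc y = ∑ j, y j • cst R (Pi.single j 1 : σ → K) := h5
      _ = ∑ j, y j • ((algebraMap K R (b p (Pi.single j 1)) / algebraMap K R (b p e)) • cst R e +
            ∑ i, (algebraMap K R (r j i)) • cst R (v i : σ → K)) := by
          apply Finset.sum_congr rfl; intro j _; rw [← h2 j]
      _ = (∑ j, y j * algebraMap K R (b p (Pi.single j 1))) •
              ((1 / algebraMap K R (b p e)) • cst R e) +
            ∑ i, (∑ j, y j * algebraMap K R (r j i)) • cst R (v i : σ → K) := by
          simp only [smul_add, Finset.sum_add_distrib, Finset.smul_sum, smul_smul, Finset.sum_smul]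
          congr 1
          · rw [← Finset.sum_smul, Finset.sum_mul]
            congr 1
            apply Finset.sum_congr rfl; intro j _; ring
          · rw [Finset.sum_comm]
      _ = ∑ i, (∑ j, y j * algebraMap K R (r j i)) • cst R (v i : σ → K) := by
          rw [h6, zero_smul, zero_add]
  obtain ⟨c, hc⟩ := hexpR x hx
  -- the values of the form
  have hval : ∀ i, bR (cst R (v i : σ → K)) x = c i * algebraMap K R (b (v i) (v i)) := by
    intro i
    rw [hc, map_sum, Finset.sum_eq_single i]
    · rw [map_smul, hbR, bl_cst, smul_eq_mul]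
    · intro j _ hj
      rw [map_smul, hbR, bl_cst, ← hb, hvo i j (Ne.symm hj)]
      simp
    · simp
  obtain ⟨i0, hi0⟩ : ∃ i, c i * algebraMap K R (b (v i) (v i)) ≠ 0 := by
    by_contra hcon
    push Not at hcon
    obtain ⟨u, hu1, hu2⟩ := hns
    apply hu2
    obtain ⟨d, hd⟩ := hexpR u hu1
    change bR x u = 0
    rw [hsymR, hd, map_sum, LinearMap.sum_apply]
    apply Finset.sum_eq_zero
    intro i _
    rw [map_smul, LinearMap.smul_apply, hval, hcon i, smul_zero]
  -- m indices
  obtain ⟨J', hJ'2, hJ'3⟩ : ∃ J' : Finset (Fin n), J' ⊆ J ∧ J'.card = m :=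
    Finset.exists_subset_card_eq hJ5
  let f : Fin m ≃ J' := (finCongr hJ'3.symm).trans J'.equivFin.symm
  obtain ⟨z, hz0, hz⟩ := hd (fun k => b (v (f k).1) (v (f k).1))
  obtain ⟨k0, hk0⟩ : ∃ k, z k ≠ 0 := by
    by_contra hcon
    push Not at hcon
    exact hz0 (funext hcon)
  let y1 : σ → K := ∑ k, z k • (v (f k).1 : σ → K)
  have hy1T : b p y1 = 0 := by
    rw [← hT]
    exact Submodule.sum_mem _ (fun k _ => T.smul_mem _ (v (f k).1).2)
  have hfk : ∀ k l, k ≠ l → b (v (f k).1) (v (f l).1) = 0 := by
    intro k l hkl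
    apply hvo
    intro h
    apply hkl
    exact f.injective (Subtype.ext h)
  have hy1v : ∀ k, b y1 (v (f k).1) = z k * b (v (f k).1) (v (f k).1) := by
    intro k
    rw [map_sum, LinearMap.sum_apply, Finset.sum_eq_single k]
    · rw [map_smul, LinearMap.smul_apply, smul_eq_mul]
    · intro l _ hl
      rw [map_smul, LinearMap.smul_apply, hfk l k hl, smul_zero]
    · simp
  have hy1y1 : b y1 y1 = 0 := by
    have h1 : b y1 y1 = ∑ k, z k • b y1 (v (f k).1) := by
      change b y1 (∑ k, z k • (v (f k).1 : σ → K)) = _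
      rw [map_sum]
      simp only [map_smul]
    rw [h1, ← hz]
    apply Finset.sum_congr rfl
    intro k _
    rw [hy1v, smul_eq_mul]
    ring
  have hBk0 : b (v (f k0).1) (v (f k0).1) ≠ 0 := by
    have := hJ'2 (f k0).2
    rw [hJ, Finset.mem_filter] at this
    exact this.2
  by_cases hcase : bR (cst R y1) x = 0
  · -- reflection
    obtain ⟨u, huT, hu1, hu2⟩ : ∃ u : σ → K, b p u = 0 ∧ b y1 u ≠ 0 ∧ bR (cst R u) x ≠ 0 := by
      have h0 : b y1 (v (f k0).1) ≠ 0 := by
        rw [hy1v]; exact mul_ne_zero hk0 hBk0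
      have h0T : b p (v (f k0).1) = 0 := (hT _).mp (v (f k0).1).2
      have h1 : bR (cst R (v i0 : σ → K)) x ≠ 0 := by rw [hval]; exact hi0
      have h1T : b p (v i0) = 0 := (hT _).mp (v i0).2
      by_cases h2 : bR (cst R (v (f k0).1 : σ → K)) x = 0
      · by_cases h3 : b y1 (v i0) = 0
        · refine ⟨(v (f k0).1 : σ → K) + v i0, ?_, ?_, ?_⟩
          · rw [map_add, h0T, h1T, add_zero]
          · rw [map_add, h3, add_zero]; exact h0
          · rw [map_add, map_add, LinearMap.add_apply, h2, zero_add]; exact h1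
        · exact ⟨v i0, h1T, h3, h1⟩
      · exact ⟨v (f k0).1, h0T, h0, h2⟩
    refine ⟨b u u • y1 - (2 * b y1 u) • u, ?_, ?_, ?_⟩
    · change b p _ = 0
      rw [map_sub, map_smul, map_smul, hy1T, huT, smul_zero, smul_zero, sub_zero]
    · change b _ _ = 0
      simp only [map_sub, map_smul, LinearMap.sub_apply, LinearMap.smul_apply, smul_eq_mul, hy1y1,
        hsym u y1]
      ring
    · change bR (cst R (b u u • y1 - (2 * b y1 u) • u)) x ≠ 0
      have h1 : cst R (b u u • y1 - (2 * b y1 u) • u) =
          (algebraMap K R (b u u)) • cst R y1 - (algebraMap K R (2 * b y1 u)) • cst R u := by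
        funext k
        simp only [cst_apply, Pi.sub_apply, Pi.smul_apply, smul_eq_mul, map_sub, map_mul]
      rw [h1, map_sub, LinearMap.sub_apply, map_smul, LinearMap.smul_apply, hcase, smul_zero,
        zero_sub, map_smul, LinearMap.smul_apply, smul_eq_mul]
      refine neg_ne_zero.mpr (mul_ne_zero ?_ hu2)
      have : (2 * b y1 u : K) ≠ 0 := mul_ne_zero two_ne_zero hu1
      rw [map_ne_zero_iff _ hinj]
      exact this
  · exact ⟨y1, hy1T, hy1y1, hcase⟩

end Form

theorem isoProp_of_diag {K : Type*} [Field K] [CharZero K] {R : Type*} [Field R] [Algebra K R]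
    {σ : Type*} [Fintype σ] {m : ℕ} (h : DiagIso K m) : IsoProp K R σ (m + 2) :=
  fun M hM hr p _ hp0 x hx _ hns => Form.exists_isotropic h M hM hr p hp0 x hx hns

theorem isoProp_rat
    (meyer5 : ∀ (a : Fin 5 → ℚ), (∀ i, a i ≠ 0) → (∃ i, 0 < a i) → (∃ i, a i < 0) →
      ∃ x : Fin 5 → ℚ, x ≠ 0 ∧ ∑ i, a i * x i ^ 2 = 0) {σ : Type} [Fintype σ] :
    IsoProp ℚ ℝ σ 7 := by
  intro M hM hr p hp hp0 x hx hxx hns
  have e1 : ∀ (q : σ → ℚ), bc ℝ q = fun i => (q i : ℝ) := by
    intro q; funext i; simp [bc]
  have e2 : ∀ y z : σ → ℚ, MY.mb M y z = mb M y z := fun y z => rfl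
  have e3 : ∀ y z : σ → ℝ, MY.mb M y z = mb M y z := fun y z => rfl
  obtain ⟨y, h1, h2, h3⟩ := MY.exists_isotropic_of_meyer meyer5 M hM hr p hp hp0 x
    (by rw [← e1]; exact hx) hxx (by
      obtain ⟨u, hu1, hu2⟩ := hns
      exact ⟨u, by rw [← e1]; exact hu1, hu2⟩)
  exact ⟨y, h1, h2, by rw [e1]; exact h3⟩

end Pool.Agent.Work.QK
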