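import Mathlib
import Pool.Agent.Work.MP_b62148_ag.QK.Open
import Pool.Agent.Work.MP_b62148_ag.QK.Form

/-!
Module Approx: approximation of zeros of a quartic form by rational zeros.
-/

set_option maxSynthPendingDepth 3

namespace Pool.Agent.Work.QK

open MvPolynomial Pool.Agent.Work.PD6 Filter Topology Op

variable {K : Type*} [Field K] {𝕜 : Type*} [RCLike 𝕜] [Algebra K 𝕜] {σ : Type*} [Fintype σ]

section Form

variable (a : (σ →₀ ℕ) → K)

/-- expansion in the last argument -/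
theorem q4_last [DecidableEq σ] {R : Type*} [CommRing R] [Algebra K R] (x y z w : σ → R) :
    q4 a x y z w = ∑ l, w l * q4 a x y z (Pi.single l 1) := by
  rw [q4, Lf_ell_eq_sum]
  exact Finset.sum_congr rfl fun j _ => mul_comm _ _

theorem mb_hm [DecidableEq σ] (p : σ → K) {R : Type*} [CommRing R] [Algebra K R] (x y : σ → R) :
    mb (hm a p) x y = q4 a (bc R p) (bc R p) x y := by
  have h1 : ∀ i j : σ, algebraMap K R (hm a p i j) =
      q4 a (bc R p) (bc R p) (Pi.single i 1) (Pi.single j 1) := by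
    intro i j
    have h := map_Lf a (Algebra.ofId K R) (ell p * ell p * ell (Pi.single i 1) *
      ell (Pi.single j 1))
    simp only [map_mul, map_ell] at h
    have h2 : ∀ k : σ, (fun l => ((Algebra.ofId K R : K →ₐ[K] R) : K →+* R)
        ((Pi.single k 1 : σ → K) l)) = Pi.single k 1 := by
      intro k
      funext l
      by_cases hl : l = k
      · subst hl; simp
      · simp [Pi.single_eq_of_ne hl]
    rw [h2, h2] at h
    exact h
  rw [mb, q4_last, Finset.sum_comm]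
  refine Finset.sum_congr rfl fun j _ => ?_
  rw [q4_s34, q4_last, Finset.mul_sum]
  refine Finset.sum_congr rfl fun i _ => ?_
  rw [h1, q4_s34]
  ring

theorem hm_symm [DecidableEq σ] {R : Type*} [CommRing R] [Algebra K R] (p : σ → R) :
    (hm a p).IsSymm := by
  ext i j
  rw [Matrix.transpose_apply, hm, Matrix.of_apply, Matrix.of_apply, q4_s34]

theorem q4_sub {R : Type*} [CommRing R] [Algebra K R] (x y z u v : σ → R) :
    q4 a x y z (u - v) = q4 a x y z u - q4 a x y z v := by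
  simp only [q4, ell_sub, mul_sub, map_sub]

end Form

section Zero

variable (a : (σ →₀ ℕ) → K) {R : Type*} [CommRing R] [Algebra K R]

/-- the vector `Y` -/
noncomputable def yv (p y w : σ → R) : σ → R := q4 a p p w w • y - (2 * q4 a p p y w) • w

/-- the zero -/
noncomputable def zv (p Y : σ → R) : σ → R := (4 * q4 a p Y Y Y) • Y - q4 a Y Y Y Y • p

theorem yv_isotropic (p y w : σ → R) (hy : q4 a p p y y = 0) :
    q4 a p p (yv a p y w) (yv a p y w) = 0 := by
  have h : q4 a p p (yv a p y w) (yv a p y w) =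
      (q4 a p p w w) ^ 2 * q4 a p p y y := by
    have e : ∀ u v : R, q4 a p p (u • y - v • w) (u • y - v • w) =
        u ^ 2 * q4 a p p y y - 2 * u * v * q4 a p p y w + v ^ 2 * q4 a p p w w := by
      intro u v
      simp only [q4, ell_sub, ell_smul]
      have h0 : (ell p * ell p * (C u * ell y - C v * ell w) * (C u * ell y - C v * ell w) :
          MvPolynomial σ R) = C (u ^ 2) * (ell p * ell p * ell y * ell y) -
          C (2 * u * v) * (ell p * ell p * ell y * ell w) +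
          C (v ^ 2) * (ell p * ell p * ell w * ell w) := by
        simp only [map_mul, map_pow, map_ofNat]
        ring
      rw [h0, map_add, map_sub, Lf_C_mul, Lf_C_mul, Lf_C_mul]
    rw [yv, e]
    ring
  rw [h, hy, mul_zero]

theorem yv_tangent (p y w : σ → R) (hy : q4 a p p p y = 0) (hw : q4 a p p p w = 0) :
    q4 a p p p (yv a p y w) = 0 := by
  rw [yv, q4_sub, q4_smul, q4_smul, hy, hw]
  ring

theorem zv_zero (p Y : σ → R) (hp : q4 a p p p p = 0) (h3 : q4 a p p p Y = 0)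
    (h2 : q4 a p p Y Y = 0) : q4 a (zv a p Y) (zv a p Y) (zv a p Y) (zv a p Y) = 0 := by
  have e : ∀ u v : R, q4 a (u • Y - v • p) (u • Y - v • p) (u • Y - v • p) (u • Y - v • p) =
      u ^ 4 * q4 a Y Y Y Y - 4 * u ^ 3 * v * q4 a p Y Y Y + 6 * u ^ 2 * v ^ 2 * q4 a p p Y Y
        - 4 * u * v ^ 3 * q4 a p p p Y + v ^ 4 * q4 a p p p p := by
    intro u v
    simp only [q4, ell_sub, ell_smul]
    have h0 : ((C u * ell Y - C v * ell p) * (C u * ell Y - C v * ell p) *
        (C u * ell Y - C v * ell p) * (C u * ell Y - C v * ell p) :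
        MvPolynomial σ R) = C (u ^ 4) * (ell Y * ell Y * ell Y * ell Y) -
        C (4 * u ^ 3 * v) * (ell p * ell Y * ell Y * ell Y) +
        C (6 * u ^ 2 * v ^ 2) * (ell p * ell p * ell Y * ell Y) -
        C (4 * u * v ^ 3) * (ell p * ell p * ell p * ell Y) +
        C (v ^ 4) * (ell p * ell p * ell p * ell p) := by
      simp only [map_mul, map_pow, map_ofNat]
      ring
    rw [h0, map_add, map_sub, map_add, map_sub, Lf_C_mul, Lf_C_mul, Lf_C_mul, Lf_C_mul, Lf_C_mul]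
  rw [zv, e, hp, h3, h2]
  ring

theorem q4_smul4 (r : R) (x : σ → R) : q4 a (r • x) (r • x) (r • x) (r • x) =
    r ^ 4 * q4 a x x x x := by
  have h0 : (ell (r • x) * ell (r • x) * ell (r • x) * ell (r • x) : MvPolynomial σ R) =
      C (r ^ 4) * (ell x * ell x * ell x * ell x) := by
    simp only [ell_smul, map_pow]
    ring
  rw [q4, h0, Lf_C_mul, q4]

end Zero

theorem bc_yv (a : (σ →₀ ℕ) → K) (p y w : σ → K) :
    yv a (bc 𝕜 p) (bc 𝕜 y) (bc 𝕜 w) = bc 𝕜 (yv a p y w) := by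
  funext i
  simp only [yv, q4_bc, Pi.sub_apply, Pi.smul_apply, smul_eq_mul, bc, map_sub, map_mul, map_ofNat]

theorem bc_zv (a : (σ →₀ ℕ) → K) (p Y : σ → K) :
    zv a (bc 𝕜 p) (bc 𝕜 Y) = bc 𝕜 (zv a p Y) := by
  funext i
  simp only [zv, q4_bc, Pi.sub_apply, Pi.smul_apply, smul_eq_mul, bc, map_sub, map_mul, map_ofNat]

omit [Fintype σ] in
theorem dense_bc (hd : DenseRange (algebraMap K 𝕜)) : DenseRange (bc 𝕜 : (σ → K) → (σ → 𝕜)) :=
  DenseRange.piMap fun _ => hd

/-- real points of the tangent space which satisfy the conditions are limits of rational zeros -/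
theorem approx [DecidableEq σ] {ρ : ℕ} (hd : DenseRange (algebraMap K 𝕜))
    (hiso : IsoProp K 𝕜 σ ρ) (a : (σ →₀ ℕ) → K) (p : σ → K) (hp : q4 a p p p p = 0)
    (hr : ρ ≤ (hm a p).rank) (hp0 : ∃ u : σ → K, q4 a p p p u ≠ 0)
    (x : σ → 𝕜) (h1 : q4 a (bc 𝕜 p) (bc 𝕜 p) (bc 𝕜 p) x = 0)
    (h2 : q4 a (bc 𝕜 p) (bc 𝕜 p) x x = 0) (h3 : q4 a (bc 𝕜 p) x x x ≠ 0) (h4 : q4 a x x x x = 0)
    (hns : ∃ u : σ → 𝕜, q4 a (bc 𝕜 p) (bc 𝕜 p) (bc 𝕜 p) u = 0 ∧ q4 a (bc 𝕜 p) (bc 𝕜 p) x u ≠ 0) :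
    x ∈ closure (Zr a 𝕜) := by
  have hmbr : ∀ u v : σ → 𝕜, mb (hm a p) u v = q4 a (bc 𝕜 p) (bc 𝕜 p) u v := fun u v =>
    mb_hm a p u v
  have hmbq : ∀ u v : σ → K, mb (hm a p) u v = q4 a p p u v := fun u v => mb_hm a p u v
  obtain ⟨y, hy1, hy2, hy3⟩ := hiso (hm a p) (hm_symm a p) hr p
    (by rw [hmbq, hp]) (by
      obtain ⟨u, hu⟩ := hp0
      exact ⟨u, by rw [hmbq]; exact hu⟩) x
    (by rw [hmbr]; exact h1) (by rw [hmbr]; exact h2) (by
      obtain ⟨u, hu, hu'⟩ := hns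
      exact ⟨u, by rw [hmbr]; exact hu, by rw [hmbr]; exact hu'⟩)
  rw [hmbq] at hy1 hy2
  rw [hmbr] at hy3
  obtain ⟨e0, he0⟩ := hp0
  set e : σ → K := (q4 a p p p e0)⁻¹ • e0 with he
  have he1 : q4 a p p p e = 1 := by
    rw [he, q4_smul, inv_mul_cancel₀ he0]
  -- the maps
  let W : (σ → 𝕜) → (σ → 𝕜) := fun v => v - q4 a (bc 𝕜 p) (bc 𝕜 p) (bc 𝕜 p) v • bc 𝕜 e
  let Φ : (σ → 𝕜) × 𝕜 → (σ → 𝕜) := fun s => s.2 • zv a (bc 𝕜 p) (yv a (bc 𝕜 p) (bc 𝕜 y) (W s.1))
  have hWc : Continuous W := by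
    have h := continuous_q4 a (f := fun _ : σ → 𝕜 => bc 𝕜 p) (g := fun _ => bc 𝕜 p)
      (h := fun _ => bc 𝕜 p) (k := fun v => v) continuous_const continuous_const continuous_const
      continuous_id
    exact continuous_id.sub (h.smul continuous_const)
  have hYc : Continuous fun v => yv a (bc 𝕜 p) (bc 𝕜 y) (W v) := by
    have h := continuous_q4 a (f := fun _ : σ → 𝕜 => bc 𝕜 p) (g := fun _ => bc 𝕜 p)
      (h := W) (k := W) continuous_const continuous_const hWc hWc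
    have h' := continuous_q4 a (f := fun _ : σ → 𝕜 => bc 𝕜 p) (g := fun _ => bc 𝕜 p)
      (h := fun _ => bc 𝕜 y) (k := W) continuous_const continuous_const continuous_const hWc
    exact (h.smul continuous_const).sub ((continuous_const.mul h').smul hWc)
  have hZc : Continuous fun v => zv a (bc 𝕜 p) (yv a (bc 𝕜 p) (bc 𝕜 y) (W v)) := by
    have h := continuous_q4 a (f := fun _ : σ → 𝕜 => bc 𝕜 p) continuous_const hYc hYc hYc
    have h' := continuous_q4 a hYc hYc hYc hYc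
    exact ((continuous_const.mul h).smul hYc).sub (h'.smul continuous_const)
  have hΦc : Continuous Φ := continuous_snd.smul (hZc.comp continuous_fst)
  -- the value at `x`
  set m : 𝕜 := -(2 * q4 a (bc 𝕜 p) (bc 𝕜 p) (bc 𝕜 y) x) with hm
  have hm0 : m ≠ 0 := by
    rw [hm, neg_ne_zero]
    exact mul_ne_zero two_ne_zero hy3
  have hWx : W x = x := by
    simp only [W]
    rw [h1, zero_smul, sub_zero]
  have hYx : yv a (bc 𝕜 p) (bc 𝕜 y) (W x) = m • x := by
    rw [hWx, yv, h2, zero_smul, zero_sub, hm, neg_smul]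
  have hZx : zv a (bc 𝕜 p) (m • x) = (4 * m ^ 4 * q4 a (bc 𝕜 p) x x x) • x := by
    rw [zv, q4_smul4, h4, mul_zero, zero_smul, sub_zero]
    have h5 : q4 a (bc 𝕜 p) (m • x) (m • x) (m • x) = m ^ 3 * q4 a (bc 𝕜 p) x x x := by
      have h0 : (ell (bc 𝕜 p) * ell (m • x) * ell (m • x) * ell (m • x) : MvPolynomial σ 𝕜) =
          C (m ^ 3) * (ell (bc 𝕜 p) * ell x * ell x * ell x) := by
        simp only [ell_smul, map_pow]
        ring
      rw [q4, h0, Lf_C_mul, q4]
    rw [h5, smul_smul]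
    congr 1
    ring
  set c : 𝕜 := 4 * m ^ 4 * q4 a (bc 𝕜 p) x x x with hc
  have hc0 : c ≠ 0 := by
    rw [hc]
    exact mul_ne_zero (mul_ne_zero (by norm_num) (pow_ne_zero _ hm0)) h3
  have hΦx : Φ (x, c⁻¹) = x := by
    simp only [Φ]
    rw [hYx, hZx, smul_smul, inv_mul_cancel₀ hc0, one_smul]
  -- rational points
  have hmaps : Set.MapsTo Φ (Set.range (bc 𝕜 : (σ → K) → (σ → 𝕜)) ×ˢ Set.range (algebraMap K 𝕜))
      (Zr a 𝕜) := by
    rintro ⟨_, _⟩ ⟨⟨v, rfl⟩, ⟨l, rfl⟩⟩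
    set w : σ → K := v - q4 a p p p v • e with hw
    have hW : W (bc 𝕜 v) = bc 𝕜 w := by
      funext i
      simp only [W, q4_bc, hw, bc, Pi.sub_apply, Pi.smul_apply, smul_eq_mul, map_sub, map_mul]
    have hw0 : q4 a p p p w = 0 := by
      rw [hw, q4_sub, q4_smul, he1]
      ring
    refine ⟨l • zv a p (yv a p y w), ?_, ?_⟩
    · rw [q4_smul4, zv_zero a p _ hp (yv_tangent a p y w hy1 hw0) (yv_isotropic a p y w hy2),
        mul_zero]
    · simp only [Φ]
      rw [hW, bc_yv, bc_zv]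
      funext i
      simp only [bc, Pi.smul_apply, smul_eq_mul, map_mul]
  have hdense : (x, c⁻¹) ∈ closure (Set.range (bc 𝕜 : (σ → K) → (σ → 𝕜)) ×ˢ
      Set.range (algebraMap K 𝕜)) := by
    rw [closure_prod_eq]
    exact ⟨dense_bc hd x, hd _⟩
  have := map_mem_closure hΦc hdense hmaps
  rwa [hΦx] at this

end Pool.Agent.Work.QK
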