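import Mathlib
import Pool.Agent.Work.MP_b62148_ag.Sextic.Flag
import Pool.Agent.Work.MP_b62148_ag.Quintic.IrredQ

/-!
A smooth quartic form in at least three variables is irreducible; a number field containing the
square root of a negative rational number is dense in the complex numbers; a complex quadratic form
of rank at least five has, in every hyperplane, a zero outside the radical of the restriction.
-/

namespace Pool.Agent.Work.QK

open MvPolynomial Pool.Agent.Work.PD6

theorem irreducible_of_smooth {K : Type*} [Field K] [CharZero K] {σ : Type*} [Fintype σ]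
    (hN : 3 ≤ Fintype.card σ) {F : MvPolynomial σ K}
    (hF : F.IsHomogeneous 4) (hs : PD.SmoothForm F) : Irreducible F := by
  classical
  have hne : Nonempty σ := Fintype.card_pos_iff.mp (by omega)
  have hF0 : F ≠ 0 := by
    rintro rfl
    have := hs (fun _ => 1) (fun i => by simp)
    have h1 := congrFun this (Classical.arbitrary σ)
    simp at h1
  have hc0 : coeff 0 F = 0 := hF.coeff_eq_zero (by simp)
  refine ⟨?_, ?_⟩
  · intro hu
    rw [isUnit_iff_totalDegree_of_isReduced, hc0] at hu
    exact not_isUnit_zero hu.1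
  · intro a b hab
    by_cases ha : coeff 0 a = 0
    · by_cases hb : coeff 0 b = 0
      · exfalso
        let e : σ ≃ Fin (Fintype.card σ) := Fintype.equivFin σ
        let Kb := AlgebraicClosure K
        let G : Fin 2 → MvPolynomial (Fin (Fintype.card σ)) Kb :=
          ![rename e (map (algebraMap K Kb) a), rename e (map (algebraMap K Kb) b)]
        have hval : ∀ (p : MvPolynomial σ K) (x : Fin (Fintype.card σ) → Kb),
            eval x (rename e (map (algebraMap K Kb) p)) = aeval (x ∘ e) p := by
          intro p x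
          rw [eval_rename, eval_map, aeval_def]
        have hz : ∀ p : MvPolynomial σ K, coeff 0 p = 0 → aeval (0 : σ → Kb) p = 0 := by
          intro p hp
          rw [aeval_zero, ← constantCoeff_eq] at *
          rw [hp, map_zero]
        obtain ⟨x, hx0, hx⟩ := PD.exists_common_zero (m := 2) (by omega) G (by
          intro i
          fin_cases i
          · show eval 0 (rename e (map (algebraMap K Kb) a)) = 0
            rw [hval]
            exact hz a ha
          · show eval 0 (rename e (map (algebraMap K Kb) b)) = 0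
            rw [hval]
            exact hz b hb)
        have hxa : aeval (x ∘ e) a = 0 := by
          rw [← hval]; exact hx 0
        have hxb : aeval (x ∘ e) b = 0 := by
          rw [← hval]; exact hx 1
        have h1 := hs (x ∘ e) (fun i => by
          rw [hab, pderiv_mul, map_add, map_mul, map_mul, hxa, hxb, zero_mul, mul_zero, add_zero])
        apply hx0
        funext i
        have h2 := congrFun h1 (e.symm i)
        simpa using h2
      · right
        exact PD5.isUnit_of_coeff_ne_zero hF hF0 (by rw [hab, mul_comm]) hb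
    · left
      exact PD5.isUnit_of_coeff_ne_zero hF hF0 hab ha

theorem denseRange_of_sq_neg {L : Type*} [Field L] (φ : L →+* ℂ) (θ : L) (d : ℚ) (hd : 0 < d)
    (hθ : θ ^ 2 = -(d : L)) [CharZero L] : DenseRange φ := by
  have h1 : (φ θ) ^ 2 = -(d : ℂ) := by
    rw [← map_pow, hθ, map_neg, map_ratCast]
  have hre : (φ θ).re = 0 := by
    have h2 := congrArg Complex.im h1
    have h3 := congrArg Complex.re h1
    simp [pow_two, Complex.mul_im, Complex.mul_re] at h2 h3
    have hd' : (0 : ℝ) < d := by exact_mod_cast hd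
    by_contra hne
    have h4 : (φ θ).im = 0 := by
      rcases mul_eq_zero.mp (show (φ θ).re * (φ θ).im = 0 by linarith) with h | h
      · exact absurd h hne
      · exact h
    rw [h4] at h3
    nlinarith [mul_self_nonneg (φ θ).re]
  have him : (φ θ).im ≠ 0 := by
    intro h0
    have h3 := congrArg Complex.re h1
    simp [pow_two, Complex.mul_re, hre, h0] at h3
    exact hd.ne' h3
  have hsurj : Function.Surjective (fun p : ℝ × ℝ => (p.1 : ℂ) + (p.2 : ℂ) * φ θ) := by
    intro z
    refine ⟨(z.re, z.im / (φ θ).im), ?_⟩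
    apply Complex.ext
    · simp [hre]
    · simp
      field_simp
  have hcont : Continuous (fun p : ℝ × ℝ => (p.1 : ℂ) + (p.2 : ℂ) * φ θ) := by fun_prop
  have hq : DenseRange (Prod.map ((↑) : ℚ → ℝ) ((↑) : ℚ → ℝ)) :=
    Rat.denseRange_cast.prodMap Rat.denseRange_cast
  have h2 := hsurj.denseRange.comp hq hcont
  refine Dense.mono ?_ h2
  rintro _ ⟨p, rfl⟩
  refine ⟨(p.1 : L) + (p.2 : L) * θ, ?_⟩
  simp

open Matrix in
theorem exists_nonradical_isotropic {n : Type*} [Fintype n] [DecidableEq n] (M : Matrix n n ℂ)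
    (hM : M.IsSymm) (g : n → ℂ) (hr : 5 ≤ M.rank) :
    ∃ v : n → ℂ, g ⬝ᵥ v = 0 ∧ v ⬝ᵥ M.mulVec v = 0 ∧
      ∃ u : n → ℂ, g ⬝ᵥ u = 0 ∧ u ⬝ᵥ M.mulVec v ≠ 0 := by
  by_contra hcon
  push Not at hcon
  have hsymm : ∀ x y : n → ℂ, x ⬝ᵥ M.mulVec y = y ⬝ᵥ M.mulVec x := by
    intro x y
    rw [Matrix.dotProduct_mulVec, ← Matrix.mulVec_transpose, hM.eq, dotProduct_comm]
  -- the key vector
  obtain ⟨w, hw⟩ : ∃ w : n → ℂ, ∀ x, g ⬝ᵥ x = 0 → w ⬝ᵥ M.mulVec x = 0 →
      ∀ u, g ⬝ᵥ u = 0 → u ⬝ᵥ M.mulVec x = 0 := by
    by_cases h0 : ∀ x, g ⬝ᵥ x = 0 → x ⬝ᵥ M.mulVec x = 0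
    · exact ⟨0, fun x hx _ u hu => hcon x hx (h0 x hx) u hu⟩
    · push Not at h0
      obtain ⟨w, hgw, hww⟩ := h0
      refine ⟨w, fun x hx hwx => ?_⟩
      by_cases hxx : x ⬝ᵥ M.mulVec x = 0
      · exact hcon x hx hxx
      · exfalso
        obtain ⟨t, ht⟩ := IsAlgClosed.exists_pow_nat_eq
          (-(w ⬝ᵥ M.mulVec w) / (x ⬝ᵥ M.mulVec x)) (n := 2) (by norm_num)
        have hv : g ⬝ᵥ (w + t • x) = 0 := by
          rw [dotProduct_add, dotProduct_smul, hgw, hx, smul_zero, add_zero]
        have hxw : x ⬝ᵥ M.mulVec w = 0 := by rw [hsymm, hwx]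
        have hvv : (w + t • x) ⬝ᵥ M.mulVec (w + t • x) = 0 := by
          rw [Matrix.mulVec_add, Matrix.mulVec_smul, dotProduct_add, add_dotProduct,
            add_dotProduct, dotProduct_smul, dotProduct_smul, smul_dotProduct, smul_dotProduct,
            hwx, hxw]
          simp only [smul_eq_mul, mul_zero, add_zero, zero_add]
          have h3 : t * (t * (x ⬝ᵥ M.mulVec x)) = t ^ 2 * (x ⬝ᵥ M.mulVec x) := by ring
          rw [h3, ht]
          field_simp
          ring
        have h4 := hcon _ hv hvv w hgw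
        rw [Matrix.mulVec_add, Matrix.mulVec_smul, dotProduct_add, dotProduct_smul, hwx,
          smul_zero, add_zero] at h4
        exact hww h4
  obtain ⟨j, hj⟩ : ∃ j : n, ∀ y : n → ℂ, y j = 0 → (∀ u, g ⬝ᵥ u = 0 → u ⬝ᵥ y = 0) → y = 0 := by
    have hne : Nonempty n := by
      by_contra h
      rw [not_nonempty_iff] at h
      have : M.rank ≤ Fintype.card n := Matrix.rank_le_card_width M
      rw [Fintype.card_eq_zero] at this
      omega
    by_cases hg : g = 0
    · refine ⟨Classical.arbitrary n, fun y _ h => ?_⟩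
      funext i
      have := h (Pi.single i 1) (by rw [hg, zero_dotProduct])
      simpa using this
    · obtain ⟨j, hj⟩ := Function.ne_iff.mp hg
      refine ⟨j, fun y hy h => ?_⟩
      funext i
      have h1 := h (g j • Pi.single i 1 - g i • Pi.single j 1) (by
        rw [dotProduct_sub, dotProduct_smul, dotProduct_smul, dotProduct_single, dotProduct_single]
        simp only [smul_eq_mul, mul_one]
        ring)
      rw [sub_dotProduct, smul_dotProduct, smul_dotProduct, single_dotProduct, single_dotProduct,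
        hy] at h1
      simp only [smul_eq_mul, one_mul, mul_zero, sub_zero] at h1
      exact (mul_eq_zero.mp h1).resolve_left hj
  let Φ : (n → ℂ) →ₗ[ℂ] (Fin 3 → ℂ) :=
    LinearMap.pi ![dotProductBilin ℂ ℂ g, (dotProductBilin ℂ ℂ w).comp M.mulVecLin,
      (LinearMap.proj j).comp M.mulVecLin]
  have hker : LinearMap.ker Φ ≤ LinearMap.ker M.mulVecLin := by
    intro x hx
    rw [LinearMap.mem_ker] at hx ⊢
    have e0 : g ⬝ᵥ x = 0 := congrFun hx 0
    have e1 : w ⬝ᵥ M.mulVec x = 0 := congrFun hx 1
    have e2 : M.mulVec x j = 0 := congrFun hx 2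
    exact hj _ e2 (fun u hu => hw x e0 e1 u hu)
  have h1 := LinearMap.finrank_range_add_finrank_ker Φ
  have h2 := LinearMap.finrank_range_add_finrank_ker M.mulVecLin
  have h3 := Submodule.finrank_mono hker
  have h4 : Module.finrank ℂ (LinearMap.range Φ) ≤ 3 := by
    have := Submodule.finrank_le (LinearMap.range Φ)
    simpa using this
  have h5 : 5 ≤ Module.finrank ℂ (LinearMap.range M.mulVecLin) := hr
  omega

end Pool.Agent.Work.QK
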