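import Pool.Agent.Work.MP_b62148_ag.QK.Defs

set_option autoImplicit false

/-! Diagonal quadratic forms in seven variables over an imaginary quadratic field (helper60) -/

namespace Pool.Agent.Work.QK

open Module

namespace Quad60

section

variable {E : Type*} [Field E] [Algebra ℚ E] {θ : E} {d : ℚ}


lemma no_rat (hd : 0 < d) (hθ : θ ^ 2 = (algebraMap ℚ E) (-d)) {s t : ℚ} (h : (algebraMap ℚ E) s + (algebraMap ℚ E) t * θ = 0) :
    s = 0 ∧ t = 0 := by
  have hinj : Function.Injective (algebraMap ℚ E) := (algebraMap ℚ E).injective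
  have h1 : (algebraMap ℚ E) (s ^ 2 + d * t ^ 2) = 0 := by
    have e1 : (algebraMap ℚ E) s = -((algebraMap ℚ E) t * θ) := eq_neg_of_add_eq_zero_left h
    have e2 : (algebraMap ℚ E) s ^ 2 = (algebraMap ℚ E) t ^ 2 * (algebraMap ℚ E) (-d) := by rw [e1, ← hθ]; ring
    rw [map_add, map_pow, map_mul, map_pow, e2, map_neg]; ring
  have h2 : s ^ 2 + d * t ^ 2 = 0 := by
    apply hinj
    rw [h1, map_zero]
  have h3 : 0 ≤ s ^ 2 := sq_nonneg s
  have h4 : 0 ≤ d * t ^ 2 := mul_nonneg hd.le (sq_nonneg t)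
  have h5 : s ^ 2 = 0 := by linarith
  have h6 : d * t ^ 2 = 0 := by linarith
  refine ⟨pow_eq_zero_iff (two_ne_zero) |>.1 h5, ?_⟩
  rcases mul_eq_zero.1 h6 with h7 | h7
  · exact absurd h7 hd.ne'
  · exact pow_eq_zero_iff (two_ne_zero) |>.1 h7

/-- a ternary diagonal form takes a rational value -/
lemma tern (meyer5 : ∀ (a : Fin 5 → ℚ), (∀ i, a i ≠ 0) → (∃ i, 0 < a i) → (∃ i, a i < 0) →
    ∃ x : Fin 5 → ℚ, x ≠ 0 ∧ ∑ i, a i * x i ^ 2 = 0) (hd : 0 < d) (hθ : θ ^ 2 = (algebraMap ℚ E) (-d))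
    (hE : ∀ z : E, ∃ a b : ℚ, z = (algebraMap ℚ E) a + (algebraMap ℚ E) b * θ) (a b c : E) :
    ∃ x y z : E, ¬ (x = 0 ∧ y = 0 ∧ z = 0) ∧ ∃ r : ℚ, a * x ^ 2 + b * y ^ 2 + c * z ^ 2 = (algebraMap ℚ E) r := by
  obtain ⟨a1, a2, ha⟩ := hE a
  obtain ⟨b1, b2, hb⟩ := hE b
  obtain ⟨c1, c2, hc⟩ := hE c
  by_cases ha2 : a2 = 0
  · refine ⟨1, 0, 0, fun h => one_ne_zero h.1, a1, ?_⟩
    rw [ha, ha2]; simp
  by_cases hb2 : b2 = 0
  · refine ⟨0, 1, 0, fun h => one_ne_zero h.2.1, b1, ?_⟩
    rw [hb, hb2]; simp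
  by_cases hc2 : c2 = 0
  · refine ⟨0, 0, 1, fun h => one_ne_zero h.2.2, c1, ?_⟩
    rw [hc, hc2]; simp
  have hneg : ∀ p q : ℚ, q ≠ 0 → 0 < d * q ^ 2 + p ^ 2 := fun p q hq => by
    have : 0 < q ^ 2 := by positivity
    have h2 : 0 ≤ p ^ 2 := sq_nonneg p
    have h3 : 0 < d * q ^ 2 := mul_pos hd this
    linarith
  set A : ℚ := -((d * a2 ^ 2 + a1 ^ 2) / a2) with hA
  set B : ℚ := -((d * b2 ^ 2 + b1 ^ 2) / b2) with hB
  have hA0 : A ≠ 0 := neg_ne_zero.2 (div_ne_zero (hneg a1 a2 ha2).ne' ha2)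
  have hB0 : B ≠ 0 := neg_ne_zero.2 (div_ne_zero (hneg b1 b2 hb2).ne' hb2)
  obtain ⟨u, hu0, hu⟩ := meyer5 ![a2, A, b2, B, c2] (fun i => by
    fin_cases i
    · exact ha2
    · exact hA0
    · exact hb2
    · exact hB0
    · exact hc2) (by
    rcases lt_or_gt_of_ne ha2 with h | h
    · refine ⟨1, ?_⟩
      show 0 < A
      rw [hA, neg_pos]
      exact div_neg_of_pos_of_neg (hneg a1 a2 ha2) h
    · exact ⟨0, h⟩) (by
    rcases lt_or_gt_of_ne ha2 with h | h
    · exact ⟨0, h⟩
    · refine ⟨1, ?_⟩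
      show A < 0
      rw [hA, neg_lt_zero]
      exact div_pos (hneg a1 a2 ha2) h)
  rw [Fin.sum_univ_five] at hu
  have hu' : a2 * u 0 ^ 2 + A * u 1 ^ 2 + b2 * u 2 ^ 2 + B * u 3 ^ 2 + c2 * u 4 ^ 2 = 0 := hu
  set s : ℚ := u 0 - a1 / a2 * u 1 with hs
  set s' : ℚ := u 2 - b1 / b2 * u 3 with hs'
  -- the part of `θ`
  have hT : a2 * (s ^ 2 - d * u 1 ^ 2) + 2 * a1 * s * u 1 + (b2 * (s' ^ 2 - d * u 3 ^ 2) +
      2 * b1 * s' * u 3) + c2 * u 4 ^ 2 = 0 := by
    have e1 : a2 * (s ^ 2 - d * u 1 ^ 2) + 2 * a1 * s * u 1 = a2 * u 0 ^ 2 + A * u 1 ^ 2 := by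
      rw [hs, hA]; field_simp; ring
    have e2 : b2 * (s' ^ 2 - d * u 3 ^ 2) + 2 * b1 * s' * u 3 = b2 * u 2 ^ 2 + B * u 3 ^ 2 := by
      rw [hs', hB]; field_simp; ring
    rw [e1, e2]
    linarith
  refine ⟨(algebraMap ℚ E) s + (algebraMap ℚ E) (u 1) * θ, (algebraMap ℚ E) s' + (algebraMap ℚ E) (u 3) * θ, (algebraMap ℚ E) (u 4), ?_, a1 * (s ^ 2 - d * u 1 ^ 2) -
    2 * d * a2 * s * u 1 + (b1 * (s' ^ 2 - d * u 3 ^ 2) - 2 * d * b2 * s' * u 3) + c1 * u 4 ^ 2, ?_⟩
  · rintro ⟨h1, h2, h3⟩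
    obtain ⟨h4, h5⟩ := no_rat hd hθ h1
    obtain ⟨h6, h7⟩ := no_rat hd hθ h2
    have h8 : u 4 = 0 := (map_eq_zero (algebraMap ℚ E)).1 h3
    apply hu0
    have h9 : u 0 = 0 := by rw [hs, h5] at h4; linarith
    have h10 : u 2 = 0 := by rw [hs', h7] at h6; linarith
    funext i
    fin_cases i
    · exact h9
    · exact h5
    · exact h10
    · exact h7
    · exact h8
  · have hT' := congrArg (algebraMap ℚ E) hT
    simp only [map_add, map_mul, map_sub, map_pow, map_zero, map_ofNat] at hT'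
    rw [ha, hb, hc]
    simp only [map_add, map_mul, map_sub, map_pow, map_ofNat]
    rw [map_neg] at hθ
    linear_combination ((algebraMap ℚ E) (u 1) ^ 2 * ((algebraMap ℚ E) a1 + (algebraMap ℚ E) a2 * θ) + 2 * (algebraMap ℚ E) s * (algebraMap ℚ E) (u 1) * (algebraMap ℚ E) a2 +
      ((algebraMap ℚ E) (u 3) ^ 2 * ((algebraMap ℚ E) b1 + (algebraMap ℚ E) b2 * θ) + 2 * (algebraMap ℚ E) s' * (algebraMap ℚ E) (u 3) * (algebraMap ℚ E) b2)) * hθ + θ * hT'

/-- a quadratic form in three variables takes a rational value -/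
lemma rat_val (meyer5 : ∀ (a : Fin 5 → ℚ), (∀ i, a i ≠ 0) → (∃ i, 0 < a i) → (∃ i, a i < 0) →
    ∃ x : Fin 5 → ℚ, x ≠ 0 ∧ ∑ i, a i * x i ^ 2 = 0) (hd : 0 < d) (hθ : θ ^ 2 = (algebraMap ℚ E) (-d))
    (hE : ∀ z : E, ∃ a b : ℚ, z = (algebraMap ℚ E) a + (algebraMap ℚ E) b * θ) {V : Type*} [AddCommGroup V] [Module E V]
    [FiniteDimensional E V] (B : V →ₗ[E] V →ₗ[E] E) (hB : ∀ x y, B x y = B y x)
    (hV : 3 ≤ finrank E V) : ∃ w : V, w ≠ 0 ∧ ∃ r : ℚ, B w w = (algebraMap ℚ E) r := by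
  have h2 : (2 : E) ≠ 0 := by
    have h := (map_ne_zero (algebraMap ℚ E)).2 (two_ne_zero (α := ℚ))
    rwa [map_ofNat] at h
  have : Invertible (2 : E) := invertibleOfNonzero h2
  obtain ⟨v, hv⟩ := LinearMap.BilinForm.exists_orthogonal_basis (B := B) ⟨hB⟩
  have hv' : ∀ i j, i ≠ j → B (v i) (v j) = 0 := LinearMap.isOrthoᵢ_def.1 hv
  let i0 : Fin (finrank E V) := ⟨0, by omega⟩
  let i1 : Fin (finrank E V) := ⟨1, by omega⟩
  let i2 : Fin (finrank E V) := ⟨2, by omega⟩
  have n01 : i0 ≠ i1 := fun h => absurd (congrArg Fin.val h) (by show (0 : ℕ) ≠ 1; norm_num)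
  have n02 : i0 ≠ i2 := fun h => absurd (congrArg Fin.val h) (by show (0 : ℕ) ≠ 2; norm_num)
  have n12 : i1 ≠ i2 := fun h => absurd (congrArg Fin.val h) (by show (1 : ℕ) ≠ 2; norm_num)
  obtain ⟨x, y, z, hne, r, hr⟩ := tern meyer5 hd hθ hE (B (v i0) (v i0)) (B (v i1) (v i1))
    (B (v i2) (v i2))
  refine ⟨x • v i0 + y • v i1 + z • v i2, fun h => hne ?_, r, ?_⟩
  · have h0 := congrArg (fun w => v.repr w i0) h
    have h1 := congrArg (fun w => v.repr w i1) h
    have h2 := congrArg (fun w => v.repr w i2) h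
    simp only [map_add, map_smul, Basis.repr_self, Finsupp.add_apply, Finsupp.smul_apply,
      Finsupp.single_apply, map_zero, Finsupp.zero_apply, smul_eq_mul, n01, n02, n12, n01.symm,
      n02.symm, n12.symm, if_true, if_false, mul_one, mul_zero, add_zero, zero_add] at h0 h1 h2
    exact ⟨h0, h1, h2⟩
  · rw [← hr]
    simp only [map_add, map_smul, LinearMap.add_apply, LinearMap.smul_apply, smul_eq_mul,
      hv' i0 i1 n01, hv' i0 i2 n02, hv' i1 i2 n12, hv' i1 i0 n01.symm, hv' i2 i0 n02.symm,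
      hv' i2 i1 n12.symm, mul_zero, add_zero, zero_add]
    ring

end

end Quad60

open Quad60 in
/-- **seven variables over an imaginary quadratic field** -/
theorem diagIso_quad (meyer5 : ∀ (a : Fin 5 → ℚ), (∀ i, a i ≠ 0) → (∃ i, 0 < a i) →
    (∃ i, a i < 0) → ∃ x : Fin 5 → ℚ, x ≠ 0 ∧ ∑ i, a i * x i ^ 2 = 0)
    {E : Type*} [Field E] [Algebra ℚ E] (θ : E) (d : ℚ) (hd : 0 < d)
    (hθ : θ ^ 2 = algebraMap ℚ E (-d))
    (hE : ∀ z : E, ∃ a b : ℚ, z = algebraMap ℚ E a + algebraMap ℚ E b * θ) : DiagIso E 7 := by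
  intro a
  let B : (Fin 7 → E) →ₗ[E] (Fin 7 → E) →ₗ[E] E :=
    LinearMap.mk₂ E (fun x y => ∑ j, a j * (x j * y j))
      (fun x x' y => by
        simp only [Pi.add_apply, add_mul, mul_add, Finset.sum_add_distrib])
      (fun c x y => by
        rw [Finset.smul_sum]
        refine Finset.sum_congr rfl fun j _ => ?_
        simp only [Pi.smul_apply, smul_eq_mul]; ring)
      (fun x y y' => by
        simp only [Pi.add_apply, mul_add, Finset.sum_add_distrib])
      (fun c x y => by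
        rw [Finset.smul_sum]
        refine Finset.sum_congr rfl fun j _ => ?_
        simp only [Pi.smul_apply, smul_eq_mul]; ring)
  have hBa : ∀ x y, B x y = ∑ j, a j * (x j * y j) := fun x y => rfl
  have hBs : ∀ x y, B x y = B y x := fun x y => by
    rw [hBa, hBa]; exact Finset.sum_congr rfl fun j _ => by ring
  have hinj : Function.Injective (algebraMap ℚ E) := (algebraMap ℚ E).injective
  -- a nonzero isotropic vector is enough
  suffices h : ∃ x : Fin 7 → E, x ≠ 0 ∧ B x x = 0 by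
    obtain ⟨x, hx, h⟩ := h
    refine ⟨x, hx, ?_⟩
    rw [← h, hBa]
    exact Finset.sum_congr rfl fun j _ => by ring
  -- five orthogonal vectors with rational values
  have key : ∀ k ≤ 5, ∃ y : Fin k → (Fin 7 → E), (∀ j, y j ≠ 0) ∧
      (∀ j l, j ≠ l → B (y j) (y l) = 0) ∧ ∀ j, ∃ r : ℚ, B (y j) (y j) = algebraMap ℚ E r := by
    intro k
    induction k with
    | zero => exact fun _ => ⟨fun j => j.elim0, fun j => j.elim0, fun j => j.elim0,
        fun j => j.elim0⟩
    | succ k ihk =>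
      intro hk
      obtain ⟨y, h1, h2, h3⟩ := ihk (by omega)
      let φ : (Fin 7 → E) →ₗ[E] (Fin k → E) := LinearMap.pi fun p => B (y p)
      have hrn := LinearMap.finrank_range_add_finrank_ker φ
      rw [finrank_fintype_fun_eq_card, Fintype.card_fin] at hrn
      have hle : finrank E (LinearMap.range φ) ≤ k := by
        have := Submodule.finrank_le (LinearMap.range φ)
        rwa [finrank_fintype_fun_eq_card, Fintype.card_fin] at this
      obtain ⟨w, hw0, r, hr⟩ := rat_val meyer5 hd hθ hE (V := LinearMap.ker φ)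
        (B.compl₁₂ (LinearMap.ker φ).subtype (LinearMap.ker φ).subtype)
        (fun a b => by
          simp only [LinearMap.compl₁₂_apply]
          exact hBs _ _) (by omega)
      have hwφ : ∀ l : Fin k, B (y l) w = 0 := fun l => by
        have h4 : φ w = 0 := w.2
        exact congrFun h4 l
      refine ⟨Fin.snoc y (w : Fin 7 → E), ?_, ?_, ?_⟩
      · intro j
        refine Fin.lastCases ?_ (fun j => ?_) j
        · rw [Fin.snoc_last]
          exact fun h => hw0 (Subtype.ext h)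
        · rw [Fin.snoc_castSucc]
          exact h1 j
      · intro j l
        refine Fin.lastCases ?_ (fun j => ?_) j
        · refine Fin.lastCases ?_ (fun l => ?_) l
          · exact fun h => absurd rfl h
          · intro _
            rw [Fin.snoc_last, Fin.snoc_castSucc, hBs]
            exact hwφ l
        · refine Fin.lastCases ?_ (fun l => ?_) l
          · intro _
            rw [Fin.snoc_last, Fin.snoc_castSucc]
            exact hwφ j
          · intro h
            rw [Fin.snoc_castSucc, Fin.snoc_castSucc]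
            exact h2 j l fun h' => h (by rw [h'])
      · intro j
        refine Fin.lastCases ?_ (fun j => ?_) j
        · rw [Fin.snoc_last]
          exact ⟨r, hr⟩
        · rw [Fin.snoc_castSucc]
          exact h3 j
  obtain ⟨y, h1, h2, h3⟩ := key 5 le_rfl
  choose c hc using h3
  by_cases hz : ∃ j, c j = 0
  · obtain ⟨j, hj⟩ := hz
    exact ⟨y j, h1 j, by rw [hc, hj, map_zero]⟩
  push Not at hz
  -- both signs are enough
  have fin : ∀ (y : Fin 5 → (Fin 7 → E)) (c : Fin 5 → ℚ), (∀ j l, j ≠ l → B (y j) (y l) = 0) →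
      (∀ j, B (y j) (y j) = algebraMap ℚ E (c j)) → (∀ j, c j ≠ 0) → (∃ j, 0 < c j) →
      (∃ j, c j < 0) → ∃ x : Fin 7 → E, x ≠ 0 ∧ B x x = 0 := by
    intro y c h2 hc hz hp hn
    obtain ⟨x, hx0, hx⟩ := meyer5 c hz hp hn
    have hk : ∀ k, B (y k) (∑ j, algebraMap ℚ E (x j) • y j) =
        algebraMap ℚ E (x k) * algebraMap ℚ E (c k) := by
      intro k
      rw [map_sum, Finset.sum_eq_single k]
      · rw [map_smul, smul_eq_mul, hc]
      · intro l _ hl
        rw [map_smul, h2 k l (Ne.symm hl), smul_zero]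
      · intro h; exact absurd (Finset.mem_univ k) h
    refine ⟨∑ j, algebraMap ℚ E (x j) • y j, fun h0 => hx0 ?_, ?_⟩
    · funext k
      have h4 := hk k
      rw [h0, map_zero, ← map_mul] at h4
      have h5 : x k * c k = 0 := by
        apply hinj
        rw [← h4, map_zero]
      rcases mul_eq_zero.1 h5 with h6 | h6
      · exact h6
      · exact absurd h6 (hz k)
    · rw [map_sum]
      have e : ∀ j, B (∑ j, algebraMap ℚ E (x j) • y j) (algebraMap ℚ E (x j) • y j) =
          algebraMap ℚ E (c j * x j ^ 2) := by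
        intro j
        rw [map_smul, hBs, hk, smul_eq_mul, map_mul, map_pow]; ring
      rw [Finset.sum_congr rfl fun j _ => e j, ← map_sum, hx, map_zero]
  by_cases hp : ∃ j, 0 < c j
  · by_cases hn : ∃ j, c j < 0
    · exact fin y c h2 hc hz hp hn
    · -- all positive
      push Not at hn
      have hpos : ∀ j, 0 < c j := fun j => lt_of_le_of_ne (hn j) (hz j).symm
      refine fin (fun j => if j = 0 then θ • y 0 else y j) (fun j => if j = 0 then -d * c 0 else c j)
        ?_ ?_ ?_ ⟨1, ?_⟩ ⟨0, ?_⟩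
      · intro j l hjl
        by_cases hj : j = 0
        · have hl : l ≠ 0 := fun h => hjl (hj.trans h.symm)
          simp only [if_pos hj, if_neg hl]
          rw [hBs, map_smul, h2 l 0 hl, smul_zero]
        · by_cases hl : l = 0
          · simp only [if_neg hj, if_pos hl]
            rw [map_smul, h2 j 0 hj, smul_zero]
          · simp only [if_neg hj, if_neg hl]
            exact h2 j l hjl
      · intro j
        by_cases hj : j = 0
        · simp only [if_pos hj]
          rw [map_smul, hBs, map_smul, hc, smul_eq_mul, smul_eq_mul, map_mul, ← hθ]; ring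
        · simp only [if_neg hj]
          exact hc j
      · intro j
        by_cases hj : j = 0
        · simp only [if_pos hj]
          exact mul_ne_zero (neg_ne_zero.2 hd.ne') (hz 0)
        · simp only [if_neg hj]
          exact hz j
      · rw [if_neg (by decide)]; exact hpos 1
      · rw [if_pos rfl]
        have := mul_pos hd (hpos 0)
        linarith
  · -- all negative
    push Not at hp
    have hneg : ∀ j, c j < 0 := fun j => lt_of_le_of_ne (hp j) (hz j)
    refine fin (fun j => if j = 0 then θ • y 0 else y j) (fun j => if j = 0 then -d * c 0 else c j)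
      ?_ ?_ ?_ ⟨0, ?_⟩ ⟨1, ?_⟩
    · intro j l hjl
      by_cases hj : j = 0
      · have hl : l ≠ 0 := fun h => hjl (hj.trans h.symm)
        simp only [if_pos hj, if_neg hl]
        rw [hBs, map_smul, h2 l 0 hl, smul_zero]
      · by_cases hl : l = 0
        · simp only [if_neg hj, if_pos hl]
          rw [map_smul, h2 j 0 hj, smul_zero]
        · simp only [if_neg hj, if_neg hl]
          exact h2 j l hjl
    · intro j
      by_cases hj : j = 0
      · simp only [if_pos hj]
        rw [map_smul, hBs, map_smul, hc, smul_eq_mul, smul_eq_mul, map_mul, ← hθ]; ring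
      · simp only [if_neg hj]
        exact hc j
    · intro j
      by_cases hj : j = 0
      · simp only [if_pos hj]
        exact mul_ne_zero (neg_ne_zero.2 hd.ne') (hz 0)
      · simp only [if_neg hj]
        exact hz j
    · rw [if_pos rfl]
      have := mul_pos hd (neg_pos.2 (hneg 0))
      linarith
    · rw [if_neg (by decide)]; exact hneg 1

end Pool.Agent.Work.QK
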