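import Pool.Agent.Work.MP_b62148_ag.QK.System
import Pool.Agent.Work.MP_b62148_ag.QK.Quad

set_option autoImplicit false

/-! Diagonal quadratic forms over a number field that contains an imaginary quadratic field
(helper60) -/

namespace Pool.Agent.Work.QK

open Module IntermediateField

namespace NF60

variable {L : Type*} [Field L] [NumberField L]

lemma mem_adjoin {θ : L} {d : ℚ} (hθ : θ ^ 2 = -(d : L)) {z : L} (hz : z ∈ ℚ⟮θ⟯) :
    ∃ a b : ℚ, z = a + b * θ := by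
  have hint : IsIntegral ℚ θ := Algebra.IsIntegral.isIntegral θ
  rw [← IntermediateField.mem_toSubalgebra,
    IntermediateField.adjoin_simple_toSubalgebra_of_isAlgebraic hint.isAlgebraic] at hz
  induction hz using Algebra.adjoin_induction with
  | mem x hx =>
    rw [Set.mem_singleton_iff] at hx
    exact ⟨0, 1, by rw [hx]; simp⟩
  | algebraMap r => exact ⟨r, 0, by simp⟩
  | add x y _ _ hx hy =>
    obtain ⟨a, b, rfl⟩ := hx
    obtain ⟨a', b', rfl⟩ := hy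
    exact ⟨a + a', b + b', by push_cast; ring⟩
  | mul x y _ _ hx hy =>
    obtain ⟨a, b, rfl⟩ := hx
    obtain ⟨a', b', rfl⟩ := hy
    refine ⟨a * a' - d * b * b', a * b' + a' * b, ?_⟩
    push_cast
    linear_combination (b : L) * b' * hθ

end NF60

/-- **number fields that contain an imaginary quadratic field** -/
theorem diagIso_numberField (meyer5 : ∀ (a : Fin 5 → ℚ), (∀ i, a i ≠ 0) → (∃ i, 0 < a i) →
    (∃ i, a i < 0) → ∃ x : Fin 5 → ℚ, x ≠ 0 ∧ ∑ i, a i * x i ^ 2 = 0)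
    {L : Type*} [Field L] [NumberField L] (θ : L) (d : ℚ) (hd : 0 < d) (hθ : θ ^ 2 = -(d : L))
    {e : ℕ} (he : Module.finrank ℚ L = 2 * e) : DiagIso L (3 * e + 4) := by
  have hmem : θ ∈ ℚ⟮θ⟯ := IntermediateField.mem_adjoin_simple_self ℚ θ
  -- the quadratic field
  have h1 : DiagIso ℚ⟮θ⟯ 7 := by
    refine diagIso_quad meyer5 (⟨θ, hmem⟩ : ℚ⟮θ⟯) d hd ?_ ?_
    · apply Subtype.ext
      show θ ^ 2 = ((algebraMap ℚ ℚ⟮θ⟯ (-d) : ℚ⟮θ⟯) : L)
      rw [hθ, eq_ratCast]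
      push_cast
      rfl
    · rintro ⟨z, hz⟩
      obtain ⟨a, b, hab⟩ := NF60.mem_adjoin hθ hz
      refine ⟨a, b, ?_⟩
      apply Subtype.ext
      show z = (((algebraMap ℚ ℚ⟮θ⟯ a + algebraMap ℚ ℚ⟮θ⟯ b * (⟨θ, hmem⟩ : ℚ⟮θ⟯) : ℚ⟮θ⟯)) : L)
      rw [hab, eq_ratCast, eq_ratCast]
      push_cast
      rfl
  -- the degree
  have h2 : finrank ℚ ℚ⟮θ⟯ ≠ 1 := by
    intro h
    rw [IntermediateField.finrank_eq_one_iff] at h
    rw [h, IntermediateField.mem_bot] at hmem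
    obtain ⟨r, hr⟩ := hmem
    rw [← hr, eq_ratCast] at hθ
    have h3 : (r ^ 2 : ℚ) = -d := by exact_mod_cast hθ
    have := sq_nonneg r
    linarith
  have h3 : 0 < finrank ℚ ℚ⟮θ⟯ := finrank_pos
  have h4 := finrank_mul_finrank ℚ ℚ⟮θ⟯ L
  rw [he] at h4
  have h5 : finrank ℚ⟮θ⟯ L ≤ e := by
    have h6 : 2 ≤ finrank ℚ ℚ⟮θ⟯ := by omega
    have h7 : 2 * finrank ℚ⟮θ⟯ L ≤ finrank ℚ ℚ⟮θ⟯ * finrank ℚ⟮θ⟯ L := Nat.mul_le_mul_right _ h6
    omega
  exact diagIso_ext (E := ℚ⟮θ⟯) (L := L) two_ne_zero (u := 6) h1 (by omega)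

end Pool.Agent.Work.QK
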