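import Mathlib
import Pool.Agent.Work.MP_b62148_ag.QK.Open

/-!
Every zero near the end of a chain of flex lines is a limit of rational zeros.
-/

set_option maxSynthPendingDepth 3

namespace Pool.Agent.Work.QK.Op

open MvPolynomial Pool.Agent.Work.PD6 Filter Topology Pool.Agent.Work.QK

variable {K : Type*} [Field K] {𝕜 : Type*} [RCLike 𝕜] [Algebra K 𝕜] {σ : Type*} [Fintype σ]
  [DecidableEq σ] (a : (σ →₀ ℕ) → K)

/-- two functionals of an independent family -/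
theorem pair_ns (f g : (σ → 𝕜) →L[𝕜] 𝕜) (h : LinearIndependent 𝕜 ![f, g]) :
    ∃ u, f u = 0 ∧ g u ≠ 0 := by
  obtain ⟨u, hu⟩ := onto_of_indep _ h ![0, 1]
  refine ⟨u, hu 0, ?_⟩
  have h1 : g u = 1 := hu 1
  rw [h1]
  exact one_ne_zero

theorem good_pair1 {P q r : σ → 𝕜} (h : LinearIndependent 𝕜 (fam a P q r)) :
    LinearIndependent 𝕜 ![T 𝕜 a P P P, T 𝕜 a P P q] := by
  have h1 := h.comp ![0, 1] (by decide)
  have h2 : ![T 𝕜 a P P P, T 𝕜 a P P q] = fam a P q r ∘ ![0, 1] := by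
    funext i; fin_cases i <;> rfl
  rw [h2]; exact h1

theorem good_pair2 {P q r : σ → 𝕜} (h : LinearIndependent 𝕜 (fam a P q r)) :
    LinearIndependent 𝕜 ![T 𝕜 a q q q, T 𝕜 a q q r] := by
  have h1 := h.comp ![2, 3] (by decide)
  have h2 : ![T 𝕜 a q q q, T 𝕜 a q q r] = fam a P q r ∘ ![2, 3] := by
    funext i; fin_cases i <;> rfl
  rw [h2]; exact h1

theorem good_triple {q r : σ → 𝕜} (h : LinearIndependent 𝕜 ![T 𝕜 a q q q, T 𝕜 a q q r])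
    (hq : q4 a q q q q = 0) (hr : q4 a q q q r = 0) (h3 : q4 a q r r r ≠ 0) :
    LinearIndependent 𝕜 ![T 𝕜 a q q q, T 𝕜 a q q r, T 𝕜 a r r r] := by
  rw [Fintype.linearIndependent_iff] at h ⊢
  intro c hc
  rw [Fin.sum_univ_three] at hc
  have e1 : c 0 * q4 a q q q q + c 1 * q4 a q q r q + c 2 * q4 a r r r q = 0 := by
    have := congrArg (fun f : (σ → 𝕜) →L[𝕜] 𝕜 => f q) hc
    exact this
  have k1 : q4 a q q r q = q4 a q q q r := q4_s34 a _ _ _ _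
  have k2 : q4 a r r r q = q4 a q r r r := by simp only [q4]; congr 1; ring
  rw [hq, k1, hr, k2, mul_zero, mul_zero, zero_add, zero_add] at e1
  have c2 : c 2 = 0 := (mul_eq_zero.mp e1).resolve_right h3
  have h2 := h ![c 0, c 1] (by
    rw [Fin.sum_univ_two]
    rw [c2] at hc
    simpa using hc)
  intro i
  fin_cases i
  · exact h2 0
  · exact h2 1
  · exact c2

/-- rank at a rational point -/
theorem rank_rat {ρ : ℕ} (y : σ → K)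
    (h : ∃ f : Fin ρ → σ, LinearIndependent 𝕜 fun i => hm a (bc 𝕜 y) (f i)) :
    ρ ≤ (hm a y).rank := by
  obtain ⟨f, hf⟩ := h
  rw [rank_rows]
  refine ⟨f, ?_⟩
  rw [Fintype.linearIndependent_iff] at hf ⊢
  intro c hc i
  have h1 := hf (fun i => algebraMap K 𝕜 (c i)) (by
    funext j
    have h2 := congrFun hc j
    simp only [Finset.sum_apply, Pi.smul_apply, smul_eq_mul, Pi.zero_apply] at h2 ⊢
    have h3 : ∀ i j, hm a (bc 𝕜 y) i j = algebraMap K 𝕜 (hm a y i j) := by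
      intro i j
      show q4 a (bc 𝕜 y) (bc 𝕜 y) (Pi.single i 1) (Pi.single j 1) = _
      rw [← bc_single (K := K), ← bc_single (K := K), q4_bc]
      rfl
    simp only [h3, ← map_mul, ← map_sum, h2, map_zero]) i
  exact (map_eq_zero _).mp h1

theorem near_of {ρ : ℕ} (happ : ∀ (p : σ → K), q4 a p p p p = 0 → ρ ≤ (hm a p).rank →
      (∃ u : σ → K, q4 a p p p u ≠ 0) → ∀ x : σ → 𝕜, q4 a (bc 𝕜 p) (bc 𝕜 p) (bc 𝕜 p) x = 0 →
      q4 a (bc 𝕜 p) (bc 𝕜 p) x x = 0 → q4 a (bc 𝕜 p) x x x ≠ 0 → q4 a x x x x = 0 →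
      (∃ u : σ → 𝕜, q4 a (bc 𝕜 p) (bc 𝕜 p) (bc 𝕜 p) u = 0 ∧ q4 a (bc 𝕜 p) (bc 𝕜 p) x u ≠ 0) →
      x ∈ closure (Zr a 𝕜))
    (p : σ → K) (hp : q4 a p p p p = 0)
    (hr : ρ ≤ (hm a p).rank) (q r : σ → 𝕜)
    (h1 : q4 a (bc 𝕜 p) (bc 𝕜 p) (bc 𝕜 p) q = 0) (h2 : q4 a (bc 𝕜 p) (bc 𝕜 p) q q = 0)
    (h3 : q4 a (bc 𝕜 p) q q q ≠ 0) (h4 : q4 a q q q q = 0) (hrq : ρ ≤ (hm a q).rank)
    (g1 : q4 a q q q r = 0) (g2 : q4 a q q r r = 0) (g3 : q4 a q r r r ≠ 0) (g4 : q4 a r r r r = 0)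
    (hli : LinearIndependent 𝕜 (fam a (bc 𝕜 p) q r)) :
    ∀ᶠ r' in 𝓝 r, q4 a r' r' r' r' = 0 → r' ∈ closure (Zr a 𝕜) := by
  -- a rational vector detecting a functional
  have hrat : ∀ y : σ → K, LinearIndependent 𝕜 ![T 𝕜 a (bc 𝕜 y) (bc 𝕜 y) (bc 𝕜 y)] →
      ∃ u : σ → K, q4 a y y y u ≠ 0 := by
    intro y hy
    by_contra hne
    push Not at hne
    have hz : T 𝕜 a (bc 𝕜 y) (bc 𝕜 y) (bc 𝕜 y) = 0 := by
      ext u
      have h5 : q4 a (bc 𝕜 y) (bc 𝕜 y) (bc 𝕜 y) u = 0 := by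
        have h6 : u = ∑ j, u j • (Pi.single j 1 : σ → 𝕜) := by
          rw [← pi_eq_sum_univ' u]
        have h7 : T 𝕜 a (bc 𝕜 y) (bc 𝕜 y) (bc 𝕜 y) u = 0 := by
          rw [h6, map_sum]
          refine Finset.sum_eq_zero fun j _ => ?_
          rw [map_smul]
          show u j * q4 a (bc 𝕜 y) (bc 𝕜 y) (bc 𝕜 y) (Pi.single j 1) = 0
          rw [← bc_single (K := K), q4_bc, hne, map_zero, mul_zero]
        exact h7
      exact h5
    have h8 := hy.ne_zero 0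
    exact h8 hz
  have hfst : ∀ {f g : (σ → 𝕜) →L[𝕜] 𝕜}, LinearIndependent 𝕜 ![f, g] →
      LinearIndependent 𝕜 ![f] := by
    intro f g h
    have h9 := h.comp ![0] (by intro x y _; exact Subsingleton.elim _ _)
    have h10 : ![f] = ![f, g] ∘ ![0] := by funext i; fin_cases i; rfl
    rw [h10]; exact h9
  have hG0 : Good a ρ (bc 𝕜 p) (q, r) := ⟨hli, h3, g3, (rank_rows _ _).mp hrq⟩
  have hO := (isOpen_good a ρ (bc 𝕜 p)).mem_nhds hG0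
  rw [nhds_prod_eq, Filter.mem_prod_iff] at hO
  obtain ⟨U, hU, W, hW, hUW⟩ := hO
  filter_upwards [open1 a (bc 𝕜 p) q r hli h1 h2 h4 g1 g2 hU, hW] with r' ⟨q', hq', e1, e2, e3, e4, e5⟩
    hr' hz
  have hG : Good a ρ (bc 𝕜 p) (q', r') := hUW ⟨hq', hr'⟩
  -- `q'` is a limit of rational zeros
  have hp0 : ∃ u : σ → K, q4 a p p p u ≠ 0 := hrat p (hfst (good_pair1 a hG.1))
  have hcl : q' ∈ closure (Zr a 𝕜) :=
    happ p hp hr hp0 q' e1 e2 hG.2.1 e3 (pair_ns _ _ (good_pair1 a hG.1))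
  rw [← closure_closure, mem_closure_iff_nhds]
  intro N hN
  have hO2 := (isOpen_good a ρ (bc 𝕜 p)).mem_nhds hG
  rw [nhds_prod_eq, Filter.mem_prod_iff] at hO2
  obtain ⟨A, hA, B, hB, hAB⟩ := hO2
  have h3' := open2 a q' r' (good_triple a (good_pair2 a hG.1) e3 e4 hG.2.2.1) e4 e5 hz
    (inter_mem hN hB)
  obtain ⟨y', ⟨hy1, hy2⟩, hy3⟩ := mem_closure_iff_nhds.mp hcl _ (inter_mem h3' hA)
  obtain ⟨y, hy0, rfl⟩ := hy3
  obtain ⟨r'', ⟨hN'', hB''⟩, f1, f2, f3⟩ := hy1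
  refine ⟨r'', hN'', ?_⟩
  have hG2 : Good a ρ (bc 𝕜 p) (bc 𝕜 y, r'') := hAB ⟨hy2, hB''⟩
  exact happ y hy0 (rank_rat a y hG2.2.2.2) (hrat y (hfst (good_pair2 a hG2.1))) r'' f1 f2
    hG2.2.2.1 f3 (pair_ns _ _ (good_pair2 a hG2.1))

end Pool.Agent.Work.QK.Op
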