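import Mathlib
import Pool.Agent.Work.MP_b62148_ag.QK.Near
import Pool.Agent.Work.MP_b62148_ag.QK.Ev

/-!
The chain theorem: a chain of two flex lines starting at a rational point gives density.
-/

set_option maxSynthPendingDepth 3

namespace Pool.Agent.Work.QK

open MvPolynomial Pool.Agent.Work.PD6 Filter Topology

/-- the approximation property -/
def ApproxProp {K : Type*} [Field K] (𝕜 : Type*) [RCLike 𝕜] [Algebra K 𝕜] {σ : Type*} [Fintype σ]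
    [DecidableEq σ] (ρ : ℕ) (a : (σ →₀ ℕ) → K) : Prop :=
  ∀ p : σ → K, q4 a p p p p = 0 → ρ ≤ (hm a p).rank →
    (∃ u : σ → K, q4 a p p p u ≠ 0) → ∀ x : σ → 𝕜, q4 a (bc 𝕜 p) (bc 𝕜 p) (bc 𝕜 p) x = 0 →
    q4 a (bc 𝕜 p) (bc 𝕜 p) x x = 0 → q4 a (bc 𝕜 p) x x x ≠ 0 → q4 a x x x x = 0 →
    (∃ u : σ → 𝕜, q4 a (bc 𝕜 p) (bc 𝕜 p) (bc 𝕜 p) u = 0 ∧ q4 a (bc 𝕜 p) (bc 𝕜 p) x u ≠ 0) →
    x ∈ closure (Zr a 𝕜)

/-- the elimination property -/
def ElimProp {K : Type*} [Field K] (𝕜 : Type*) [RCLike 𝕜] [Algebra K 𝕜] {σ : Type*} [Fintype σ]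
    (F : MvPolynomial σ K) : Prop :=
  ∀ (r : σ → 𝕜) (i : σ), aeval r F = 0 → aeval r (pderiv i F) ≠ 0 → ∀ G : MvPolynomial σ K,
    (∀ᶠ r' in 𝓝 r, aeval r' F = 0 → aeval r' G = 0) → F ∣ G

theorem chain {K : Type*} [Field K] {𝕜 : Type*} [RCLike 𝕜] [Algebra K 𝕜]
    {σ : Type*} [Fintype σ] [DecidableEq σ] {ρ : ℕ} {F : MvPolynomial σ K} {a : (σ →₀ ℕ) → K}
    (ha : IsPol 4 F a) (happ : ApproxProp 𝕜 ρ a) (helim : ElimProp 𝕜 F)
    (p : σ → K) (hp : q4 a p p p p = 0) (hr : ρ ≤ (hm a p).rank) (q r : σ → 𝕜)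
    (h1 : q4 a (bc 𝕜 p) (bc 𝕜 p) (bc 𝕜 p) q = 0) (h2 : q4 a (bc 𝕜 p) (bc 𝕜 p) q q = 0)
    (h3 : q4 a (bc 𝕜 p) q q q ≠ 0) (h4 : q4 a q q q q = 0) (hrq : ρ ≤ (hm a q).rank)
    (g1 : q4 a q q q r = 0) (g2 : q4 a q q r r = 0) (g3 : q4 a q r r r ≠ 0) (g4 : q4 a r r r r = 0)
    (hli : LinearIndependent 𝕜 (Op.fam a (bc 𝕜 p) q r))
    (G : MvPolynomial σ K) (hG : ∀ x : σ → K, aeval x F = 0 → aeval x G = 0) : F ∣ G := by
  have hnear := Op.near_of a (fun p hp hr hp0 x h1 h2 h3 h4 hns =>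
      happ p hp hr hp0 x h1 h2 h3 h4 hns) p hp hr q r h1 h2 h3 h4 hrq g1 g2 g3 g4 hli
  -- a nonvanishing partial derivative at `r`
  have hgr : ∃ i, aeval r (pderiv i F) ≠ 0 := by
    by_contra hne
    push Not at hne
    have k1 := isPol_grad (d := 3) ha r q
    simp only [hne, zero_mul, Finset.sum_const_zero] at k1
    have k2 : (ell r ^ 3 * ell q : MvPolynomial σ 𝕜) = ell q * ell r * ell r * ell r := by ring
    rw [k2] at k1
    have k3 : q4 a q r r r = 0 := by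
      rcases mul_eq_zero.mp k1.symm with h | h
      · exfalso
        have : (4 : 𝕜) ≠ 0 := by norm_num
        apply this
        rw [← h]
        norm_num
      · exact h
    exact g3 k3
  obtain ⟨i, hi⟩ := hgr
  refine helim r i (by rw [ev0 ha, g4]) hi G ?_
  filter_upwards [hnear] with r' hr' hz
  rw [ev0 ha] at hz
  have hcl := hr' hz
  have hclosed : IsClosed {x : σ → 𝕜 | aeval x G = 0} := by
    have k1 : Continuous fun x : σ → 𝕜 => aeval x G := by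
      have k2 : (fun x : σ → 𝕜 => aeval x G) = fun x => eval x (map (algebraMap K 𝕜) G) := by
        funext x
        rw [eval_map, aeval_def]
      rw [k2]
      exact MvPolynomial.continuous_eval _
    exact isClosed_eq k1 continuous_const
  have hsub : Zr a 𝕜 ⊆ {x : σ → 𝕜 | aeval x G = 0} := by
    rintro x ⟨y, hy, rfl⟩
    have k1 : aeval y F = 0 := by rw [ev0 ha]; exact hy
    have k2 := hG y k1
    have k3 := MvPolynomial.aeval_algebraMap_apply 𝕜 y G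
    show aeval (bc 𝕜 y) G = 0
    have k4 : (bc 𝕜 y : σ → 𝕜) = ⇑(algebraMap K 𝕜) ∘ y := rfl
    rw [k4, k3, k2, map_zero]
  exact closure_minimal hsub hclosed hcl

end Pool.Agent.Work.QK
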