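import Mathlib

/-!
Points with many algebraically independent coordinates over a countable field near a nonsingular
solution of a system of equations.
-/

namespace Pool.Agent.Work.QK

open MvPolynomial Topology

namespace GenAux

/-- a nonzero polynomial does not vanish on a nonempty open set -/
theorem exists_ne_zero {K : Type*} [Field K] {𝕜 : Type*} [RCLike 𝕜] [Algebra K 𝕜] {ι : Type*}
    [Finite ι] (p : MvPolynomial ι K) (hp : p ≠ 0) {U : Set (ι → 𝕜)} (hU : IsOpen U)
    (hne : U.Nonempty) : ∃ x ∈ U, aeval x p ≠ 0 := by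
  have := Fintype.ofFinite ι
  obtain ⟨x₀, hx₀⟩ := hne
  obtain ⟨ε, hε, hball⟩ := Metric.isOpen_iff.mp hU x₀ hx₀
  by_contra hcon
  push Not at hcon
  apply hp
  have hinj : Function.Injective (MvPolynomial.map (algebraMap K 𝕜) : MvPolynomial ι K →+* _) :=
    MvPolynomial.map_injective _ (algebraMap K 𝕜).injective
  apply hinj
  rw [map_zero]
  refine MvPolynomial.funext_set (fun i => Metric.ball (x₀ i) ε) (fun i => ?_) (fun x hx => ?_)
  · exact infinite_of_mem_nhds (x₀ i) (Metric.ball_mem_nhds _ hε)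
  · have h1 : x ∈ U := by
      apply hball
      rw [Metric.mem_ball, dist_pi_lt_iff hε]
      intro i
      exact hx i (Set.mem_univ i)
    have h2 := hcon x h1
    rw [map_zero, MvPolynomial.eval_map, ← MvPolynomial.aeval_def]
    exact h2

theorem continuous_aeval' {K : Type*} [Field K] {𝕜 : Type*} [RCLike 𝕜] [Algebra K 𝕜] {ι : Type*}
    (p : MvPolynomial ι K) : Continuous fun x : ι → 𝕜 => aeval x p := by
  have : (fun x : ι → 𝕜 => aeval x p) =
      fun x => MvPolynomial.eval x (MvPolynomial.map (algebraMap K 𝕜) p) := by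
    funext x
    rw [MvPolynomial.eval_map, ← MvPolynomial.aeval_def]
  rw [this]
  exact MvPolynomial.continuous_eval _

end GenAux

theorem exists_algIndep {K : Type*} [Field K] [Countable K] [CharZero K] {𝕜 : Type*} [RCLike 𝕜]
    [Algebra K 𝕜] {ι : Type*} [Finite ι] {U : Set (ι → 𝕜)} (hU : IsOpen U) (hne : U.Nonempty) :
    ∃ x ∈ U, AlgebraicIndependent K x := by
  have := Fintype.ofFinite ι
  have hc : Countable {p : MvPolynomial ι K // p ≠ 0} := by
    have h1 : Countable (MvPolynomial ι K) := by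
      have h1 := MvPolynomial.cardinalMk_le_max_lift (σ := ι) (R := K)
      rw [← Cardinal.mk_le_aleph0_iff]
      refine h1.trans ?_
      simp
    infer_instance
  have hdense : Dense (⋂ p : {p : MvPolynomial ι K // p ≠ 0}, {x : ι → 𝕜 | aeval x p.1 ≠ 0}) := by
    refine dense_iInter_of_isOpen (fun p => ?_) (fun p => ?_)
    · exact (isOpen_compl_singleton (x := (0 : 𝕜))).preimage (GenAux.continuous_aeval' p.1)
    · rw [dense_iff_inter_open]
      intro W hW hWne
      obtain ⟨x, hx, hx'⟩ := GenAux.exists_ne_zero p.1 p.2 hW hWne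
      exact ⟨x, hx, hx'⟩
  obtain ⟨x, hxU, hx⟩ := hdense.inter_open_nonempty U hU hne
  refine ⟨x, hxU, ?_⟩
  rw [algebraicIndependent_iff]
  intro p hp
  by_contra hp0
  have := Set.mem_iInter.mp hx ⟨p, hp0⟩
  exact this hp

namespace GenAux

/-- extension of a linearly independent family of functionals by coordinates -/
theorem exists_coords {𝕜 : Type*} [Field 𝕜] {ι : Type*} [Fintype ι] {c : ℕ}
    (g : Fin c → Module.Dual 𝕜 (ι → 𝕜)) (hli : LinearIndependent 𝕜 g) :
    ∃ J : Finset ι, J.card + c = Fintype.card ι ∧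
      ∀ x : ι → 𝕜, (∀ j, g j x = 0) → (∀ j ∈ J, x j = 0) → x = 0 := by
  classical
  let e : ι → Module.Dual 𝕜 (ι → 𝕜) := fun i => LinearMap.proj i
  have he : Function.Injective e := by
    intro i j hij
    by_contra hne
    have := congrArg (fun φ : Module.Dual 𝕜 (ι → 𝕜) => φ (Pi.single i 1)) hij
    simp only [e, LinearMap.proj_apply, Pi.single_eq_same, Pi.single_eq_of_ne (Ne.symm hne)] at this
    exact one_ne_zero this
  have hs : LinearIndepOn 𝕜 id (Set.range g) := hli.linearIndepOn_id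
  obtain ⟨b, hbt, hsb, htb, hb⟩ :=
    exists_linearIndepOn_id_extension hs (Set.subset_union_left (t := Set.range e))
  let J : Finset ι := Finset.univ.filter (fun i => e i ∈ b \ Set.range g)
  have hbeq : b = Set.range g ∪ e '' (J : Set ι) := by
    ext φ
    constructor
    · intro hφ
      by_cases h : φ ∈ Set.range g
      · exact Or.inl h
      · rcases hbt hφ with h' | ⟨i, rfl⟩
        · exact absurd h' h
        · refine Or.inr ⟨i, ?_, rfl⟩
          simp only [J, Finset.coe_filter, Finset.mem_univ, true_and, Set.mem_ofPred_eq]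
          exact ⟨hφ, h⟩
    · rintro (h | ⟨i, hi, rfl⟩)
      · exact hsb h
      · simp only [J, Finset.coe_filter, Finset.mem_univ, true_and, Set.mem_ofPred_eq] at hi
        exact hi.1
  have hdisj : Disjoint (Set.range g) (e '' (J : Set ι)) := by
    rw [Set.disjoint_left]
    rintro φ hφ ⟨i, hi, rfl⟩
    simp only [J, Finset.coe_filter, Finset.mem_univ, true_and, Set.mem_ofPred_eq] at hi
    exact hi.2 hφ
  have hemem : ∀ i, e i ∈ Submodule.span 𝕜 b := fun i => htb (Or.inr ⟨i, rfl⟩)
  have hspan : Submodule.span 𝕜 b = ⊤ := by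
    rw [eq_top_iff]
    intro φ _
    have hφ : φ = ∑ i, φ (Pi.single i 1) • e i := by
      apply LinearMap.ext
      intro x
      rw [LinearMap.sum_apply]
      simp only [LinearMap.smul_apply, e, LinearMap.proj_apply, smul_eq_mul]
      conv_lhs => rw [LinearMap.pi_apply_eq_sum_univ φ x]
      refine Finset.sum_congr rfl fun i _ => ?_
      rw [smul_eq_mul, mul_comm]
      congr 2
      funext j
      rw [Pi.single_apply]
      simp only [eq_comm]
    rw [hφ]
    exact Submodule.sum_mem _ fun i _ => Submodule.smul_mem _ _ (hemem i)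
  have hbfin : b.Finite := by
    rw [hbeq]
    exact (Set.finite_range g).union ((Finset.finite_toSet J).image e)
  have hcard1 : b.ncard = Fintype.card ι := by
    have : Fintype b := hbfin.fintype
    have h1 : Module.finrank 𝕜 (Submodule.span 𝕜 b) = b.toFinset.card :=
      finrank_span_set_eq_card hb
    rw [hspan, finrank_top, Subspace.dual_finrank_eq, Module.finrank_fintype_fun_eq_card] at h1
    rw [Set.ncard_eq_toFinset_card', h1]
  have hcard2 : b.ncard = c + J.card := by
    rw [hbeq, Set.ncard_union_eq hdisj (Set.finite_range g) ((Finset.finite_toSet J).image e),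
      Set.ncard_image_of_injective _ he, Set.ncard_coe_finset]
    congr 1
    rw [← Set.image_univ, Set.ncard_image_of_injective _ hli.injective, Set.ncard_univ,
      Nat.card_eq_fintype_card, Fintype.card_fin]
  refine ⟨J, by omega, fun x hg hJ => ?_⟩
  have hker : ∀ φ ∈ Submodule.span 𝕜 b, φ x = 0 := by
    intro φ hφ
    induction hφ using Submodule.span_induction with
    | mem φ hφ =>
      rw [hbeq] at hφ
      rcases hφ with ⟨j, rfl⟩ | ⟨i, hi, rfl⟩
      · exact hg j
      · exact hJ i hi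
    | zero => rfl
    | add φ ψ _ _ h1 h2 => rw [LinearMap.add_apply, h1, h2, add_zero]
    | smul a φ _ h => rw [LinearMap.smul_apply, h, smul_zero]
  funext i
  exact hker (e i) (hemem i)

end GenAux

theorem exists_generic {K : Type*} [Field K] [Countable K] [CharZero K] {𝕜 : Type*} [RCLike 𝕜]
    [Algebra K 𝕜] {ι : Type*} [Fintype ι] {c : ℕ}
    (f : Fin c → (ι → 𝕜) → 𝕜) (f' : Fin c → ((ι → 𝕜) →L[𝕜] 𝕜)) (x₀ : ι → 𝕜)
    (hf : ∀ j, HasStrictFDerivAt (f j) (f' j) x₀) (hli : LinearIndependent 𝕜 f')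
    {U : Set (ι → 𝕜)} (hU : U ∈ 𝓝 x₀) :
    ∃ x ∈ U, (∀ j, f j x = f j x₀) ∧ ∃ J : Finset ι, J.card + c = Fintype.card ι ∧
      AlgebraicIndependent K (fun j : J => x j) := by
  classical
  let g : Fin c → Module.Dual 𝕜 (ι → 𝕜) := fun j => (f' j : (ι → 𝕜) →ₗ[𝕜] 𝕜)
  have hg : LinearIndependent 𝕜 g := by
    have h1 : g = fun j => (ContinuousLinearMap.coeLM 𝕜 : ((ι → 𝕜) →L[𝕜] 𝕜) →ₗ[𝕜] _) (f' j) := rfl
    rw [h1]
    refine hli.map' _ ?_
    rw [LinearMap.ker_eq_bot]
    exact ContinuousLinearMap.coe_injective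
  obtain ⟨J, hJ, hJx⟩ := GenAux.exists_coords g hg
  let F : (ι → 𝕜) → (Fin c → 𝕜) × (J → 𝕜) := fun x => (fun j => f j x, fun j => x j)
  let F' : (ι → 𝕜) →L[𝕜] (Fin c → 𝕜) × (J → 𝕜) :=
    (ContinuousLinearMap.pi fun j => f' j).prod
      (ContinuousLinearMap.pi fun j : J => ContinuousLinearMap.proj (R := 𝕜) (φ := fun _ : ι => 𝕜) j.1)
  have hF : HasStrictFDerivAt F F' x₀ := by
    refine HasStrictFDerivAt.prodMk ?_ ?_
    · exact hasStrictFDerivAt_pi.mpr hf
    · exact hasStrictFDerivAt_pi.mpr fun j =>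
        (ContinuousLinearMap.proj (R := 𝕜) (φ := fun _ : ι => 𝕜) j.1).hasStrictFDerivAt
  have hinj : Function.Injective F' := by
    rw [injective_iff_map_eq_zero]
    intro x hx
    apply hJx x
    · intro j
      exact congrFun (congrArg Prod.fst hx) j
    · intro j hj
      exact congrFun (congrArg Prod.snd hx) ⟨j, hj⟩
  have hsurj : Function.Surjective F' := by
    have h1 : Module.finrank 𝕜 (ι → 𝕜) = Module.finrank 𝕜 ((Fin c → 𝕜) × (J → 𝕜)) := by
      rw [Module.finrank_prod, Module.finrank_fintype_fun_eq_card,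
        Module.finrank_fintype_fun_eq_card, Module.finrank_fintype_fun_eq_card, Fintype.card_fin,
        Fintype.card_coe]
      omega
    exact (LinearMap.injective_iff_surjective_of_finrank_eq_finrank
      (f := (F' : (ι → 𝕜) →ₗ[𝕜] (Fin c → 𝕜) × (J → 𝕜))) h1).mp hinj
  have hmap := hF.map_nhds_eq_of_surj (LinearMap.range_eq_top.mpr hsurj)
  have hFU : F '' U ∈ 𝓝 (F x₀) := by
    rw [← hmap]
    exact Filter.image_mem_map hU
  have hcont : Continuous fun y : J → 𝕜 => ((fun j => f j x₀, y) : (Fin c → 𝕜) × (J → 𝕜)) := by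
    fun_prop
  have hpre : (fun y : J → 𝕜 => ((fun j => f j x₀, y) : (Fin c → 𝕜) × (J → 𝕜))) ⁻¹' (F '' U) ∈
      𝓝 (fun j : J => x₀ j) := hcont.continuousAt.preimage_mem_nhds hFU
  obtain ⟨W, hWsub, hWo, hW0⟩ := mem_nhds_iff.mp hpre
  obtain ⟨y, hyW, hy⟩ := exists_algIndep (K := K) hWo ⟨_, hW0⟩
  obtain ⟨x, hxU, hx⟩ := hWsub hyW
  refine ⟨x, hxU, fun j => congrFun (congrArg Prod.fst hx) j, J, hJ, ?_⟩
  have h2 : (fun j : J => x j) = y := congrArg Prod.snd hx
  rw [h2]
  exact hy

end Pool.Agent.Work.QK
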