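import Mathlib
import Pool.Agent.Work.MP_b62148_ag.QK.Chain
import Pool.Agent.Work.MP_b62148_ag.QK.Gen

/-!
From a nonsingular pair `(q, v)` to density, through a generic pair.
-/

set_option maxSynthPendingDepth 3

namespace Pool.Agent.Work.QK

open MvPolynomial Pool.Agent.Work.PD6 Filter Topology Op

section Aux

variable {K : Type*} [Field K] {σ : Type*} [Fintype σ] (a : (σ →₀ ℕ) → K) {R : Type*} [CommRing R]
  [Algebra K R]

theorem exp3 (x y z u v : σ → R) (s t : R) :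
    q4 a x y z (s • u + t • v) = s * q4 a x y z u + t * q4 a x y z v := by
  rw [q4_add, q4_smul, q4_smul]

/-- `[q (sq+tv) (sq+tv) (sq+tv)]` -/
theorem exp_qrrr (q v : σ → R) (s t : R) : q4 a q (s • q + t • v) (s • q + t • v) (s • q + t • v) =
    s ^ 3 * q4 a q q q q + 3 * s ^ 2 * t * q4 a q q q v + 3 * s * t ^ 2 * q4 a q q v v +
      t ^ 3 * q4 a q v v v := by
  have e : (ell q * ell (s • q + t • v) * ell (s • q + t • v) * ell (s • q + t • v) :
      MvPolynomial σ R) = C (s ^ 3) * (ell q * ell q * ell q * ell q) +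
      C (3 * s ^ 2 * t) * (ell q * ell q * ell q * ell v) +
      C (3 * s * t ^ 2) * (ell q * ell q * ell v * ell v) +
      C (t ^ 3) * (ell q * ell v * ell v * ell v) := by
    simp only [ell_add, ell_smul, map_mul, map_pow, map_ofNat]
    ring
  simp only [q4, e, map_add, Lf_C_mul]

/-- `[(sq+tv)^4]` -/
theorem exp_rrrr (q v : σ → R) (s t : R) :
    q4 a (s • q + t • v) (s • q + t • v) (s • q + t • v) (s • q + t • v) =
    s ^ 4 * q4 a q q q q + 4 * s ^ 3 * t * q4 a q q q v + 6 * s ^ 2 * t ^ 2 * q4 a q q v v +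
      4 * s * t ^ 3 * q4 a q v v v + t ^ 4 * q4 a v v v v := by
  have e : (ell (s • q + t • v) * ell (s • q + t • v) * ell (s • q + t • v) *
      ell (s • q + t • v) : MvPolynomial σ R) = C (s ^ 4) * (ell q * ell q * ell q * ell q) +
      C (4 * s ^ 3 * t) * (ell q * ell q * ell q * ell v) +
      C (6 * s ^ 2 * t ^ 2) * (ell q * ell q * ell v * ell v) +
      C (4 * s * t ^ 3) * (ell q * ell v * ell v * ell v) +
      C (t ^ 4) * (ell v * ell v * ell v * ell v) := by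
    simp only [ell_add, ell_smul, map_mul, map_pow, map_ofNat]
    ring
  simp only [q4, e, map_add, Lf_C_mul]

/-- `[q^2 (sq+tv)^2]` -/
theorem exp_qqrr (q v : σ → R) (s t : R) : q4 a q q (s • q + t • v) (s • q + t • v) =
    s ^ 2 * q4 a q q q q + 2 * s * t * q4 a q q q v + t ^ 2 * q4 a q q v v := by
  have e : (ell q * ell q * ell (s • q + t • v) * ell (s • q + t • v) :
      MvPolynomial σ R) = C (s ^ 2) * (ell q * ell q * ell q * ell q) +
      C (2 * s * t) * (ell q * ell q * ell q * ell v) +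
      C (t ^ 2) * (ell q * ell q * ell v * ell v) := by
    simp only [ell_add, ell_smul, map_mul, map_pow, map_ofNat]
    ring
  simp only [q4, e, map_add, Lf_C_mul]

/-- `[q^2 (sq+tv) u]` -/
theorem exp_qqru (q v u : σ → R) (s t : R) : q4 a q q (s • q + t • v) u =
    s * q4 a q q q u + t * q4 a q q v u := by
  rw [q4_s34, exp3, q4_s34 a q q u q, q4_s34 a q q u v]

/-- `[q (sq+tv)^2 u]` -/
theorem exp_qrru (q v u : σ → R) (s t : R) : q4 a q (s • q + t • v) (s • q + t • v) u =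
    s ^ 2 * q4 a q q q u + 2 * s * t * q4 a q q v u + t ^ 2 * q4 a q v v u := by
  have e : (ell q * ell (s • q + t • v) * ell (s • q + t • v) * ell u :
      MvPolynomial σ R) = C (s ^ 2) * (ell q * ell q * ell q * ell u) +
      C (2 * s * t) * (ell q * ell q * ell v * ell u) +
      C (t ^ 2) * (ell q * ell v * ell v * ell u) := by
    simp only [ell_add, ell_smul, map_mul, map_pow, map_ofNat]
    ring
  simp only [q4, e, map_add, Lf_C_mul]

end Aux

/-- the conclusion of the theorem on five independent functionals -/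
def Ind5 {K : Type*} [Field K] (𝕜 : Type*) [RCLike 𝕜] [Algebra K 𝕜] {σ : Type*} [Fintype σ]
    (a : (σ →₀ ℕ) → K) (p : σ → K) : Prop :=
  ∀ q v : σ → 𝕜, q4 a (bc 𝕜 p) (bc 𝕜 p) (bc 𝕜 p) q = 0 → q4 a (bc 𝕜 p) (bc 𝕜 p) q q = 0 →
    q4 a q q q q = 0 → q4 a q q q v = 0 → q4 a q q v v = 0 →
    (∀ α β : 𝕜, (∀ u, α * q4 a (bc 𝕜 p) (bc 𝕜 p) (bc 𝕜 p) u +
      β * q4 a (bc 𝕜 p) (bc 𝕜 p) q u = 0) → α = 0 ∧ β = 0) →
    ∀ J : Finset (σ ⊕ σ), J.card + 5 = 2 * Fintype.card σ →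
    AlgebraicIndependent K (fun j : J => Sum.elim q v (j : σ ⊕ σ)) →
    (∀ c : Fin 5 → 𝕜, (∀ u, c 0 * q4 a (bc 𝕜 p) (bc 𝕜 p) (bc 𝕜 p) u +
      c 1 * q4 a (bc 𝕜 p) (bc 𝕜 p) q u + c 2 * q4 a q q q u + c 3 * q4 a q q v u +
      c 4 * q4 a q v v u = 0) → c = 0) ∧ q4 a q v v v ≠ 0

variable {K : Type*} [Field K] [Countable K] [CharZero K] {𝕜 : Type*} [RCLike 𝕜] [Algebra K 𝕜]
  {σ : Type*} [Fintype σ] [DecidableEq σ] {ρ : ℕ} {F : MvPolynomial σ K} {a : (σ →₀ ℕ) → K}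

theorem start (ha : IsPol 4 F a) (happ : ApproxProp 𝕜 ρ a) (helim : ElimProp 𝕜 F)
    (p : σ → K) (hind : Ind5 𝕜 a p) (hgp : ∃ u : σ → 𝕜, q4 a (bc 𝕜 p) (bc 𝕜 p) (bc 𝕜 p) u ≠ 0)
    (hp : q4 a p p p p = 0) (hr : ρ ≤ (hm a p).rank) (q v : σ → 𝕜)
    (h1 : q4 a (bc 𝕜 p) (bc 𝕜 p) (bc 𝕜 p) q = 0) (h2 : q4 a (bc 𝕜 p) (bc 𝕜 p) q q = 0)
    (h3 : q4 a (bc 𝕜 p) q q q ≠ 0) (h4 : q4 a q q q q = 0) (hrq : ρ ≤ (hm a q).rank)
    (hpq : ∃ u, q4 a (bc 𝕜 p) (bc 𝕜 p) (bc 𝕜 p) u = 0 ∧ q4 a (bc 𝕜 p) (bc 𝕜 p) q u ≠ 0)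
    (g1 : q4 a q q q v = 0) (g2 : q4 a q q v v = 0)
    (hqv : ∃ u, q4 a q q q u = 0 ∧ q4 a q q v u ≠ 0)
    (G : MvPolynomial σ K) (hG : ∀ x : σ → K, aeval x F = 0 → aeval x G = 0) : F ∣ G := by
  obtain ⟨P, hP⟩ : ∃ P : σ → 𝕜, P = bc 𝕜 p := ⟨_, rfl⟩
  have hPP : q4 a P P P P = 0 := by rw [hP, q4_bc, hp, map_zero]
  rw [← hP] at h1 h2 h3 hpq hgp
  -- the two projections
  let π₁ : (σ ⊕ σ → 𝕜) →L[𝕜] (σ → 𝕜) :=
    ContinuousLinearMap.pi fun i => ContinuousLinearMap.proj (Sum.inl i)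
  let π₂ : (σ ⊕ σ → 𝕜) →L[𝕜] (σ → 𝕜) :=
    ContinuousLinearMap.pi fun i => ContinuousLinearMap.proj (Sum.inr i)
  have e1 : ∀ x y : σ → 𝕜, π₁ (Sum.elim x y) = x := fun x y => rfl
  have e2 : ∀ x y : σ → 𝕜, π₂ (Sum.elim x y) = y := fun x y => rfl
  obtain ⟨x₀, hx₀⟩ : ∃ x₀ : σ ⊕ σ → 𝕜, x₀ = Sum.elim q v := ⟨_, rfl⟩
  have hx1 : π₁ x₀ = q := by rw [hx₀]; exact e1 _ _
  have hx2 : π₂ x₀ = v := by rw [hx₀]; exact e2 _ _
  have hf : HasStrictFDerivAt (fun x => π₁ x) π₁ x₀ := π₁.hasStrictFDerivAt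
  have hs : HasStrictFDerivAt (fun x => π₂ x) π₂ x₀ := π₂.hasStrictFDerivAt
  have hc : HasStrictFDerivAt (fun _ : σ ⊕ σ → 𝕜 => P) (0 : (σ ⊕ σ → 𝕜) →L[𝕜] (σ → 𝕜)) x₀ :=
    hasStrictFDerivAt_const _ _
  obtain ⟨L1, hL1, hL1'⟩ := hs4 a hc hc hc hf
  obtain ⟨L2, hL2, hL2'⟩ := hs4 a hc hc hf hf
  obtain ⟨L3, hL3, hL3'⟩ := hs4 a hf hf hf hf
  obtain ⟨L4, hL4, hL4'⟩ := hs4 a hf hf hf hs
  obtain ⟨L5, hL5, hL5'⟩ := hs4 a hf hf hs hs
  have z1 : ∀ x y z : σ → 𝕜, q4 a 0 x y z = 0 := fun x y z => by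
    simpa using q4_smul1 a 0 x y z 0
  have z2 : ∀ x y z : σ → 𝕜, q4 a x 0 y z = 0 := fun x y z => by
    simpa using q4_smul2 a x 0 y z 0
  have z3 : ∀ x y z : σ → 𝕜, q4 a x y 0 z = 0 := fun x y z => by
    simpa using q4_smul3 a x y 0 z 0
  have z4 : ∀ x y z : σ → 𝕜, q4 a x y z 0 = 0 := fun x y z => by
    simpa using q4_smul a x y z 0 0
  rw [hx1] at hL1' hL2' hL3' hL4' hL5'
  rw [hx2] at hL4' hL5'
  have E1 : ∀ δ η : σ → 𝕜, L1 (Sum.elim δ η) = q4 a P P P δ := by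
    intro δ η
    rw [hL1', e1]
    simp only [_root_.zero_apply, z1, z2, z3, zero_add]
  have E2 : ∀ δ η : σ → 𝕜, L2 (Sum.elim δ η) = 2 * q4 a P P q δ := by
    intro δ η
    rw [hL2', e1]
    simp only [_root_.zero_apply, z1, z2, zero_add]
    rw [q4_s34 a P P δ q]; ring
  have E3 : ∀ δ η : σ → 𝕜, L3 (Sum.elim δ η) = 4 * q4 a q q q δ := by
    intro δ η
    rw [hL3', e1]
    have k1 : q4 a δ q q q = q4 a q q q δ := q4_perm a (by ring)
    have k2 : q4 a q δ q q = q4 a q q q δ := q4_perm a (by ring)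
    have k3 : q4 a q q δ q = q4 a q q q δ := q4_perm a (by ring)
    rw [k1, k2, k3]; ring
  have E4 : ∀ δ η : σ → 𝕜, L4 (Sum.elim δ η) = 3 * q4 a q q v δ + q4 a q q q η := by
    intro δ η
    rw [hL4', e1, e2]
    have k1 : q4 a δ q q v = q4 a q q v δ := q4_perm a (by ring)
    have k2 : q4 a q δ q v = q4 a q q v δ := q4_perm a (by ring)
    have k3 : q4 a q q δ v = q4 a q q v δ := q4_perm a (by ring)
    rw [k1, k2, k3]; ring
  have E5 : ∀ δ η : σ → 𝕜, L5 (Sum.elim δ η) = 2 * q4 a q v v δ + 2 * q4 a q q v η := by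
    intro δ η
    rw [hL5', e1, e2]
    have k1 : q4 a δ q v v = q4 a q v v δ := q4_perm a (by ring)
    have k2 : q4 a q δ v v = q4 a q v v δ := q4_perm a (by ring)
    have k3 : q4 a q q η v = q4 a q q v η := q4_perm a (by ring)
    rw [k1, k2, k3]; ring
  have hqP : q4 a q q q P ≠ 0 := by
    have k : q4 a q q q P = q4 a P q q q := q4_perm a (by ring)
    rw [k]; exact h3
  have hli : LinearIndependent 𝕜 ![L1, L2, L3, L4, L5] := by
    rw [Fintype.linearIndependent_iff]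
    intro c hc
    have hrel : ∀ δ η : σ → 𝕜, c 0 * q4 a P P P δ + c 1 * (2 * q4 a P P q δ) +
        c 2 * (4 * q4 a q q q δ) + c 3 * (3 * q4 a q q v δ + q4 a q q q η) +
        c 4 * (2 * q4 a q v v δ + 2 * q4 a q q v η) = 0 := by
      intro δ η
      have k := congrArg (fun f : (σ ⊕ σ → 𝕜) →L[𝕜] 𝕜 => f (Sum.elim δ η)) hc
      rw [Fin.sum_univ_five] at k
      have k' : c 0 * L1 (Sum.elim δ η) + c 1 * L2 (Sum.elim δ η) + c 2 * L3 (Sum.elim δ η) +
        c 3 * L4 (Sum.elim δ η) + c 4 * L5 (Sum.elim δ η) = 0 := k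
      rw [E1, E2, E3, E4, E5] at k'
      exact k'
    obtain ⟨u, hu1, hu2⟩ := hqv
    have c4 : c 4 = 0 := by
      have k := hrel 0 u
      simp only [z4, hu1, mul_zero, add_zero, zero_add] at k
      rcases mul_eq_zero.mp k with k | k
      · exact k
      · exact absurd ((mul_eq_zero.mp k).resolve_left two_ne_zero) hu2
    have c3 : c 3 = 0 := by
      have k := hrel 0 P
      simp only [z4, c4, mul_zero, add_zero, zero_add, zero_mul] at k
      exact (mul_eq_zero.mp k).resolve_right hqP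
    have hPPqP : q4 a P P q P = 0 := by
      have k : q4 a P P q P = q4 a P P P q := q4_perm a (by ring)
      rw [k]; exact h1
    have c2 : c 2 = 0 := by
      have k := hrel P 0
      simp only [hPP, hPPqP, c3, c4, mul_zero, add_zero, zero_add, zero_mul] at k
      exact (mul_eq_zero.mp k).resolve_right (mul_ne_zero (by norm_num) hqP)
    obtain ⟨w, hw1, hw2⟩ := hpq
    have c1 : c 1 = 0 := by
      have k := hrel w 0
      simp only [hw1, c2, c3, c4, mul_zero, add_zero, zero_add, zero_mul] at k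
      exact (mul_eq_zero.mp k).resolve_right (mul_ne_zero two_ne_zero hw2)
    obtain ⟨w', hw'⟩ := hgp
    have c0 : c 0 = 0 := by
      have k := hrel w' 0
      simp only [c1, c2, c3, c4, add_zero, zero_mul] at k
      exact (mul_eq_zero.mp k).resolve_right hw'
    intro i
    fin_cases i
    · exact c0
    · exact c1
    · exact c2
    · exact c3
    · exact c4
  -- the open conditions
  let U : Set (σ ⊕ σ → 𝕜) := {x | LinearIndependent 𝕜 ![T 𝕜 a P P P, T 𝕜 a P P (π₁ x)] ∧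
    q4 a P (π₁ x) (π₁ x) (π₁ x) ≠ 0 ∧
    ∃ f : Fin ρ → σ, LinearIndependent 𝕜 fun i => hm a (π₁ x) (f i)}
  have hUo : IsOpen U := by
    have k1 : IsOpen {x : σ ⊕ σ → 𝕜 |
        LinearIndependent 𝕜 ![T 𝕜 a P P P, T 𝕜 a P P (π₁ x)]} := by
      have hc : Continuous fun x : σ ⊕ σ → 𝕜 => ![T 𝕜 a P P P, T 𝕜 a P P (π₁ x)] := by
        refine continuous_pi fun i => ?_
        fin_cases i
        · exact continuous_const
        · exact continuous_T3 a continuous_const continuous_const π₁.continuous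
      exact isOpen_setOfPred_linearIndependent.preimage hc
    have k2 : IsOpen {x : σ ⊕ σ → 𝕜 | q4 a P (π₁ x) (π₁ x) (π₁ x) ≠ 0} :=
      isOpen_ne_fun (continuous_q4 a continuous_const π₁.continuous π₁.continuous π₁.continuous)
        continuous_const
    have k3 : IsOpen {x : σ ⊕ σ → 𝕜 | ∃ f : Fin ρ → σ,
        LinearIndependent 𝕜 fun i => hm a (π₁ x) (f i)} := by
      have : {x : σ ⊕ σ → 𝕜 | ∃ f : Fin ρ → σ,
          LinearIndependent 𝕜 fun i => hm a (π₁ x) (f i)} = ⋃ f : Fin ρ → σ,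
          {x : σ ⊕ σ → 𝕜 | LinearIndependent 𝕜 fun i => hm a (π₁ x) (f i)} := by
        ext x; simp
      rw [this]
      refine isOpen_iUnion fun f => ?_
      have hc : Continuous fun x : σ ⊕ σ → 𝕜 => fun i => hm a (π₁ x) (f i) := by
        refine continuous_pi fun i => continuous_pi fun j => ?_
        exact continuous_q4 a π₁.continuous π₁.continuous continuous_const continuous_const
      exact isOpen_setOfPred_linearIndependent.preimage hc
    exact k1.inter (k2.inter k3)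
  have hUx : x₀ ∈ U := by
    refine ⟨?_, ?_, ?_⟩
    · rw [hx1, Fintype.linearIndependent_iff]
      intro c hc
      rw [Fin.sum_univ_two] at hc
      have hrel : ∀ δ : σ → 𝕜, c 0 * q4 a P P P δ + c 1 * q4 a P P q δ = 0 := by
        intro δ
        exact congrArg (fun f : (σ → 𝕜) →L[𝕜] 𝕜 => f δ) hc
      obtain ⟨w, hw1, hw2⟩ := hpq
      have c1 : c 1 = 0 := by
        have k := hrel w
        rw [hw1, mul_zero, zero_add] at k
        exact (mul_eq_zero.mp k).resolve_right hw2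
      obtain ⟨w', hw'⟩ := hgp
      have c0 : c 0 = 0 := by
        have k := hrel w'
        rw [c1, zero_mul, add_zero] at k
        exact (mul_eq_zero.mp k).resolve_right hw'
      intro i
      fin_cases i
      · exact c0
      · exact c1
    · rw [hx1]; exact h3
    · rw [hx1]; exact (rank_rows _ _).mp hrq
  obtain ⟨x, hxU, hx, J, hJ, hJa⟩ := exists_generic (K := K) (𝕜 := 𝕜)
    ![fun x => q4 a P P P (π₁ x), fun x => q4 a P P (π₁ x) (π₁ x),
      fun x => q4 a (π₁ x) (π₁ x) (π₁ x) (π₁ x), fun x => q4 a (π₁ x) (π₁ x) (π₁ x) (π₂ x),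
      fun x => q4 a (π₁ x) (π₁ x) (π₂ x) (π₂ x)] ![L1, L2, L3, L4, L5] x₀
    (by
      intro j
      fin_cases j
      · exact hL1
      · exact hL2
      · exact hL3
      · exact hL4
      · exact hL5) hli (hUo.mem_nhds hUx)
  have x1 : q4 a P P P (π₁ x) = 0 := by
    have k : q4 a P P P (π₁ x) = q4 a P P P (π₁ x₀) := hx 0
    rw [k, hx1, h1]
  have x2 : q4 a P P (π₁ x) (π₁ x) = 0 := by
    have k : q4 a P P (π₁ x) (π₁ x) = q4 a P P (π₁ x₀) (π₁ x₀) := hx 1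
    rw [k, hx1, h2]
  have x3 : q4 a (π₁ x) (π₁ x) (π₁ x) (π₁ x) = 0 := by
    have k : q4 a (π₁ x) (π₁ x) (π₁ x) (π₁ x) = q4 a (π₁ x₀) (π₁ x₀) (π₁ x₀) (π₁ x₀) := hx 2
    rw [k, hx1, h4]
  have x4 : q4 a (π₁ x) (π₁ x) (π₁ x) (π₂ x) = 0 := by
    have k : q4 a (π₁ x) (π₁ x) (π₁ x) (π₂ x) = q4 a (π₁ x₀) (π₁ x₀) (π₁ x₀) (π₂ x₀) := hx 3
    rw [k, hx1, hx2, g1]
  have x5 : q4 a (π₁ x) (π₁ x) (π₂ x) (π₂ x) = 0 := by
    have k : q4 a (π₁ x) (π₁ x) (π₂ x) (π₂ x) = q4 a (π₁ x₀) (π₁ x₀) (π₂ x₀) (π₂ x₀) := hx 4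
    rw [k, hx1, hx2, g2]
  obtain ⟨hU1, hU2, hU3⟩ := hxU
  obtain ⟨q', hq'⟩ : ∃ q', q' = π₁ x := ⟨_, rfl⟩
  obtain ⟨v', hv'⟩ : ∃ v', v' = π₂ x := ⟨_, rfl⟩
  have hxe : x = Sum.elim q' v' := by
    rw [hq', hv']
    funext i
    cases i <;> rfl
  rw [← hq'] at x1 x2 x3 x4 x5 hU1 hU2 hU3
  rw [← hv'] at x4 x5
  have h5 := hind q' v' (by rw [← hP]; exact x1) (by rw [← hP]; exact x2) x3 x4 x5 (by
    intro α β hαβ
    rw [← hP] at hαβ
    rw [Fintype.linearIndependent_iff] at hU1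
    have k := hU1 ![α, β] (by
      rw [Fin.sum_univ_two]
      ext u
      exact hαβ u)
    exact ⟨k 0, k 1⟩) J (by
      rw [hJ, Fintype.card_sum]; ring) (by
      rw [← hxe]; exact hJa)
  rw [← hP] at h5
  obtain ⟨h5, hC⟩ := h5
  -- the end of the chain
  obtain ⟨s, hs'⟩ : ∃ s : 𝕜, s = q4 a v' v' v' v' := ⟨_, rfl⟩
  obtain ⟨t, ht⟩ : ∃ t : 𝕜, t = -4 * q4 a q' v' v' v' := ⟨_, rfl⟩
  have ht0 : t ≠ 0 := by
    rw [ht]
    exact mul_ne_zero (by norm_num) hC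
  refine chain ha happ helim p hp hr q' (s • q' + t • v') (by rw [← hP]; exact x1)
    (by rw [← hP]; exact x2) (by rw [← hP]; exact hU2) x3 ((rank_rows _ _).mpr hU3) ?_ ?_ ?_ ?_ ?_
    G hG
  · rw [exp3, x3, x4]; ring
  · rw [exp_qqrr, x3, x4, x5]; ring
  · rw [exp_qrrr, x3, x4, x5]
    have k : s ^ 3 * 0 + 3 * s ^ 2 * t * 0 + 3 * s * t ^ 2 * 0 + t ^ 3 * q4 a q' v' v' v' =
      t ^ 3 * q4 a q' v' v' v' := by ring
    rw [k]
    exact mul_ne_zero (pow_ne_zero _ ht0) hC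
  · rw [exp_rrrr, x3, x4, x5, ← hs']
    have k : s ^ 4 * 0 + 4 * s ^ 3 * t * 0 + 6 * s ^ 2 * t ^ 2 * 0 +
      4 * s * t ^ 3 * q4 a q' v' v' v' + t ^ 4 * s = s * t ^ 3 * (4 * q4 a q' v' v' v' + t) := by
      ring
    rw [k, ht]
    ring
  · rw [Fintype.linearIndependent_iff]
    intro c hc
    have hrel : ∀ u : σ → 𝕜, c 0 * q4 a P P P u + c 1 * q4 a P P q' u + c 2 * q4 a q' q' q' u +
        c 3 * q4 a q' q' (s • q' + t • v') u +
        c 4 * q4 a q' (s • q' + t • v') (s • q' + t • v') u = 0 := by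
      intro u
      have k := congrArg (fun f : (σ → 𝕜) →L[𝕜] 𝕜 => f u) hc
      rw [Fin.sum_univ_five] at k
      rw [hP]
      exact k
    have k := h5 ![c 0, c 1, c 2 + s * c 3 + s ^ 2 * c 4, t * c 3 + 2 * s * t * c 4,
      t ^ 2 * c 4] (by
      intro u
      have k1 := hrel u
      rw [exp_qqru, exp_qrru] at k1
      have k2 : c 0 * q4 a P P P u + c 1 * q4 a P P q' u +
        (c 2 + s * c 3 + s ^ 2 * c 4) * q4 a q' q' q' u +
        (t * c 3 + 2 * s * t * c 4) * q4 a q' q' v' u + t ^ 2 * c 4 * q4 a q' v' v' u = 0 := by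
        linear_combination k1
      exact k2)
    have c4 : c 4 = 0 := by
      have k4 : t ^ 2 * c 4 = 0 := congrFun k 4
      exact (mul_eq_zero.mp k4).resolve_left (pow_ne_zero _ ht0)
    have c3 : c 3 = 0 := by
      have k3 : t * c 3 + 2 * s * t * c 4 = 0 := congrFun k 3
      rw [c4, mul_zero, add_zero] at k3
      exact (mul_eq_zero.mp k3).resolve_left ht0
    have c2 : c 2 = 0 := by
      have k2 : c 2 + s * c 3 + s ^ 2 * c 4 = 0 := congrFun k 2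
      rw [c4, c3, mul_zero, mul_zero, add_zero, add_zero] at k2
      exact k2
    have c0 : c 0 = 0 := congrFun k 0
    have c1 : c 1 = 0 := congrFun k 1
    intro i
    fin_cases i
    · exact c0
    · exact c1
    · exact c2
    · exact c3
    · exact c4

end Pool.Agent.Work.QK
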