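import Mathlib
import Pool.Agent.Work.MP_b62148_ag.QK.Start

/-!
The generic residual point of a flex line through a rational point, and the two final assemblies.
-/

set_option maxSynthPendingDepth 3

namespace Pool.Agent.Work.QK

open MvPolynomial Pool.Agent.Work.PD6 Filter Topology Op

/-- the conclusion of the rank theorem -/
def RankBd {K : Type*} [Field K] (𝕜 : Type*) [RCLike 𝕜] [Algebra K 𝕜] {σ : Type*} [Fintype σ]
    [DecidableEq σ] (a : (σ →₀ ℕ) → K) : Prop :=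
  ∀ (q : σ → 𝕜) (J : Finset σ), J.card + 3 = Fintype.card σ →
    AlgebraicIndependent K (fun j : J => q (j : σ)) → Fintype.card σ ≤ (hm a q).rank + 3

variable {K : Type*} [Field K] [Countable K] [CharZero K] {𝕜 : Type*} [RCLike 𝕜] [Algebra K 𝕜]
  {σ : Type*} [Fintype σ] [DecidableEq σ] {ρ : ℕ} {F : MvPolynomial σ K} {a : (σ →₀ ℕ) → K}

theorem gen_q (p : σ → K) (hgp : ∃ u : σ → 𝕜, q4 a (bc 𝕜 p) (bc 𝕜 p) (bc 𝕜 p) u ≠ 0)
    (hp : q4 a p p p p = 0) (q : σ → 𝕜)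
    (h1 : q4 a (bc 𝕜 p) (bc 𝕜 p) (bc 𝕜 p) q = 0) (h2 : q4 a (bc 𝕜 p) (bc 𝕜 p) q q = 0)
    (h3 : q4 a (bc 𝕜 p) q q q ≠ 0) (h4 : q4 a q q q q = 0)
    (hpq : ∃ u, q4 a (bc 𝕜 p) (bc 𝕜 p) (bc 𝕜 p) u = 0 ∧ q4 a (bc 𝕜 p) (bc 𝕜 p) q u ≠ 0)
    {U : Set (σ → 𝕜)} (hU : U ∈ 𝓝 q) :
    ∃ q' ∈ U, q4 a (bc 𝕜 p) (bc 𝕜 p) (bc 𝕜 p) q' = 0 ∧ q4 a (bc 𝕜 p) (bc 𝕜 p) q' q' = 0 ∧
      q4 a q' q' q' q' = 0 ∧ q4 a (bc 𝕜 p) q' q' q' ≠ 0 ∧
      (∃ u, q4 a (bc 𝕜 p) (bc 𝕜 p) (bc 𝕜 p) u = 0 ∧ q4 a (bc 𝕜 p) (bc 𝕜 p) q' u ≠ 0) ∧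
      ∃ J : Finset σ, J.card + 3 = Fintype.card σ ∧
        AlgebraicIndependent K (fun j : J => q' (j : σ)) := by
  obtain ⟨P, hP⟩ : ∃ P : σ → 𝕜, P = bc 𝕜 p := ⟨_, rfl⟩
  have hPP : q4 a P P P P = 0 := by rw [hP, q4_bc, hp, map_zero]
  rw [← hP] at h1 h2 h3 hpq hgp ⊢
  have hf : HasStrictFDerivAt (fun x : σ → 𝕜 => x) (ContinuousLinearMap.id 𝕜 (σ → 𝕜)) q :=
    hasStrictFDerivAt_id q
  have hc : HasStrictFDerivAt (fun _ : σ → 𝕜 => P) (0 : (σ → 𝕜) →L[𝕜] (σ → 𝕜)) q :=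
    hasStrictFDerivAt_const _ _
  obtain ⟨L1, hL1, hL1'⟩ := hs4 a hc hc hc hf
  obtain ⟨L2, hL2, hL2'⟩ := hs4 a hc hc hf hf
  obtain ⟨L3, hL3, hL3'⟩ := hs4 a hf hf hf hf
  have z1 : ∀ x y z : σ → 𝕜, q4 a 0 x y z = 0 := fun x y z => by
    simpa using q4_smul1 a 0 x y z 0
  have z2 : ∀ x y z : σ → 𝕜, q4 a x 0 y z = 0 := fun x y z => by
    simpa using q4_smul2 a x 0 y z 0
  have z3 : ∀ x y z : σ → 𝕜, q4 a x y 0 z = 0 := fun x y z => by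
    simpa using q4_smul3 a x y 0 z 0
  have E1 : ∀ δ : σ → 𝕜, L1 δ = q4 a P P P δ := by
    intro δ
    rw [hL1']
    simp only [_root_.zero_apply, z1, z2, z3, zero_add]
    rfl
  have E2 : ∀ δ : σ → 𝕜, L2 δ = 2 * q4 a P P q δ := by
    intro δ
    rw [hL2']
    simp only [_root_.zero_apply, z1, z2, zero_add]
    show q4 a P P δ q + q4 a P P q δ = _
    rw [q4_s34 a P P δ q]; ring
  have E3 : ∀ δ : σ → 𝕜, L3 δ = 4 * q4 a q q q δ := by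
    intro δ
    rw [hL3']
    show q4 a δ q q q + q4 a q δ q q + q4 a q q δ q + q4 a q q q δ = _
    have k1 : q4 a δ q q q = q4 a q q q δ := q4_perm a (by ring)
    have k2 : q4 a q δ q q = q4 a q q q δ := q4_perm a (by ring)
    have k3 : q4 a q q δ q = q4 a q q q δ := q4_perm a (by ring)
    rw [k1, k2, k3]; ring
  have hqP : q4 a q q q P ≠ 0 := by
    have k : q4 a q q q P = q4 a P q q q := q4_perm a (by ring)
    rw [k]; exact h3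
  have hPPqP : q4 a P P q P = 0 := by
    have k : q4 a P P q P = q4 a P P P q := q4_perm a (by ring)
    rw [k]; exact h1
  obtain ⟨w, hw1, hw2⟩ := hpq
  obtain ⟨w', hw'⟩ := hgp
  have hli : LinearIndependent 𝕜 ![L1, L2, L3] := by
    rw [Fintype.linearIndependent_iff]
    intro c hc
    have hrel : ∀ δ : σ → 𝕜, c 0 * q4 a P P P δ + c 1 * (2 * q4 a P P q δ) +
        c 2 * (4 * q4 a q q q δ) = 0 := by
      intro δ
      have k := congrArg (fun f : (σ → 𝕜) →L[𝕜] 𝕜 => f δ) hc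
      rw [Fin.sum_univ_three] at k
      have k' : c 0 * L1 δ + c 1 * L2 δ + c 2 * L3 δ = 0 := k
      rw [E1, E2, E3] at k'
      exact k'
    have c2 : c 2 = 0 := by
      have k := hrel P
      simp only [hPP, hPPqP, mul_zero, zero_add] at k
      exact (mul_eq_zero.mp k).resolve_right (mul_ne_zero (by norm_num) hqP)
    have c1 : c 1 = 0 := by
      have k := hrel w
      simp only [hw1, c2, mul_zero, add_zero, zero_add, zero_mul] at k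
      exact (mul_eq_zero.mp k).resolve_right (mul_ne_zero two_ne_zero hw2)
    have c0 : c 0 = 0 := by
      have k := hrel w'
      simp only [c1, c2, add_zero, zero_mul] at k
      exact (mul_eq_zero.mp k).resolve_right hw'
    intro i
    fin_cases i
    · exact c0
    · exact c1
    · exact c2
  let V : Set (σ → 𝕜) := {x | q4 a P P x w ≠ 0 ∧ q4 a P x x x ≠ 0}
  have hVo : IsOpen V :=
    (isOpen_ne_fun (continuous_q4 a continuous_const continuous_const continuous_id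
      continuous_const) continuous_const).inter
    (isOpen_ne_fun (continuous_q4 a continuous_const continuous_id continuous_id continuous_id)
        continuous_const)
  have hVq : q ∈ V := ⟨hw2, h3⟩
  obtain ⟨x, hxU, hx, J, hJ, hJa⟩ := exists_generic (K := K) (𝕜 := 𝕜)
    ![fun x => q4 a P P P x, fun x => q4 a P P x x, fun x => q4 a x x x x] ![L1, L2, L3] q
    (by
      intro j
      fin_cases j
      · exact hL1
      · exact hL2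
      · exact hL3) hli (inter_mem hU (hVo.mem_nhds hVq))
  refine ⟨x, hxU.1, ?_, ?_, ?_, hxU.2.2, ⟨w, hw1, hxU.2.1⟩, J, hJ, hJa⟩
  · have k : q4 a P P P x = q4 a P P P q := hx 0
    rw [k, h1]
  · have k : q4 a P P x x = q4 a P P q q := hx 1
    rw [k, h2]
  · have k : q4 a x x x x = q4 a q q q q := hx 2
    rw [k, h4]

/-- the common end of the two cases: near `q` every point has a nonsingular tangent isotropic
vector -/
theorem assemble (ha : IsPol 4 F a) (happ : ApproxProp 𝕜 ρ a) (helim : ElimProp 𝕜 F)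
    (hrk : RankBd 𝕜 a) (hρ : ρ + 3 ≤ Fintype.card σ)
    (p : σ → K) (hind : Ind5 𝕜 a p) (hgp : ∃ u : σ → 𝕜, q4 a (bc 𝕜 p) (bc 𝕜 p) (bc 𝕜 p) u ≠ 0)
    (hp : q4 a p p p p = 0) (hr : ρ ≤ (hm a p).rank) (q : σ → 𝕜)
    (h1 : q4 a (bc 𝕜 p) (bc 𝕜 p) (bc 𝕜 p) q = 0) (h2 : q4 a (bc 𝕜 p) (bc 𝕜 p) q q = 0)
    (h3 : q4 a (bc 𝕜 p) q q q ≠ 0) (h4 : q4 a q q q q = 0)
    (hpq : ∃ u, q4 a (bc 𝕜 p) (bc 𝕜 p) (bc 𝕜 p) u = 0 ∧ q4 a (bc 𝕜 p) (bc 𝕜 p) q u ≠ 0)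
    (hex : ∀ᶠ q' in 𝓝 q, Fintype.card σ ≤ (hm a q').rank + 3 → q4 a (bc 𝕜 p) q' q' q' ≠ 0 →
      ∃ v : σ → 𝕜, q4 a q' q' q' v = 0 ∧ q4 a q' q' v v = 0 ∧
      ∃ u, q4 a q' q' q' u = 0 ∧ q4 a q' q' v u ≠ 0)
    (G : MvPolynomial σ K) (hG : ∀ x : σ → K, aeval x F = 0 → aeval x G = 0) : F ∣ G := by
  obtain ⟨q', hq', x1, x2, x4, x3, xpq, J, hJ, hJa⟩ := gen_q p hgp hp q h1 h2 h3 h4 hpq hex
  have hrq := hrk q' J hJ hJa
  obtain ⟨v, g1, g2, hqv⟩ := hq' hrq x3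
  exact start ha happ helim p hind hgp hp hr q' v x1 x2 x3 x4 (by omega) xpq g1 g2 hqv G hG

end Pool.Agent.Work.QK
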