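import Mathlib
import Pool.Agent.Work.MP_b62148_ag.QK.Defs
import Pool.Agent.Work.MP_b62148_ag.QK.Gen
import Pool.Agent.Work.MP_b62148_ag.QK.Birch
import Pool.Agent.Work.MP_b62148_ag.QK.Open

/-!
The Hessian of a smooth quartic form has large rank at points with many algebraically independent
coordinates.
-/

namespace Pool.Agent.Work.QK

open MvPolynomial Pool.Agent.Work.PD6

namespace RankAux

/-- the field generated by finitely many elements over a countable field is countable -/
theorem countable_adjoin {K Ω : Type*} [Field K] [Field Ω] [Algebra K Ω] [Countable K] {τ : Type*}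
    [Finite τ] (z : τ → Ω) : Countable (IntermediateField.adjoin K (Set.range z)) := by
  have h1 : Countable (MvPolynomial τ K) := by
    have h1 := MvPolynomial.cardinalMk_le_max_lift (σ := τ) (R := K)
    rw [← Cardinal.mk_le_aleph0_iff]
    refine h1.trans ?_
    simp
  have h2 : ((IntermediateField.adjoin K (Set.range z) : IntermediateField K Ω) : Set Ω) ⊆
      Set.range fun p : MvPolynomial τ K × MvPolynomial τ K => aeval z p.1 / aeval z p.2 := by
    intro x hx
    obtain ⟨r, s, h⟩ := (IntermediateField.mem_adjoin_range_iff K z x).mp hx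
    exact ⟨(r, s), h.symm⟩
  exact (Set.Countable.mono h2 (Set.countable_range _)).to_subtype

theorem der_sum {K Ω : Type*} [Field K] [Field Ω] [Algebra K Ω] {ι : Type*} (s : Finset ι)
    (f : ι → Derivation K Ω Ω) (x : Ω) : (∑ l ∈ s, f l) x = ∑ l ∈ s, f l x := by
  classical
  induction s using Finset.induction_on with
  | empty => simp
  | insert l s hl ih => rw [Finset.sum_insert hl, Finset.sum_insert hl, Derivation.add_apply, ih]

section Ring

variable {K : Type*} [Field K] {σ : Type*} [Fintype σ] [DecidableEq σ] (a : (σ →₀ ℕ) → K)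
  {R : Type*} [CommRing R] [Algebra K R]

theorem q4_sum (x y z w : σ → R) :
    q4 a x y z w = ∑ j, w j * q4 a x y z (Pi.single j 1) := by
  let L : (σ → R) →ₗ[R] R :=
    { toFun := fun w => q4 a x y z w
      map_add' := fun w w' => Op.q4_add a x y z w w'
      map_smul' := fun c w => Op.q4_smul a x y z w c }
  have h : L w = ∑ j, w j • L (fun j' => if j = j' then 1 else 0) :=
    LinearMap.pi_apply_eq_sum_univ L w
  have h2 : ∀ j : σ, (fun j' => if j = j' then (1 : R) else 0) = Pi.single j 1 := by
    intro j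
    funext j'
    rw [Pi.single_apply]
    simp only [eq_comm]
  simp only [h2, smul_eq_mul] at h
  exact h

theorem hm_mulVec (q y : σ → R) (i : σ) :
    (hm a q).mulVec y i = q4 a q q (Pi.single i 1) y := by
  rw [q4_sum a q q (Pi.single i 1) y]
  simp only [Matrix.mulVec, dotProduct, hm, Matrix.of_apply]
  refine Finset.sum_congr rfl fun j _ => ?_
  ring

theorem q4_eq_zero_of_mulVec (q y : σ → R) (h : (hm a q).mulVec y = 0) (u : σ → R) :
    q4 a q q y u = 0 := by
  rw [q4_sum]
  refine Finset.sum_eq_zero fun i _ => ?_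
  rw [Op.q4_s34, ← hm_mulVec, h, Pi.zero_apply, mul_zero]

end Ring

end RankAux

open RankAux in
theorem rank_ge {K : Type*} [Field K] [Countable K] [CharZero K] {𝕜 : Type*} [RCLike 𝕜]
    [Algebra K 𝕜] {σ : Type*} [Fintype σ] [DecidableEq σ]
    {F : MvPolynomial σ K} (hs : PD.SmoothForm F) {a : (σ →₀ ℕ) → K} (ha : IsPol 4 F a)
    (q : σ → 𝕜) (J : Finset σ) (hJ : J.card + 3 = Fintype.card σ)
    (halg : AlgebraicIndependent K fun j : J => q (j : σ)) :
    Fintype.card σ ≤ (hm a q).rank + 3 := by
  by_contra hlt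
  push Not at hlt
  -- four independent vectors in the kernel
  have hker : 4 ≤ Module.finrank 𝕜 (LinearMap.ker (hm a q).mulVecLin) := by
    have h1 := LinearMap.finrank_range_add_finrank_ker (hm a q).mulVecLin
    rw [Module.finrank_fintype_fun_eq_card] at h1
    have h2 : Module.finrank 𝕜 (LinearMap.range (hm a q).mulVecLin) = (hm a q).rank := rfl
    omega
  obtain ⟨n', hn'⟩ := exists_linearIndependent_of_le_finrank hker
  let n : Fin 4 → (σ → 𝕜) := fun j => (n' j : σ → 𝕜)
  have hn : LinearIndependent 𝕜 n :=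
    hn'.map' (LinearMap.ker (hm a q).mulVecLin).subtype (Submodule.ker_subtype _)
  have hn0 : ∀ j, (hm a q).mulVec (n j) = 0 := fun j => (n' j).2
  -- the field generated by all coordinates
  let z : σ ⊕ (Fin 4 × σ) → 𝕜 := Sum.elim q fun p => n p.1 p.2
  let E := IntermediateField.adjoin K (Set.range z)
  have hE : Countable E := countable_adjoin z
  have hqE : ∀ i, q i ∈ E := fun i => IntermediateField.subset_adjoin K _ ⟨Sum.inl i, rfl⟩
  have hnE : ∀ j i, n j i ∈ E := fun j i => IntermediateField.subset_adjoin K _ ⟨Sum.inr (j, i), rfl⟩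
  have hEchar : CharZero E := charZero_of_injective_algebraMap (algebraMap K E).injective
  obtain ⟨t, -, ht⟩ := exists_algIndep (K := E) (𝕜 := 𝕜) (ι := Fin 4) (U := Set.univ)
    isOpen_univ Set.univ_nonempty
  -- derivations
  choose D1 hD1 using fun l : J => exists_der (K := K) (fun j : J => q (j : σ)) halg
    (Pi.single l 1 : J → 𝕜)
  choose D2 hD2 using fun l : Fin 4 => exists_der (K := E) t ht (Pi.single l 1 : Fin 4 → 𝕜)
  let y : σ → 𝕜 := fun i => ∑ j, t j * n j i
  have hyker : (hm a q).mulVec y = 0 := by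
    have : y = ∑ j, t j • n j := by
      funext i
      simp only [y, Finset.sum_apply, Pi.smul_apply, smul_eq_mul]
    rw [this, Matrix.mulVec_sum]
    refine Finset.sum_eq_zero fun j _ => ?_
    rw [Matrix.mulVec_smul, hn0, smul_zero]
  let Φ : ((J → 𝕜) × (Fin 4 → 𝕜)) →ₗ[𝕜] (σ → 𝕜) :=
    { toFun := fun p i => ∑ l, p.1 l * D1 l (y i - q i) + ∑ l, p.2 l * D2 l (y i - q i)
      map_add' := fun p p' => by
        funext i
        simp only [Prod.fst_add, Prod.snd_add, Pi.add_apply, add_mul, Finset.sum_add_distrib]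
        ring
      map_smul' := fun c p => by
        funext i
        simp only [Prod.smul_fst, Prod.smul_snd, Pi.smul_apply, smul_eq_mul, RingHom.id_apply,
          mul_add, Finset.mul_sum, mul_assoc] }
  have hΦ : LinearMap.ker Φ ≠ ⊥ := by
    apply LinearMap.ker_ne_bot_of_finrank_lt
    rw [Module.finrank_prod, Module.finrank_fintype_fun_eq_card,
      Module.finrank_fintype_fun_eq_card, Module.finrank_fintype_fun_eq_card, Fintype.card_coe,
      Fintype.card_fin]
    omega
  obtain ⟨p, hp, hp0⟩ := (Submodule.ne_bot_iff _).mp hΦ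
  let D : Derivation K 𝕜 𝕜 := ∑ l, p.1 l • D1 l + ∑ l, p.2 l • (D2 l).restrictScalars K
  have hD : ∀ x, D x = ∑ l, p.1 l * D1 l x + ∑ l, p.2 l * D2 l x := by
    intro x
    simp only [D, Derivation.add_apply, der_sum]
    rfl
  have hDw : ∀ i, D (y i - q i) = 0 := by
    intro i
    rw [hD]
    exact congrFun (LinearMap.mem_ker.mp hp) i
  have hDq : ∀ i, D (q i) = 0 := by
    refine const_of_rel hs ha D q (fun i => y i - q i) 0 0 1 0 0 0 1 hDw ?_ ?_ ?_ ?_ ?_ ?_ ?_ ?_ ?_
    · intro i; simp
    · simp
    · exact D.map_one_eq_zero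
    · simp
    · simp
    · simp
    · exact D.map_one_eq_zero
    · simp
    · intro u
      have h1 : (1 : 𝕜) • q + (fun i => y i - q i) = y := by
        funext i
        simp
      rw [h1, q4_eq_zero_of_mulVec a q y hyker]
      ring
  have hD2q : ∀ (l : Fin 4) (x : 𝕜), x ∈ E → D2 l x = 0 := fun l x hx =>
    (D2 l).map_algebraMap (⟨x, hx⟩ : E)
  have hp1 : p.1 = 0 := by
    funext l
    have h1 := hDq l
    rw [hD] at h1
    have h2 : ∑ l', p.2 l' * D2 l' (q l) = 0 :=
      Finset.sum_eq_zero fun l' _ => by rw [hD2q l' _ (hqE _), mul_zero]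
    rw [h2, add_zero] at h1
    have h3 : ∀ l' : J, D1 l' (q l) = (Pi.single l' 1 : J → 𝕜) l := fun l' => hD1 l' l
    simp only [h3] at h1
    rw [Finset.sum_eq_single l (fun l' _ hl' => by
      rw [Pi.single_eq_of_ne (Ne.symm hl'), mul_zero]) (fun h => absurd (Finset.mem_univ l) h),
      Pi.single_eq_same, mul_one] at h1
    exact h1
  have hp2 : p.2 = 0 := by
    have h1 : ∀ i, D (y i) = 0 := by
      intro i
      have := hDw i
      rw [map_sub, hDq, sub_zero] at this
      exact this
    have h2 : ∑ l, p.2 l • n l = 0 := by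
      funext i
      have h3 := h1 i
      rw [hD, hp1] at h3
      simp only [Pi.zero_apply, zero_mul, Finset.sum_const_zero, zero_add] at h3
      have h4 : ∀ l, D2 l (y i) = n l i := by
        intro l
        simp only [y, map_sum, Derivation.leibniz, smul_eq_mul, hD2q l _ (hnE _ _), mul_zero,
          zero_add]
        have h5 : ∀ j, D2 l (t j) = (Pi.single l 1 : Fin 4 → 𝕜) j := fun j => hD2 l j
        simp only [h5]
        rw [Finset.sum_eq_single l (fun j _ hj => by
          rw [Pi.single_eq_of_ne hj, mul_zero]) (fun h => absurd (Finset.mem_univ l) h),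
          Pi.single_eq_same, mul_one]
      simp only [h4] at h3
      simp only [Finset.sum_apply, Pi.smul_apply, smul_eq_mul, Pi.zero_apply]
      exact h3
    funext l
    exact Fintype.linearIndependent_iff.mp hn _ h2 l
  exact hp0 (Prod.ext hp1 hp2)

end Pool.Agent.Work.QK
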