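import Mathlib
import Pool.Agent.Work.MP_b62148_ag.QK.GenQ
import Pool.Agent.Work.MP_b62148_ag.QK.Rank

/-!
The two final assemblies: the complex case and the real case.
-/

set_option maxSynthPendingDepth 3

namespace Pool.Agent.Work.QK

open MvPolynomial Pool.Agent.Work.PD6 Filter Topology Op

/-- the rank does not drop under base change -/
theorem rank_bc {K : Type*} [Field K] {R : Type*} [Field R] [Algebra K R]
    {σ : Type*} [Fintype σ] [DecidableEq σ] (a : (σ →₀ ℕ) → K) (p : σ → K) {ρ : ℕ}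
    (h : ρ ≤ (hm a p).rank) : ρ ≤ (hm a (bc R p)).rank := by
  rw [rank_rows] at h ⊢
  obtain ⟨f, hf⟩ := h
  refine ⟨f, ?_⟩
  have h1 := (linearIndependent_algebraMap_comp_iff (R := K) (S := R)).mpr hf
  have h2 : (fun i => hm a (bc R p) (f i)) = fun i => algebraMap K R ∘ (hm a p) (f i) := by
    funext i j
    show q4 a (bc R p) (bc R p) (Pi.single (f i) 1) (Pi.single j 1) = _
    have h3 : ∀ k : σ, (Pi.single k 1 : σ → R) = bc R (Pi.single k 1 : σ → K) := by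
      intro k
      funext l
      by_cases hl : l = k
      · subst hl; simp [bc]
      · simp [bc, hl]
    have h4 := map_Lf a (Algebra.ofId K R) (ell p * ell p * ell (Pi.single (f i) 1) *
      ell (Pi.single j 1))
    simp only [map_mul, map_ell] at h4
    rw [h3, h3]
    exact h4.symm
  rw [h2]
  exact h1

section Dot

variable {K : Type*} [Field K] {σ : Type*} [Fintype σ] [DecidableEq σ] (a : (σ →₀ ℕ) → K)
  {R : Type*} [CommRing R] [Algebra K R]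

theorem dot_g (q v : σ → R) : (fun i => q4 a q q q (Pi.single i 1)) ⬝ᵥ v = q4 a q q q v := by
  rw [RankAux.q4_sum a q q q v, dotProduct]
  exact Finset.sum_congr rfl fun i _ => mul_comm _ _

theorem dot_h (q u v : σ → R) : u ⬝ᵥ (hm a q).mulVec v = q4 a q q v u := by
  rw [RankAux.q4_sum a q q v u, dotProduct]
  refine Finset.sum_congr rfl fun i _ => ?_
  rw [RankAux.hm_mulVec, q4_s34]

theorem hm_isSymm (q : σ → R) : (hm a q).IsSymm := by
  ext i j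
  rw [Matrix.transpose_apply, hm, Matrix.of_apply, Matrix.of_apply, q4_s34]

end Dot

/-- existence of nonradical isotropic vectors over the complex numbers -/
def NIso (σ : Type*) [Fintype σ] : Prop :=
  ∀ (M : Matrix σ σ ℂ), M.IsSymm → ∀ g : σ → ℂ, 5 ≤ M.rank →
    ∃ v : σ → ℂ, g ⬝ᵥ v = 0 ∧ v ⬝ᵥ M.mulVec v = 0 ∧
      ∃ u : σ → ℂ, g ⬝ᵥ u = 0 ∧ u ⬝ᵥ M.mulVec v ≠ 0

theorem exists_niso {K : Type*} [Field K] [Algebra K ℂ] {σ : Type*} [Fintype σ] [DecidableEq σ]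
    (a : (σ →₀ ℕ) → K) (hn : NIso σ) (q : σ → ℂ) (hr : 5 ≤ (hm a q).rank) :
    ∃ v : σ → ℂ, q4 a q q q v = 0 ∧ q4 a q q v v = 0 ∧
      ∃ u, q4 a q q q u = 0 ∧ q4 a q q v u ≠ 0 := by
  obtain ⟨v, h1, h2, u, h3, h4⟩ := hn (hm a q) (hm_isSymm a q)
    (fun i => q4 a q q q (Pi.single i 1)) hr
  rw [dot_g] at h1 h3
  rw [dot_h] at h2 h4
  exact ⟨v, h1, h2, u, h3, h4⟩

theorem complex_case {K : Type*} [Field K] [Countable K] [CharZero K] [Algebra K ℂ]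
    {σ : Type*} [Fintype σ] [DecidableEq σ] {ρ : ℕ} {F : MvPolynomial σ K} {a : (σ →₀ ℕ) → K}
    (ha : IsPol 4 F a) (happ : ApproxProp ℂ ρ a) (helim : ElimProp ℂ F) (hrk : RankBd ℂ a)
    (hn : NIso σ) (hρ : ρ + 3 ≤ Fintype.card σ) (hρ5 : 5 ≤ ρ)
    (p : σ → K) (hind : Ind5 ℂ a p) (hgp : ∃ u : σ → ℂ, q4 a (bc ℂ p) (bc ℂ p) (bc ℂ p) u ≠ 0)
    (hp : q4 a p p p p = 0) (hr : ρ ≤ (hm a p).rank) (v : σ → ℂ)
    (h1 : q4 a (bc ℂ p) (bc ℂ p) (bc ℂ p) v = 0) (h2 : q4 a (bc ℂ p) (bc ℂ p) v v = 0)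
    (h3 : q4 a (bc ℂ p) v v v ≠ 0)
    (G : MvPolynomial σ K) (hG : ∀ x : σ → K, aeval x F = 0 → aeval x G = 0) : F ∣ G := by
  obtain ⟨P, hP⟩ : ∃ P : σ → ℂ, P = bc ℂ p := ⟨_, rfl⟩
  have hPP : q4 a P P P P = 0 := by rw [hP, q4_bc, hp, map_zero]
  -- a nonsingular direction
  obtain ⟨w, w1, w2, w3, u, hu1, hu2⟩ : ∃ w : σ → ℂ, q4 a P P P w = 0 ∧ q4 a P P w w = 0 ∧
      q4 a P w w w ≠ 0 ∧ ∃ u, q4 a P P P u = 0 ∧ q4 a P P w u ≠ 0 := by
    rw [← hP] at h1 h2 h3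
    by_cases hns : ∃ u, q4 a P P P u = 0 ∧ q4 a P P v u ≠ 0
    · exact ⟨v, h1, h2, h3, hns⟩
    · push Not at hns
      obtain ⟨z, k1, k2, u, k3, k4⟩ := exists_niso a hn P (by
        rw [hP]; exact rank_bc a p (hρ5.trans hr))
      have hcont : Continuous fun ε : ℂ => q4 a P (v + ε • z) (v + ε • z) (v + ε • z) := by
        have hc : Continuous fun ε : ℂ => v + ε • z :=
          continuous_const.add (continuous_id.smul continuous_const)
        exact continuous_q4 a continuous_const hc hc hc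
      have hev : ∀ᶠ ε in 𝓝 (0 : ℂ), q4 a P (v + ε • z) (v + ε • z) (v + ε • z) ≠ 0 := by
        apply hcont.continuousAt.eventually_ne
        rw [zero_smul, add_zero]
        exact h3
      have hev2 : ∀ᶠ ε in 𝓝[≠] (0 : ℂ), q4 a P (v + ε • z) (v + ε • z) (v + ε • z) ≠ 0 ∧ ε ≠ 0 :=
        (hev.filter_mono nhdsWithin_le_nhds).and eventually_mem_nhdsWithin
      obtain ⟨ε, hε1, hε2⟩ := hev2.exists
      have hvz : q4 a P P v z = 0 := hns z k1
      have hvu : q4 a P P v u = 0 := hns u k3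
      have e1 : (v + ε • z) = (1 : ℂ) • v + ε • z := by rw [one_smul]
      refine ⟨v + ε • z, ?_, ?_, hε1, u, k3, ?_⟩
      · rw [e1, exp3, h1, k1]; ring
      · have e2 : q4 a P P (v + ε • z) (v + ε • z) = q4 a P P v v + 2 * ε * q4 a P P v z +
            ε ^ 2 * q4 a P P z z := by
          have h0 : (ell P * ell P * ell (v + ε • z) * ell (v + ε • z) : MvPolynomial σ ℂ) =
              ell P * ell P * ell v * ell v + C (2 * ε) * (ell P * ell P * ell v * ell z) +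
              C (ε ^ 2) * (ell P * ell P * ell z * ell z) := by
            simp only [ell_add, ell_smul, map_mul, map_pow, map_ofNat]
            ring
          rw [q4, h0, map_add, map_add, Lf_C_mul, Lf_C_mul, q4, q4, q4]
        rw [e2, h2, hvz, k2]; ring
      · have e2 : q4 a P P (v + ε • z) u = q4 a P P v u + ε * q4 a P P z u := by
          rw [q4_s34, q4_add, q4_smul, q4_s34 a P P u v, q4_s34 a P P u z]
        rw [e2, hvu, zero_add]
        exact mul_ne_zero hε2 k4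
  obtain ⟨s, hs⟩ : ∃ s : ℂ, s = q4 a w w w w := ⟨_, rfl⟩
  obtain ⟨t, ht⟩ : ∃ t : ℂ, t = -4 * q4 a P w w w := ⟨_, rfl⟩
  have ht0 : t ≠ 0 := by
    rw [ht]
    exact mul_ne_zero (by norm_num) w3
  refine assemble ha happ helim hrk hρ p hind hgp hp hr (s • P + t • w) ?_ ?_ ?_ ?_ ?_ ?_ G hG
  · rw [← hP, exp3, hPP, w1]; ring
  · rw [← hP, exp_qqrr, hPP, w1, w2]; ring
  · rw [← hP, exp_qrrr, hPP, w1, w2]
    have k : s ^ 3 * 0 + 3 * s ^ 2 * t * 0 + 3 * s * t ^ 2 * 0 + t ^ 3 * q4 a P w w w =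
      t ^ 3 * q4 a P w w w := by ring
    rw [k]
    exact mul_ne_zero (pow_ne_zero _ ht0) w3
  · rw [exp_rrrr, hPP, w1, w2, ← hs]
    have k : s ^ 4 * 0 + 4 * s ^ 3 * t * 0 + 6 * s ^ 2 * t ^ 2 * 0 +
      4 * s * t ^ 3 * q4 a P w w w + t ^ 4 * s = s * t ^ 3 * (4 * q4 a P w w w + t) := by
      ring
    rw [k, ht]
    ring
  · refine ⟨u, ?_, ?_⟩
    · rw [← hP]; exact hu1
    · rw [← hP, exp_qqru, hu1, mul_zero, zero_add]
      exact mul_ne_zero ht0 hu2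
  · refine Filter.Eventually.of_forall fun q' hrk' _ => ?_
    exact exists_niso a hn q' (by omega)

theorem continuousAt_q4 {K : Type*} [Field K] {𝕜 : Type*} [RCLike 𝕜] [Algebra K 𝕜]
    {σ : Type*} [Fintype σ] (a : (σ →₀ ℕ) → K) {X : Type*} [TopologicalSpace X] {x : X}
    {f g h k : X → (σ → 𝕜)} (hf : ContinuousAt f x) (hg : ContinuousAt g x)
    (hh : ContinuousAt h x) (hk : ContinuousAt k x) :
    ContinuousAt (fun x => q4 a (f x) (g x) (h x) (k x)) x := by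
  have h1 : ContinuousAt (fun x => T 𝕜 a (f x)) x :=
    ContinuousAt.comp (T 𝕜 a).continuous.continuousAt hf
  exact ((h1.clm_apply hg).clm_apply hh).clm_apply hk

theorem real_case {K : Type*} [Field K] [Countable K] [CharZero K] [Algebra K ℝ]
    {σ : Type*} [Fintype σ] [DecidableEq σ] {ρ : ℕ} {F : MvPolynomial σ K} {a : (σ →₀ ℕ) → K}
    (ha : IsPol 4 F a) (happ : ApproxProp ℝ ρ a) (helim : ElimProp ℝ F) (hrk : RankBd ℝ a)
    (hρ : ρ + 3 ≤ Fintype.card σ)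
    (p : σ → K) (hind : Ind5 ℝ a p) (hgp : ∃ u : σ → ℝ, q4 a (bc ℝ p) (bc ℝ p) (bc ℝ p) u ≠ 0)
    (hp : q4 a p p p p = 0) (hr : ρ ≤ (hm a p).rank) (q : σ → ℝ)
    (h1 : q4 a (bc ℝ p) (bc ℝ p) (bc ℝ p) q = 0) (h2 : q4 a (bc ℝ p) (bc ℝ p) q q = 0)
    (h3 : q4 a (bc ℝ p) q q q ≠ 0) (h4 : q4 a q q q q = 0)
    (hpq : ∃ u, q4 a (bc ℝ p) (bc ℝ p) (bc ℝ p) u = 0 ∧ q4 a (bc ℝ p) (bc ℝ p) q u ≠ 0)
    (u₁ u₂ : σ → ℝ) (g1 : q4 a q q q u₁ = 0) (g2 : q4 a q q q u₂ = 0)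
    (g3 : 0 < q4 a q q u₁ u₁) (g4 : q4 a q q u₂ u₂ < 0)
    (G : MvPolynomial σ K) (hG : ∀ x : σ → K, aeval x F = 0 → aeval x G = 0) : F ∣ G := by
  refine assemble ha happ helim hrk hρ p hind hgp hp hr q h1 h2 h3 h4 hpq ?_ G hG
  obtain ⟨P, hP⟩ : ∃ P : σ → ℝ, P = bc ℝ p := ⟨_, rfl⟩
  rw [← hP] at h3 ⊢
  have hqP : q4 a q q q P ≠ 0 := by
    have k : q4 a q q q P = q4 a P q q q := q4_perm a (by ring)
    rw [k]; exact h3
  -- moving the tangent vectors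
  let m : (σ → ℝ) → (σ → ℝ) → (σ → ℝ) := fun u x => u - (q4 a x x x u / q4 a x x x P) • P
  have hm0 : ∀ u, q4 a q q q u = 0 → m u q = u := by
    intro u hu
    show u - (q4 a q q q u / q4 a q q q P) • P = u
    rw [hu, zero_div, zero_smul, sub_zero]
  have hmc : ∀ u, ContinuousAt (m u) q := by
    intro u
    have c1 : ContinuousAt (fun x : σ → ℝ => q4 a x x x u) q :=
      (continuous_q4 a continuous_id continuous_id continuous_id continuous_const).continuousAt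
    have c2 : ContinuousAt (fun x : σ → ℝ => q4 a x x x P) q :=
      (continuous_q4 a continuous_id continuous_id continuous_id continuous_const).continuousAt
    exact continuousAt_const.sub ((c1.div c2 hqP).smul continuousAt_const)
  have hqc : ∀ u, ContinuousAt (fun x : σ → ℝ => q4 a x x (m u x) (m u x)) q := by
    intro u
    exact continuousAt_q4 a continuousAt_id continuousAt_id (hmc u) (hmc u)
  have hpos : ∀ᶠ x in 𝓝 q, 0 < q4 a x x (m u₁ x) (m u₁ x) :=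
    (hqc u₁).eventually (lt_mem_nhds (by
      show 0 < q4 a q q (m u₁ q) (m u₁ q)
      rw [hm0 u₁ g1]; exact g3))
  have hneg : ∀ᶠ x in 𝓝 q, q4 a x x (m u₂ x) (m u₂ x) < 0 :=
    (hqc u₂).eventually (gt_mem_nhds (by
      show q4 a q q (m u₂ q) (m u₂ q) < 0
      rw [hm0 u₂ g2]; exact g4))
  filter_upwards [hpos, hneg] with x hx1 hx2 _ hx3
  have hxP : q4 a x x x P ≠ 0 := by
    have k : q4 a x x x P = q4 a P x x x := q4_perm a (by ring)
    rw [k]; exact hx3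
  have hmt : ∀ u, q4 a x x x (m u x) = 0 := by
    intro u
    show q4 a x x x (u - (q4 a x x x u / q4 a x x x P) • P) = 0
    have e : u - (q4 a x x x u / q4 a x x x P) • P =
        (1 : ℝ) • u + (-(q4 a x x x u / q4 a x x x P)) • P := by
      rw [one_smul, neg_smul, sub_eq_add_neg]
    rw [e, exp3]
    field_simp
    ring
  obtain ⟨y₁, hy₁⟩ : ∃ y, y = m u₁ x := ⟨_, rfl⟩
  obtain ⟨y₂, hy₂⟩ : ∃ y, y = m u₂ x := ⟨_, rfl⟩
  have t1 : q4 a x x x y₁ = 0 := by rw [hy₁]; exact hmt u₁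
  have t2 : q4 a x x x y₂ = 0 := by rw [hy₂]; exact hmt u₂
  rw [← hy₁] at hx1
  rw [← hy₂] at hx2
  obtain ⟨A, hA⟩ : ∃ A, A = q4 a x x y₁ y₁ := ⟨_, rfl⟩
  obtain ⟨B, hB⟩ : ∃ B, B = q4 a x x y₁ y₂ := ⟨_, rfl⟩
  obtain ⟨C', hC⟩ : ∃ C', C' = q4 a x x y₂ y₂ := ⟨_, rfl⟩
  rw [← hA] at hx1
  rw [← hC] at hx2
  have hdisc : 0 < B ^ 2 - A * C' := by nlinarith [sq_nonneg B, mul_pos hx1 (neg_pos.mpr hx2)]
  obtain ⟨τ, hτ⟩ : ∃ τ : ℝ, A + 2 * τ * B + τ ^ 2 * C' = 0 := by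
    have hC0 : C' ≠ 0 := hx2.ne
    refine ⟨(-B + Real.sqrt (B ^ 2 - A * C')) / C', ?_⟩
    have hs := Real.sq_sqrt hdisc.le
    field_simp
    nlinarith [hs]
  have e2 : q4 a x x (y₁ + τ • y₂) (y₁ + τ • y₂) = A + 2 * τ * B + τ ^ 2 * C' := by
    have h0 : (ell x * ell x * ell (y₁ + τ • y₂) * ell (y₁ + τ • y₂) : MvPolynomial σ ℝ) =
        ell x * ell x * ell y₁ * ell y₁ + C (2 * τ) * (ell x * ell x * ell y₁ * ell y₂) +
        C (τ ^ 2) * (ell x * ell x * ell y₂ * ell y₂) := by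
      simp only [ell_add, ell_smul, map_mul, map_pow, map_ofNat]
      ring
    rw [q4, h0, map_add, map_add, Lf_C_mul, Lf_C_mul, hA, hB, hC, q4, q4, q4]
  have e3 : ∀ u, q4 a x x (y₁ + τ • y₂) u = q4 a x x y₁ u + τ * q4 a x x y₂ u := by
    intro u
    rw [q4_s34, q4_add, q4_smul, q4_s34 a x x u y₁, q4_s34 a x x u y₂]
  refine ⟨y₁ + τ • y₂, ?_, ?_, ?_⟩
  · rw [q4_add, q4_smul, t1, t2]; ring
  · rw [e2, hτ]
  · by_cases hy : q4 a x x (y₁ + τ • y₂) y₁ = 0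
    · refine ⟨y₂, t2, ?_⟩
      rw [e3]
      rw [e3, ← hA, q4_s34 a x x y₂ y₁, ← hB] at hy
      rw [← hB, ← hC]
      intro h0
      have k1 : A = τ ^ 2 * C' := by linear_combination hy - τ * h0
      have k2 : τ ^ 2 * C' ≤ 0 := mul_nonpos_of_nonneg_of_nonpos (sq_nonneg τ) hx2.le
      linarith
    · exact ⟨y₁, t1, hy⟩

end Pool.Agent.Work.QK
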