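import Mathlib
import Pool.Agent.Work.MP_b62148_ag.QK.Cases

/-!
The real case with indefinite second fundamental forms at both points.
-/

set_option maxSynthPendingDepth 3

namespace Pool.Agent.Work.QK

open MvPolynomial Pool.Agent.Work.PD6 Filter Topology Op

variable {K : Type*} [Field K] [Algebra K ℝ] {σ : Type*} [Fintype σ] (a : (σ →₀ ℕ) → K)

/-- indefinite second fundamental form -/
def Indef (x : σ → ℝ) : Prop :=
  ∃ y₁ y₂ : σ → ℝ, q4 a x x x y₁ = 0 ∧ q4 a x x x y₂ = 0 ∧ 0 < q4 a x x y₁ y₁ ∧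
    q4 a x x y₂ y₂ < 0

theorem indef_open (P q : σ → ℝ) (hqP : q4 a q q q P ≠ 0) (h : Indef a q) :
    ∀ᶠ x in 𝓝 q, Indef a x := by
  obtain ⟨u₁, u₂, g1, g2, g3, g4⟩ := h
  let m : (σ → ℝ) → (σ → ℝ) → (σ → ℝ) := fun u x => u - (q4 a x x x u / q4 a x x x P) • P
  have hm0 : ∀ u, q4 a q q q u = 0 → m u q = u := by
    intro u hu
    show u - (q4 a q q q u / q4 a q q q P) • P = u
    rw [hu, zero_div, zero_smul, sub_zero]
  have c0 : ∀ u, ContinuousAt (fun x : σ → ℝ => q4 a x x x u) q := fun u =>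
    continuousAt_q4 a continuousAt_id continuousAt_id continuousAt_id continuousAt_const
  have hmc : ∀ u, ContinuousAt (m u) q := fun u =>
    continuousAt_const.sub (((c0 u).div (c0 P) hqP).smul continuousAt_const)
  have hqc : ∀ u, ContinuousAt (fun x : σ → ℝ => q4 a x x (m u x) (m u x)) q := fun u =>
    continuousAt_q4 a continuousAt_id continuousAt_id (hmc u) (hmc u)
  have hpos : ∀ᶠ x in 𝓝 q, 0 < q4 a x x (m u₁ x) (m u₁ x) :=
    (hqc u₁).eventually (lt_mem_nhds (by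
      show 0 < q4 a q q (m u₁ q) (m u₁ q)
      rw [hm0 u₁ g1]; exact g3))
  have hneg : ∀ᶠ x in 𝓝 q, q4 a x x (m u₂ x) (m u₂ x) < 0 :=
    (hqc u₂).eventually (gt_mem_nhds (by
      show q4 a q q (m u₂ q) (m u₂ q) < 0
      rw [hm0 u₂ g2]; exact g4))
  filter_upwards [hpos, hneg, (c0 P).eventually_ne hqP] with x hx1 hx2 hxP
  have hmt : ∀ u, q4 a x x x (m u x) = 0 := by
    intro u
    show q4 a x x x (u - (q4 a x x x u / q4 a x x x P) • P) = 0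
    have e : u - (q4 a x x x u / q4 a x x x P) • P =
        (1 : ℝ) • u + (-(q4 a x x x u / q4 a x x x P)) • P := by
      rw [one_smul, neg_smul, sub_eq_add_neg]
    rw [e, exp3]
    field_simp
    ring
  exact ⟨m u₁ x, m u₂ x, hmt _, hmt _, hx1, hx2⟩

theorem indef_iso (x : σ → ℝ) (h : Indef a x) : ∃ v : σ → ℝ, q4 a x x x v = 0 ∧
    q4 a x x v v = 0 ∧ ∃ u, q4 a x x x u = 0 ∧ q4 a x x v u ≠ 0 := by
  obtain ⟨y₁, y₂, t1, t2, hx1, hx2⟩ := h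
  obtain ⟨A, hA⟩ : ∃ A, A = q4 a x x y₁ y₁ := ⟨_, rfl⟩
  obtain ⟨B, hB⟩ : ∃ B, B = q4 a x x y₁ y₂ := ⟨_, rfl⟩
  obtain ⟨C', hC⟩ : ∃ C', C' = q4 a x x y₂ y₂ := ⟨_, rfl⟩
  rw [← hA] at hx1
  rw [← hC] at hx2
  have hdisc : 0 < B ^ 2 - A * C' := by nlinarith [sq_nonneg B, mul_pos hx1 (neg_pos.mpr hx2)]
  obtain ⟨τ, hτ⟩ : ∃ τ : ℝ, A + 2 * τ * B + τ ^ 2 * C' = 0 := by
    have hC0 : C' ≠ 0 := hx2.ne
    refine ⟨(-B + Real.sqrt (B ^ 2 - A * C')) / C', ?_⟩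
    have hs := Real.sq_sqrt hdisc.le
    field_simp
    nlinarith [hs]
  have e2 : q4 a x x (y₁ + τ • y₂) (y₁ + τ • y₂) = A + 2 * τ * B + τ ^ 2 * C' := by
    have h0 : (ell x * ell x * ell (y₁ + τ • y₂) * ell (y₁ + τ • y₂) : MvPolynomial σ ℝ) =
        ell x * ell x * ell y₁ * ell y₁ + C (2 * τ) * (ell x * ell x * ell y₁ * ell y₂) +
        C (τ ^ 2) * (ell x * ell x * ell y₂ * ell y₂) := by
      simp only [ell_add, ell_smul, map_mul, map_pow, map_ofNat]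
      ring
    rw [q4, h0, map_add, map_add, Lf_C_mul, Lf_C_mul, hA, hB, hC, q4, q4, q4]
  have e3 : ∀ u, q4 a x x (y₁ + τ • y₂) u = q4 a x x y₁ u + τ * q4 a x x y₂ u := by
    intro u
    rw [q4_s34, q4_add, q4_smul, q4_s34 a x x u y₁, q4_s34 a x x u y₂]
  refine ⟨y₁ + τ • y₂, ?_, ?_, ?_⟩
  · rw [q4_add, q4_smul, t1, t2]; ring
  · rw [e2, hτ]
  · by_cases hy : q4 a x x (y₁ + τ • y₂) y₁ = 0
    · refine ⟨y₂, t2, ?_⟩
      rw [e3]
      rw [e3, ← hA, q4_s34 a x x y₂ y₁, ← hB] at hy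
      rw [← hB, ← hC]
      intro h0
      have k1 : A = τ ^ 2 * C' := by linear_combination hy - τ * h0
      have k2 : τ ^ 2 * C' ≤ 0 := mul_nonpos_of_nonneg_of_nonpos (sq_nonneg τ) hx2.le
      linarith
    · exact ⟨y₁, t1, hy⟩

/-- the real case -/
theorem real_case2 [Countable K] [CharZero K] [DecidableEq σ] {ρ : ℕ} {F : MvPolynomial σ K}
    {a : (σ →₀ ℕ) → K}
    (ha : IsPol 4 F a) (happ : ApproxProp ℝ ρ a) (helim : ElimProp ℝ F) (hrk : RankBd ℝ a)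
    (hρ : ρ + 3 ≤ Fintype.card σ)
    (p : σ → K) (hind : Ind5 ℝ a p) (hgp : ∃ u : σ → ℝ, q4 a (bc ℝ p) (bc ℝ p) (bc ℝ p) u ≠ 0)
    (hp : q4 a p p p p = 0) (hr : ρ ≤ (hm a p).rank) (q : σ → ℝ)
    (h1 : q4 a (bc ℝ p) (bc ℝ p) (bc ℝ p) q = 0) (h2 : q4 a (bc ℝ p) (bc ℝ p) q q = 0)
    (h3 : q4 a (bc ℝ p) q q q ≠ 0) (h4 : q4 a q q q q = 0)
    (hip : Indef a (bc ℝ p)) (hiq : Indef a q)
    (G : MvPolynomial σ K) (hG : ∀ x : σ → K, aeval x F = 0 → aeval x G = 0) : F ∣ G := by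
  obtain ⟨P, hP⟩ : ∃ P : σ → ℝ, P = bc ℝ p := ⟨_, rfl⟩
  have hPP : q4 a P P P P = 0 := by rw [hP, q4_bc, hp, map_zero]
  have fin : ∀ q : σ → ℝ, q4 a P P P q = 0 → q4 a P P q q = 0 → q4 a P q q q ≠ 0 →
      q4 a q q q q = 0 → (∃ u, q4 a P P P u = 0 ∧ q4 a P P q u ≠ 0) → Indef a q → F ∣ G := by
    intro q k1 k2 k3 k4 hpq ⟨y₁, y₂, l1, l2, l3, l4⟩
    rw [hP] at k1 k2 k3 hpq
    exact real_case ha happ helim hrk hρ p hind hgp hp hr q k1 k2 k3 k4 hpq y₁ y₂ l1 l2 l3 l4 G hG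
  rw [← hP] at h1 h2 h3 hip
  by_cases hns : ∃ u, q4 a P P P u = 0 ∧ q4 a P P q u ≠ 0
  · exact fin q h1 h2 h3 h4 hns hiq
  push Not at hns
  obtain ⟨z, z1, z2, u, z3, z4⟩ := indef_iso a P hip
  have hqz : q4 a P P q z = 0 := hns z z1
  have hqu : q4 a P P q u = 0 := hns u z3
  -- the family of directions
  obtain ⟨w, hw⟩ : ∃ w : ℝ → (σ → ℝ), ∀ ε, w ε = q + ε • z := ⟨fun ε => q + ε • z, fun _ => rfl⟩
  have w1 : ∀ ε, q4 a P P P (w ε) = 0 := by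
    intro ε
    rw [hw, q4_add, q4_smul, h1, z1]; ring
  have w2 : ∀ ε, q4 a P P (w ε) (w ε) = 0 := by
    intro ε
    have e2 : q4 a P P (q + ε • z) (q + ε • z) = q4 a P P q q + 2 * ε * q4 a P P q z +
        ε ^ 2 * q4 a P P z z := by
      have h0 : (ell P * ell P * ell (q + ε • z) * ell (q + ε • z) : MvPolynomial σ ℝ) =
          ell P * ell P * ell q * ell q + C (2 * ε) * (ell P * ell P * ell q * ell z) +
          C (ε ^ 2) * (ell P * ell P * ell z * ell z) := by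
        simp only [ell_add, ell_smul, map_mul, map_pow, map_ofNat]
        ring
      rw [q4, h0, map_add, map_add, Lf_C_mul, Lf_C_mul, q4, q4, q4]
    rw [hw, e2, h2, hqz, z2]; ring
  have wu : ∀ ε, q4 a P P (w ε) u = ε * q4 a P P z u := by
    intro ε
    rw [hw, q4_s34, q4_add, q4_smul, q4_s34 a P P u q, q4_s34 a P P u z, hqu, zero_add]
  have wc : Continuous w := by
    have : w = fun ε => q + ε • z := funext hw
    rw [this]
    exact continuous_const.add (continuous_id.smul continuous_const)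
  have w0 : w 0 = q := by
    rw [hw, zero_smul, add_zero]
  -- the residual points
  obtain ⟨s, hs⟩ : ∃ s : ℝ → ℝ, ∀ ε, s ε = q4 a (w ε) (w ε) (w ε) (w ε) := ⟨_, fun _ => rfl⟩
  obtain ⟨t, ht⟩ : ∃ t : ℝ → ℝ, ∀ ε, t ε = -4 * q4 a P (w ε) (w ε) (w ε) := ⟨_, fun _ => rfl⟩
  obtain ⟨Q, hQ⟩ : ∃ Q : ℝ → (σ → ℝ), ∀ ε, Q ε = s ε • P + t ε • w ε := ⟨_, fun _ => rfl⟩
  have sc : Continuous s := by
    rw [show s = fun ε => q4 a (w ε) (w ε) (w ε) (w ε) from funext hs]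
    exact continuous_q4 a wc wc wc wc
  have tc : Continuous t := by
    rw [show t = fun ε => -4 * q4 a P (w ε) (w ε) (w ε) from funext ht]
    exact continuous_const.mul (continuous_q4 a continuous_const wc wc wc)
  have Qc : Continuous Q := by
    rw [show Q = fun ε => s ε • P + t ε • w ε from funext hQ]
    exact (sc.smul continuous_const).add (tc.smul wc)
  have t0 : t 0 ≠ 0 := by
    rw [ht, w0]
    exact mul_ne_zero (by norm_num) h3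
  have Q0 : Q 0 = t 0 • q := by
    rw [hQ, hs 0, w0, h4, zero_smul, zero_add]
  have hiQ : Indef a (Q 0) := by
    rw [Q0]
    obtain ⟨y₁, y₂, l1, l2, l3, l4⟩ := hiq
    have e3 : ∀ y, q4 a (t 0 • q) (t 0 • q) (t 0 • q) y = t 0 ^ 3 * q4 a q q q y := by
      intro y
      rw [q4_smul1, q4_smul2, q4_smul3]; ring
    have e2 : ∀ y, q4 a (t 0 • q) (t 0 • q) y y = t 0 ^ 2 * q4 a q q y y := by
      intro y
      rw [q4_smul1, q4_smul2]; ring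
    have ht2 : 0 < t 0 ^ 2 := by positivity
    refine ⟨y₁, y₂, ?_, ?_, ?_, ?_⟩
    · rw [e3, l1, mul_zero]
    · rw [e3, l2, mul_zero]
    · rw [e2]; exact mul_pos ht2 l3
    · rw [e2]; exact mul_neg_of_pos_of_neg ht2 l4
  have hQP : q4 a (Q 0) (Q 0) (Q 0) P ≠ 0 := by
    have k : q4 a (Q 0) (Q 0) (Q 0) P = t 0 ^ 3 * q4 a P q q q := by
      rw [Q0, q4_smul1, q4_smul2, q4_smul3]
      have k2 : q4 a q q q P = q4 a P q q q := q4_perm a (by ring)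
      rw [k2]; ring
    rw [k]
    exact mul_ne_zero (pow_ne_zero _ t0) h3
  have hev1 : ∀ᶠ ε in 𝓝 (0 : ℝ), Indef a (Q ε) :=
    Qc.continuousAt.eventually (indef_open a P (Q 0) hQP hiQ)
  have hev2 : ∀ᶠ ε in 𝓝 (0 : ℝ), t ε ≠ 0 := tc.continuousAt.eventually_ne t0
  have hev : ∀ᶠ ε in 𝓝[≠] (0 : ℝ), (Indef a (Q ε) ∧ t ε ≠ 0) ∧ ε ≠ 0 :=
    ((hev1.and hev2).filter_mono nhdsWithin_le_nhds).and eventually_mem_nhdsWithin
  obtain ⟨ε, ⟨hε1, hε2⟩, hε3⟩ := hev.exists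
  have hC : q4 a P (w ε) (w ε) (w ε) ≠ 0 := by
    intro h
    apply hε2
    rw [ht, h, mul_zero]
  have hw1 := w1 ε
  have hw2 := w2 ε
  have hwu := wu ε
  have hsε := hs ε
  have htε := ht ε
  have hQε := hQ ε
  generalize w ε = w' at hC hw1 hw2 hwu hsε htε hQε
  generalize s ε = s' at hsε hQε
  generalize t ε = t' at hε2 htε hQε
  rw [hQε] at hε1
  refine fin (s' • P + t' • w') ?_ ?_ ?_ ?_ ⟨u, z3, ?_⟩ hε1
  · rw [exp3, hPP, hw1]; ring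
  · rw [exp_qqrr, hPP, hw1, hw2]; ring
  · rw [exp_qrrr, hPP, hw1, hw2]
    have k : s' ^ 3 * 0 + 3 * s' ^ 2 * t' * 0 + 3 * s' * t' ^ 2 * 0 +
      t' ^ 3 * q4 a P w' w' w' = t' ^ 3 * q4 a P w' w' w' := by ring
    rw [k]
    exact mul_ne_zero (pow_ne_zero _ hε2) hC
  · rw [exp_rrrr, hPP, hw1, hw2, ← hsε]
    have k : s' ^ 4 * 0 + 4 * s' ^ 3 * t' * 0 + 6 * s' ^ 2 * t' ^ 2 * 0 +
      4 * s' * t' ^ 3 * q4 a P w' w' w' + t' ^ 4 * s' =
      s' * t' ^ 3 * (4 * q4 a P w' w' w' + t') := by ring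
    rw [k, htε]
    ring
  · rw [exp_qqru, z3, mul_zero, zero_add, hwu]
    exact mul_ne_zero hε2 (mul_ne_zero hε3 z4)

end Pool.Agent.Work.QK
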