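import Mathlib
import Pool.Agent.Work.MP_b62148_ag.QK.RealC
import Pool.Agent.Work.MP_b62148_ag.QK.Approx
import Pool.Agent.Work.MP_b62148_ag.QK.NF
import Pool.Agent.Work.MP_b62148_ag.QK.Irred
import Pool.Agent.Work.MP_b62148_ag.Meyer.Meyer5

/-!
Main theorems in terms of polynomials.
-/

namespace Pool.Agent.Work.QK

open MvPolynomial Pool.Agent.Work.PD6 Filter Topology Op

/-- the five values of the restriction of the form to a line -/
theorem flex_coeffs {K : Type*} [Field K] {σ : Type*} [Fintype σ] (a : (σ →₀ ℕ) → K)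
    {R : Type*} [Field R] [CharZero R] [Algebra K R] (x y : σ → R) (c c' : R)
    (h : ∀ t : R, q4 a (x + t • y) (x + t • y) (x + t • y) (x + t • y) = c * t ^ 3 + c' * t ^ 4) :
    q4 a x x x x = 0 ∧ q4 a x x x y = 0 ∧ q4 a x x y y = 0 ∧ 4 * q4 a x y y y = c ∧
      q4 a y y y y = c' := by
  have h1 : ∀ t : R, q4 a (x + t • y) (x + t • y) (x + t • y) (x + t • y) =
      q4 a x x x x + 4 * t * q4 a x x x y + 6 * t ^ 2 * q4 a x x y y + 4 * t ^ 3 * q4 a x y y y +
        t ^ 4 * q4 a y y y y := by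
    intro t
    have e := exp_rrrr a x y 1 t
    rw [one_smul] at e
    rw [e]
    ring
  simp only [h1] at h
  have t0 := h 0
  have t1 := h 1
  have t2 := h (-1)
  have t3 := h 2
  have t4 := h (-2)
  have a0 : q4 a x x x x = 0 := by linear_combination t0
  have s1 : 12 * q4 a x x y y + 2 * q4 a y y y y = 2 * c' := by
    linear_combination t1 + t2 - 2 * a0
  have s2 : 48 * q4 a x x y y + 32 * q4 a y y y y = 32 * c' := by
    linear_combination t3 + t4 - 2 * a0
  have d1 : 8 * q4 a x x x y + 8 * q4 a x y y y = 2 * c := by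
    linear_combination t1 - t2
  have d2 : 16 * q4 a x x x y + 64 * q4 a x y y y = 16 * c := by
    linear_combination t3 - t4
  have n48 : (48 : R) ≠ 0 := by norm_num
  have n24 : (24 : R) ≠ 0 := by norm_num
  have n12 : (12 : R) ≠ 0 := by norm_num
  have n8 : (8 : R) ≠ 0 := by norm_num
  have a4 : q4 a y y y y = c' := by
    apply mul_left_cancel₀ n24
    linear_combination s2 - 4 * s1
  have a2 : q4 a x x y y = 0 := by
    apply mul_left_cancel₀ n12
    linear_combination s1 - 2 * a4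
  have a3 : 4 * q4 a x y y y = c := by
    apply mul_left_cancel₀ n12
    linear_combination d2 - 2 * d1
  have a1 : q4 a x x x y = 0 := by
    apply mul_left_cancel₀ n8
    linear_combination d1 - 2 * a3
  exact ⟨a0, a1, a2, a3, a4⟩

section Hess

variable {K : Type*} [Field K] [CharZero K] {σ : Type*} [Fintype σ] [DecidableEq σ]
  {F : MvPolynomial σ K} {a : (σ →₀ ℕ) → K}

/-- the rank of the Hessian matrix -/
theorem rank_hess (ha : IsPol 4 F a) (x : σ → K) :
    (Matrix.of fun i j => eval x (pderiv i (pderiv j F))).rank = (hm a x).rank := by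
  have h : (Matrix.of fun i j => eval x (pderiv i (pderiv j F))) = (12 : K) • hm a x := by
    ext i j
    rw [Matrix.of_apply, Matrix.smul_apply, hm, Matrix.of_apply, smul_eq_mul, ← ev2 ha,
      aeval_eq_eval]
  rw [h]
  have h2 : (12 : K) • hm a x = (Matrix.diagonal fun _ => (12 : K)) * hm a x := by
    rw [← Matrix.smul_one_eq_diagonal, Matrix.smul_mul, Matrix.one_mul]
  rw [h2]
  apply Matrix.rank_mul_eq_right_of_isUnit_det
  rw [Matrix.det_diagonal]
  exact IsUnit.mk0 _ (Finset.prod_ne_zero_iff.mpr fun _ _ => by norm_num)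

/-- the gradient functional at a nonzero vector does not vanish -/
theorem exists_grad (hs : PD.SmoothForm F) (ha : IsPol 4 F a) {R : Type*} [Field R] [Algebra K R]
    (x : σ → R) (hx : x ≠ 0) : ∃ u : σ → R, q4 a x x x u ≠ 0 := by
  by_contra hne
  push Not at hne
  apply hx
  apply hs.ext x
  intro i
  rw [ev1 ha, hne, mul_zero]

end Hess

/-- the theorem over number fields which contain an imaginary quadratic field -/
theorem main_nf {L : Type*} [Field L] [NumberField L] (θ : L) (d : ℚ) (hd : 0 < d)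
    (hθ : θ ^ 2 = -(d : L)) {e : ℕ} (he : Module.finrank ℚ L = 2 * e)
    {σ : Type*} [Fintype σ] [DecidableEq σ] (hn : 3 * e + 9 ≤ Fintype.card σ)
    (F : MvPolynomial σ L) (hF : F.IsHomogeneous 4) (hs : PD.SmoothForm F)
    (hind : ∀ [Algebra L ℂ] (a : (σ →₀ ℕ) → L), IsPol 4 F a → ∀ p : σ → L, Ind5 ℂ a p)
    (helim : ∀ [Algebra L ℂ], ElimProp ℂ F)
    (p : σ → L) (hp : eval p F = 0)
    (hr : 3 * e + 6 ≤ (Matrix.of fun i j => eval p (pderiv i (pderiv j F))).rank)
    (v : σ → AlgebraicClosure L) (c c' : AlgebraicClosure L) (hc : c ≠ 0)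
    (hv : ∀ t : AlgebraicClosure L, aeval (fun i => algebraMap L (AlgebraicClosure L) (p i) +
      t * v i) F = c * t ^ 3 + c' * t ^ 4)
    (G : MvPolynomial σ L) (hG : ∀ x : σ → L, eval x F = 0 → eval x G = 0) : F ∣ G := by
  obtain ⟨a, ha⟩ := exists_isPol 4 F hF
  obtain ⟨φ⟩ : Nonempty (L →+* ℂ) := inferInstance
  let _ : Algebra L ℂ := φ.toAlgebra
  have hcount : Countable L :=
    ((Module.finBasis ℚ L).equivFun.toEquiv.injective).countable
  have hdense : DenseRange (algebraMap L ℂ) := denseRange_of_sq_neg φ θ d hd hθ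
  have hiso : IsoProp L ℂ σ (3 * e + 6) :=
    isoProp_of_diag (m := 3 * e + 4) (diagIso_numberField MY.meyer5 θ d hd hθ he)
  have happ : ApproxProp ℂ (3 * e + 6) a := fun p hp hr hp0 x h1 h2 h3 h4 hns =>
    approx hdense hiso a p hp hr hp0 x h1 h2 h3 h4 hns
  have hrk : RankBd ℂ a := fun q J hJ hJa => rank_ge hs ha q J hJ hJa
  have hn5 : NIso σ := fun M hM g hr => exists_nonradical_isotropic M hM g hr
  have hr' : 3 * e + 6 ≤ (hm a p).rank := by rw [← rank_hess ha]; exact hr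
  have hpp : q4 a p p p p = 0 := by rw [← ev0 ha, aeval_eq_eval]; exact hp
  have hp0 : p ≠ 0 := by
    rintro rfl
    have h0 : hm a (0 : σ → L) = 0 := by
      ext i j
      show q4 a 0 0 _ _ = 0
      rw [q4, ell_zero, zero_mul, zero_mul, zero_mul, map_zero]
    rw [h0, Matrix.rank_zero] at hr'
    omega
  have hgp : ∃ u : σ → ℂ, q4 a (bc ℂ p) (bc ℂ p) (bc ℂ p) u ≠ 0 := by
    apply exists_grad hs ha
    intro h
    apply hp0
    funext i
    exact (map_eq_zero (algebraMap L ℂ)).mp (congrFun h i)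
  -- the direction
  let ψ : AlgebraicClosure L →ₐ[L] ℂ := IsAlgClosed.lift
  obtain ⟨P, hP⟩ : ∃ P : σ → AlgebraicClosure L, P = bc (AlgebraicClosure L) p := ⟨_, rfl⟩
  have hψP : (fun i => ψ (P i)) = bc ℂ p := by
    funext i
    rw [hP]
    exact ψ.commutes (p i)
  have hq4 : ∀ x y z w : σ → AlgebraicClosure L, ψ (q4 a x y z w) =
      q4 a (fun i => ψ (x i)) (fun i => ψ (y i)) (fun i => ψ (z i)) (fun i => ψ (w i)) := by
    intro x y z w
    have h := map_Lf a ψ (ell x * ell y * ell z * ell w)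
    rw [RingHom.map_mul, RingHom.map_mul, RingHom.map_mul, map_ell, map_ell, map_ell,
      map_ell] at h
    exact h
  obtain ⟨-, f1, f2, f3, -⟩ := flex_coeffs a P v c c' (by
    intro t
    rw [← ev0 ha, ← hv t]
    congr 1
    rw [hP]
    rfl)
  have e1 := congrArg ψ f1
  have e2 := congrArg ψ f2
  rw [hq4, hψP, map_zero] at e1 e2
  have e3 : q4 a (bc ℂ p) (fun i => ψ (v i)) (fun i => ψ (v i)) (fun i => ψ (v i)) ≠ 0 := by
    rw [← hψP, ← hq4]
    intro h
    apply hc
    rw [← f3]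
    rw [(map_eq_zero ψ).mp h, mul_zero]
  exact complex_case ha happ helim hrk hn5 (by omega) (by omega) p (hind a ha p) hgp hpp hr'
    (fun i => ψ (v i)) e1 e2 e3 G (by
      intro x hx
      rw [aeval_eq_eval] at hx ⊢
      exact hG x hx)

section Rat

variable {K : Type*} [Field K] {σ : Type*} [Fintype σ] [DecidableEq σ]
  {F : MvPolynomial σ K} {a : (σ →₀ ℕ) → K}

theorem sum_grad (ha : IsPol 4 F a) {R : Type*} [CommRing R] [Algebra K R] (x u : σ → R) :
    ∑ i, aeval x (pderiv i F) * u i = 4 * q4 a x x x u := by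
  have h : (ell x ^ 3 * ell u : MvPolynomial σ R) = ell x * ell x * ell x * ell u := by ring
  rw [isPol_grad (d := 3) ha, h, q4]
  norm_num

theorem sum_hess (ha : IsPol 4 F a) {R : Type*} [CommRing R] [Algebra K R] (x u : σ → R) :
    ∑ i, ∑ j, aeval x (pderiv i (pderiv j F)) * u i * u j = 12 * q4 a x x u u := by
  rw [← dot_h a x u u, dotProduct, Finset.mul_sum]
  refine Finset.sum_congr rfl fun i _ => ?_
  rw [RankAux.hm_mulVec, RankAux.q4_sum a x x (Pi.single i 1) u, Finset.mul_sum, Finset.mul_sum]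
  refine Finset.sum_congr rfl fun j _ => ?_
  rw [ev2 ha]
  ring

end Rat

/-- the second fundamental form at `x` takes both signs -/
def IndefAt {σ : Type*} [Fintype σ] (F : MvPolynomial σ ℚ) (x : σ → ℝ) : Prop :=
  ∃ u w : σ → ℝ, ∑ i, aeval x (pderiv i F) * u i = 0 ∧ ∑ i, aeval x (pderiv i F) * w i = 0 ∧
    0 < ∑ i, ∑ j, aeval x (pderiv i (pderiv j F)) * u i * u j ∧
    ∑ i, ∑ j, aeval x (pderiv i (pderiv j F)) * w i * w j < 0

theorem indef_of {σ : Type*} [Fintype σ] [DecidableEq σ] {F : MvPolynomial σ ℚ}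
    {a : (σ →₀ ℕ) → ℚ} (ha : IsPol 4 F a) (x : σ → ℝ) (h : IndefAt F x) : Indef a x := by
  obtain ⟨u, w, h1, h2, h3, h4⟩ := h
  rw [sum_grad ha] at h1 h2
  rw [sum_hess ha] at h3 h4
  refine ⟨u, w, ?_, ?_, ?_, ?_⟩ <;> linarith

/-- the theorem over the rational numbers -/
theorem main_rat {σ : Type} [Fintype σ] [DecidableEq σ] (hn : 10 ≤ Fintype.card σ)
    (F : MvPolynomial σ ℚ) (hF : F.IsHomogeneous 4) (hs : PD.SmoothForm F)
    (hind : ∀ (a : (σ →₀ ℕ) → ℚ), IsPol 4 F a → ∀ p : σ → ℚ, Ind5 ℝ a p)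
    (helim : ElimProp ℝ F)
    (p : σ → ℚ) (hr : 7 ≤ (Matrix.of fun i j => eval p (pderiv i (pderiv j F))).rank)
    (q : σ → ℝ) (c : ℝ) (hc : c ≠ 0)
    (hpq : ∀ t : ℝ, aeval (fun i => (p i : ℝ) + t * q i) F = c * t ^ 3)
    (hip : IndefAt F fun i => (p i : ℝ)) (hiq : IndefAt F q)
    (G : MvPolynomial σ ℚ) (hG : ∀ x : σ → ℚ, eval x F = 0 → eval x G = 0) : F ∣ G := by
  obtain ⟨a, ha⟩ := exists_isPol 4 F hF
  have hiso : IsoProp ℚ ℝ σ 7 := isoProp_rat MY.meyer5
  have happ : ApproxProp ℝ 7 a := fun p hp hr hp0 x h1 h2 h3 h4 hns =>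
    approx (by
      have h : (algebraMap ℚ ℝ : ℚ → ℝ) = ((↑) : ℚ → ℝ) := rfl
      rw [h]
      exact Rat.denseRange_cast) hiso a p hp hr hp0 x h1 h2 h3 h4 hns
  have hrk : RankBd ℝ a := fun q J hJ hJa => rank_ge hs ha q J hJ hJa
  have hr' : 7 ≤ (hm a p).rank := by rw [← rank_hess ha]; exact hr
  have hbc : (fun i => (p i : ℝ)) = bc ℝ p := rfl
  rw [hbc] at hip
  have hp0 : p ≠ 0 := by
    rintro rfl
    have h0 : hm a (0 : σ → ℚ) = 0 := by
      ext i j
      show q4 a 0 0 _ _ = 0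
      rw [q4, ell_zero, zero_mul, zero_mul, zero_mul, map_zero]
    rw [h0, Matrix.rank_zero] at hr'
    omega
  have hgp : ∃ u : σ → ℝ, q4 a (bc ℝ p) (bc ℝ p) (bc ℝ p) u ≠ 0 := by
    apply exists_grad hs ha
    intro h
    apply hp0
    funext i
    exact (map_eq_zero (algebraMap ℚ ℝ)).mp (congrFun h i)
  obtain ⟨f0, f1, f2, f3, f4⟩ := flex_coeffs a (bc ℝ p) q c 0 (by
    intro t
    rw [← ev0 ha, zero_mul, add_zero, ← hpq t]
    congr 1)
  have hpp : q4 a p p p p = 0 := by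
    rw [q4_bc] at f0
    exact (map_eq_zero (algebraMap ℚ ℝ)).mp f0
  have f3' : q4 a (bc ℝ p) q q q ≠ 0 := by
    intro h
    apply hc
    rw [← f3, h, mul_zero]
  exact real_case2 ha happ helim hrk (by omega) p (hind a ha p) hgp hpp hr' q f1 f2 f3' f4
    (indef_of ha _ hip) (indef_of ha _ hiq) G (by
      intro x hx
      rw [aeval_eq_eval] at hx ⊢
      exact hG x hx)

end Pool.Agent.Work.QK
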