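import Mathlib
import Pool.Agent.Work.MP_b62148_ag.QK.Main
import Pool.Agent.Work.MP_b62148_ag.QK.Ind
import Pool.Agent.Work.MP_b62148_ag.QK.Elim

/-!
The two density theorems for smooth quartic hypersurfaces.
-/

namespace Pool.Agent.Work.QK

open MvPolynomial Pool.Agent.Work.PD6

theorem top_nf {L : Type*} [Field L] [NumberField L] (θ : L) (d : ℚ) (hd : 0 < d)
    (hθ : θ ^ 2 = -(d : L)) {e : ℕ} (he : Module.finrank ℚ L = 2 * e)
    {σ : Type*} [Fintype σ] [DecidableEq σ] (hn : 3 * e + 9 ≤ Fintype.card σ)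
    (F : MvPolynomial σ L) (hF : F.IsHomogeneous 4) (hs : PD.SmoothForm F)
    (p : σ → L) (hp : eval p F = 0)
    (hr : 3 * e + 6 ≤ (Matrix.of fun i j => eval p (pderiv i (pderiv j F))).rank)
    (v : σ → AlgebraicClosure L) (c c' : AlgebraicClosure L) (hc : c ≠ 0)
    (hv : ∀ t : AlgebraicClosure L, aeval (fun i => algebraMap L (AlgebraicClosure L) (p i) +
      t * v i) F = c * t ^ 3 + c' * t ^ 4)
    (G : MvPolynomial σ L) (hG : ∀ x : σ → L, eval x F = 0 → eval x G = 0) : F ∣ G := by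
  have he0 : 0 < e := by
    have h := Module.finrank_pos (R := ℚ) (M := L)
    omega
  have hirr : Irreducible F := irreducible_of_smooth (by omega) hF hs
  refine main_nf θ d hd hθ he hn F hF hs ?_ ?_ p hp hr v c c' hc hv G hG
  · intro _ a ha p q v h1 h2 h3 h4 h5 hpq J hJ halg
    exact indep5 (by omega) hs ha p q v h1 h2 h3 h4 h5 hpq J hJ halg
  · intro _ r i hr hi G hG
    exact elim F hirr r i hr hi G hG

theorem top_rat {σ : Type} [Fintype σ] [DecidableEq σ] (hn : 10 ≤ Fintype.card σ)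
    (F : MvPolynomial σ ℚ) (hF : F.IsHomogeneous 4) (hs : PD.SmoothForm F)
    (p : σ → ℚ) (hr : 7 ≤ (Matrix.of fun i j => eval p (pderiv i (pderiv j F))).rank)
    (q : σ → ℝ) (c : ℝ) (hc : c ≠ 0)
    (hpq : ∀ t : ℝ, aeval (fun i => (p i : ℝ) + t * q i) F = c * t ^ 3)
    (hip : IndefAt F fun i => (p i : ℝ)) (hiq : IndefAt F q)
    (G : MvPolynomial σ ℚ) (hG : ∀ x : σ → ℚ, eval x F = 0 → eval x G = 0) : F ∣ G := by
  have hirr : Irreducible F := irreducible_of_smooth (by omega) hF hs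
  refine main_rat hn F hF hs ?_ ?_ p hr q c hc hpq hip hiq G hG
  · intro a ha p q v h1 h2 h3 h4 h5 hpq J hJ halg
    exact indep5 hn hs ha p q v h1 h2 h3 h4 h5 hpq J hJ halg
  · intro r i hr hi G hG
    exact elim F hirr r i hr hi G hG

end Pool.Agent.Work.QK
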