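import Mathlib
import Pool.Agent.Work.MP_b62148_ag.QK.Defs
import Pool.Agent.Work.MP_b62148_ag.QK.Birch
import Pool.Agent.Work.MP_b62148_ag.QK.Rank

/-!
Linear independence of the five polar linear forms of a smooth quartic at a pair of vectors with
many algebraically independent coordinates.
-/

namespace Pool.Agent.Work.QK

open MvPolynomial Pool.Agent.Work.PD6

namespace IndAux

theorem exists_lam {Ω : Type*} [Field Ω] [CharZero Ω] (a b c : Ω) (h : a ≠ 0 ∨ b ≠ 0 ∨ c ≠ 0) :
    ∃ lam : ℕ, a + b * (lam : Ω) + c * (lam : Ω) ^ 2 ≠ 0 := by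
  by_contra hne
  push Not at hne
  have h0 := hne 0
  have h1 := hne 1
  have h2 := hne 2
  simp only [Nat.cast_zero, mul_zero, add_zero, Nat.cast_one, mul_one, one_pow, ne_eq,
    OfNat.ofNat_ne_zero, not_false_eq_true, zero_pow, Nat.cast_ofNat] at h0 h1 h2
  have e2 : (2 : Ω) * c = 0 := by linear_combination h2 - 2 * h1 + h0
  have hc : c = 0 := (mul_eq_zero.mp e2).resolve_left two_ne_zero
  have hb : b = 0 := by linear_combination h1 - h0 - hc
  rcases h with h | h | h
  · exact h h0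
  · exact h hb
  · exact h hc

theorem rel_false {K : Type*} [Field K] [CharZero K] {Ω : Type*} [Field Ω] [Algebra K Ω]
    {σ : Type*} [Fintype σ] [DecidableEq σ] (hN : 10 ≤ Fintype.card σ)
    {F : MvPolynomial σ K} (hs : PD.SmoothForm F) {a : (σ →₀ ℕ) → K} (ha : IsPol 4 F a)
    (p : σ → K) (q v : σ → Ω)
    (J : Finset (σ ⊕ σ)) (hJ : J.card + 5 = 2 * Fintype.card σ)
    (halg : AlgebraicIndependent K fun j : J => Sum.elim q v (j : σ ⊕ σ))
    (c : Fin 5 → Ω) (m : Fin 5) (hm : m = 2 ∨ m = 3 ∨ m = 4) (hcm : c m = 1)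
    (h : ∀ u, c 0 * q4 a (bc Ω p) (bc Ω p) (bc Ω p) u + c 1 * q4 a (bc Ω p) (bc Ω p) q u +
      c 2 * q4 a q q q u + c 3 * q4 a q q v u + c 4 * q4 a q v v u = 0) : False := by
  have hchar : CharZero Ω := charZero_of_injective_algebraMap (algebraMap K Ω).injective
  obtain ⟨lam, hlam⟩ := exists_lam (c 2) (c 3) (c 4) (by
    rcases hm with rfl | rfl | rfl
    · exact Or.inl (by rw [hcm]; exact one_ne_zero)
    · exact Or.inr (Or.inl (by rw [hcm]; exact one_ne_zero))
    · exact Or.inr (Or.inr (by rw [hcm]; exact one_ne_zero)))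
  choose D1 hD1 using fun l : J => exists_der (K := K)
    (fun j : J => Sum.elim q v (j : σ ⊕ σ)) halg (Pi.single l 1 : J → Ω)
  let Φ : (J → Ω) →ₗ[Ω] ((σ → Ω) × ({i : Fin 5 // i ≠ m} → Ω)) :=
    { toFun := fun t => (fun i => ∑ l, t l * D1 l (v i - (lam : Ω) * q i),
        fun i => ∑ l, t l * D1 l (c i))
      map_add' := fun t t' => by
        refine Prod.ext ?_ ?_ <;> funext i <;>
          simp only [Prod.fst_add, Prod.snd_add, Pi.add_apply, add_mul, Finset.sum_add_distrib]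
      map_smul' := fun s t => by
        refine Prod.ext ?_ ?_ <;> funext i <;>
          simp only [Prod.smul_fst, Prod.smul_snd, Pi.smul_apply, smul_eq_mul, RingHom.id_apply,
            Finset.mul_sum, mul_assoc] }
  have hΦ : LinearMap.ker Φ ≠ ⊥ := by
    apply LinearMap.ker_ne_bot_of_finrank_lt
    rw [Module.finrank_prod, Module.finrank_fintype_fun_eq_card,
      Module.finrank_fintype_fun_eq_card, Module.finrank_fintype_fun_eq_card, Fintype.card_coe]
    have h4 : Fintype.card {i : Fin 5 // i ≠ m} = 4 := by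
      rw [Fintype.card_subtype_compl, Fintype.card_fin, Fintype.card_subtype_eq]
    omega
  obtain ⟨t, ht, ht0⟩ := (Submodule.ne_bot_iff _).mp hΦ
  have ht1 : ∀ i, ∑ l, t l * D1 l (v i - (lam : Ω) * q i) = 0 := fun i =>
    congrFun (congrArg Prod.fst (LinearMap.mem_ker.mp ht)) i
  have ht2 : ∀ i : {i : Fin 5 // i ≠ m}, ∑ l, t l * D1 l (c i) = 0 := fun i =>
    congrFun (congrArg Prod.snd (LinearMap.mem_ker.mp ht)) i
  let D : Derivation K Ω Ω := ∑ l, t l • D1 l
  have hD : ∀ x, D x = ∑ l, t l * D1 l x := by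
    intro x
    simp only [D, RankAux.der_sum]
    rfl
  have hDw : ∀ i, D (v i - (lam : Ω) * q i) = 0 := by
    intro i
    rw [hD]
    exact ht1 i
  have hDc : ∀ i, D (c i) = 0 := by
    intro i
    by_cases hi : i = m
    · rw [hi, hcm]
      exact D.map_one_eq_zero
    · rw [hD]
      exact ht2 ⟨i, hi⟩
  have hDl : D (lam : Ω) = 0 := D.map_natCast lam
  have hDq : ∀ i, D (q i) = 0 := by
    refine const_of_rel hs ha D q (fun i => v i - (lam : Ω) * q i) (bc Ω p) (c 2) (c 3) (c 4)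
      (-c 0) (-c 1) (lam : Ω) hDw ?_ (hDc 2) (hDc 3) (hDc 4) ?_ ?_ hDl hlam ?_
    · intro i
      exact D.map_algebraMap (p i)
    · rw [map_neg, hDc, neg_zero]
    · rw [map_neg, hDc, neg_zero]
    · intro u
      have h1 : (lam : Ω) • q + (fun i => v i - (lam : Ω) * q i) = v := by
        funext i
        simp
      rw [h1]
      linear_combination h u
  have hDv : ∀ i, D (v i) = 0 := by
    intro i
    have h1 := hDw i
    rw [map_sub, Derivation.leibniz, hDq, hDl, smul_zero, smul_zero, add_zero, sub_zero] at h1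
    exact h1
  apply ht0
  funext l
  have h1 : D (Sum.elim q v (l : σ ⊕ σ)) = 0 := by
    rcases (l : σ ⊕ σ) with i | i
    · exact hDq i
    · exact hDv i
  rw [hD] at h1
  have h3 : ∀ l' : J, D1 l' (Sum.elim q v (l : σ ⊕ σ)) = (Pi.single l' 1 : J → Ω) l :=
    fun l' => hD1 l' l
  simp only [h3] at h1
  rw [Finset.sum_eq_single l (fun l' _ hl' => by
    rw [Pi.single_eq_of_ne (Ne.symm hl'), mul_zero]) (fun h => absurd (Finset.mem_univ l) h),
    Pi.single_eq_same, mul_one] at h1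
  exact h1

end IndAux

open IndAux in
theorem indep5_rel {K : Type*} [Field K] [CharZero K] {Ω : Type*} [Field Ω] [Algebra K Ω]
    {σ : Type*} [Fintype σ] [DecidableEq σ] (hN : 10 ≤ Fintype.card σ)
    {F : MvPolynomial σ K} (hs : PD.SmoothForm F) {a : (σ →₀ ℕ) → K} (ha : IsPol 4 F a)
    (p : σ → K) (q v : σ → Ω)
    (hpq : ∀ α β : Ω, (∀ u, α * q4 a (bc Ω p) (bc Ω p) (bc Ω p) u +
      β * q4 a (bc Ω p) (bc Ω p) q u = 0) → α = 0 ∧ β = 0)
    (J : Finset (σ ⊕ σ)) (hJ : J.card + 5 = 2 * Fintype.card σ)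
    (halg : AlgebraicIndependent K fun j : J => Sum.elim q v (j : σ ⊕ σ))
    (c : Fin 5 → Ω)
    (h : ∀ u, c 0 * q4 a (bc Ω p) (bc Ω p) (bc Ω p) u + c 1 * q4 a (bc Ω p) (bc Ω p) q u +
      c 2 * q4 a q q q u + c 3 * q4 a q q v u + c 4 * q4 a q v v u = 0) : c = 0 := by
  have key : ∀ m : Fin 5, (m = 2 ∨ m = 3 ∨ m = 4) → c m = 0 := by
    intro m hm
    by_contra hne
    refine rel_false hN hs ha p q v J hJ halg (fun i => (c m)⁻¹ * c i) m hm
      (inv_mul_cancel₀ hne) ?_
    intro u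
    have h1 := congrArg (fun z => (c m)⁻¹ * z) (h u)
    simp only [mul_zero] at h1
    linear_combination h1
  have h2 := key 2 (Or.inl rfl)
  have h3 := key 3 (Or.inr (Or.inl rfl))
  have h4 := key 4 (Or.inr (Or.inr rfl))
  obtain ⟨h0, h1⟩ := hpq (c 0) (c 1) (fun u => by
    have := h u
    rw [h2, h3, h4] at this
    linear_combination this)
  funext i
  fin_cases i
  · exact h0
  · exact h1
  · exact h2
  · exact h3
  · exact h4

end Pool.Agent.Work.QK
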