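import Pool.Agent.Work.MP_b62148_ag.QK.Defs

set_option autoImplicit false

/-! Systems of quadratic forms: isotropy of diagonal forms over a finite extension (helper60) -/

namespace Pool.Agent.Work.QK

open Module

namespace Sys60

variable {E : Type*} [Field E]

/-- `r` forms in more than `r (r + 1) u / 2` variables have a common zero -/
theorem system {u : ℕ} (hE : DiagIso E (u + 1)) : ∀ (r : ℕ) (V : Type*) [AddCommGroup V]
    [Module E V] [FiniteDimensional E V] (B : Fin r → V →ₗ[E] V →ₗ[E] E),
    (∀ i x y, B i x y = B i y x) → r * (r + 1) * u < 2 * finrank E V →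
    ∃ x : V, x ≠ 0 ∧ ∀ i, B i x x = 0 := by
  intro r
  induction r with
  | zero =>
    intro V _ _ _ B _ h
    have h1 : 0 < finrank E V := by omega
    have : Nontrivial V := finrank_pos_iff.1 h1
    obtain ⟨x, hx⟩ := exists_ne (0 : V)
    exact ⟨x, hx, fun i => i.elim0⟩
  | succ r ih =>
    intro V _ _ _ B hB hdim
    -- the orthogonal vectors
    have key : ∀ k ≤ u + 1, ∃ x : Fin k → V, (∀ j, x j ≠ 0) ∧
        (∀ i j l, j ≠ l → B i (x j) (x l) = 0) ∧ ∀ (i : Fin r) j, B i.castSucc (x j) (x j) = 0 := by
      intro k
      induction k with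
      | zero => exact fun _ => ⟨fun j => j.elim0, fun j => j.elim0, fun _ j => j.elim0,
          fun _ j => j.elim0⟩
      | succ k ihk =>
        intro hk
        obtain ⟨x, h1, h2, h3⟩ := ihk (by omega)
        let φ : V →ₗ[E] (Fin (r + 1) × Fin k → E) := LinearMap.pi fun p => B p.1 (x p.2)
        have hrn := LinearMap.finrank_range_add_finrank_ker φ
        have hle : finrank E (LinearMap.range φ) ≤ (r + 1) * k := by
          have := Submodule.finrank_le (LinearMap.range φ)
          rwa [finrank_fintype_fun_eq_card, Fintype.card_prod, Fintype.card_fin,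
            Fintype.card_fin] at this
        have hker : r * (r + 1) * u < 2 * finrank E (LinearMap.ker φ) := by
          have hk' : (r + 1) * k ≤ (r + 1) * u := Nat.mul_le_mul_left _ (by omega)
          have e : (r + 1) * (r + 1 + 1) * u = r * (r + 1) * u + 2 * ((r + 1) * u) := by ring
          omega
        obtain ⟨w, hw0, hw⟩ := ih (LinearMap.ker φ)
          (fun i => (B i.castSucc).compl₁₂ (LinearMap.ker φ).subtype (LinearMap.ker φ).subtype)
          (fun i a b => by
            simp only [LinearMap.compl₁₂_apply]
            exact hB _ _ _) hker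
        have hwφ : ∀ (i : Fin (r + 1)) (l : Fin k), B i (x l) w = 0 := fun i l => by
          have h4 : φ w = 0 := w.2
          exact congrFun h4 (i, l)
        refine ⟨Fin.snoc x (w : V), ?_, ?_, ?_⟩
        · intro j
          refine Fin.lastCases ?_ (fun j => ?_) j
          · rw [Fin.snoc_last]
            exact fun h => hw0 (Subtype.ext h)
          · rw [Fin.snoc_castSucc]
            exact h1 j
        · intro i j l
          refine Fin.lastCases ?_ (fun j => ?_) j
          · refine Fin.lastCases ?_ (fun l => ?_) l
            · exact fun h => absurd rfl h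
            · intro _
              rw [Fin.snoc_last, Fin.snoc_castSucc, hB]
              exact hwφ i l
          · refine Fin.lastCases ?_ (fun l => ?_) l
            · intro _
              rw [Fin.snoc_last, Fin.snoc_castSucc]
              exact hwφ i j
            · intro h
              rw [Fin.snoc_castSucc, Fin.snoc_castSucc]
              exact h2 i j l fun h' => h (by rw [h'])
        · intro i j
          refine Fin.lastCases ?_ (fun j => ?_) j
          · rw [Fin.snoc_last]
            exact hw i
          · rw [Fin.snoc_castSucc]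
            exact h3 i j
    obtain ⟨x, h1, h2, h3⟩ := key (u + 1) le_rfl
    by_cases hz : ∃ j, B (Fin.last r) (x j) (x j) = 0
    · obtain ⟨j, hj⟩ := hz
      refine ⟨x j, h1 j, fun i => ?_⟩
      refine Fin.lastCases hj (fun i => h3 i j) i
    push Not at hz
    obtain ⟨c, hc0, hc⟩ := hE fun j => B (Fin.last r) (x j) (x j)
    -- the sum
    have hsum : ∀ (i : Fin (r + 1)), B i (∑ j, c j • x j) (∑ j, c j • x j) =
        ∑ j, B i (x j) (x j) * c j ^ 2 := by
      intro i
      rw [map_sum]
      refine Finset.sum_congr rfl fun j _ => ?_
      rw [map_smul, hB, map_sum, Finset.sum_eq_single j]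
      · rw [map_smul, smul_eq_mul, smul_eq_mul]; ring
      · intro l _ hl
        rw [map_smul, h2 i j l (Ne.symm hl), smul_zero]
      · intro h; exact absurd (Finset.mem_univ j) h
    refine ⟨∑ j, c j • x j, ?_, fun i => ?_⟩
    · intro h0
      apply hc0
      funext k
      have h4 : B (Fin.last r) (x k) (∑ j, c j • x j) = c k * B (Fin.last r) (x k) (x k) := by
        rw [map_sum, Finset.sum_eq_single k]
        · rw [map_smul, smul_eq_mul]
        · intro l _ hl
          rw [map_smul, h2 _ k l (Ne.symm hl), smul_zero]
        · intro h; exact absurd (Finset.mem_univ k) h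
      rw [h0, map_zero] at h4
      rcases mul_eq_zero.1 h4.symm with h5 | h5
      · exact h5
      · exact absurd h5 (hz k)
    · rw [hsum]
      refine Fin.lastCases hc (fun i => ?_) i
      exact Finset.sum_eq_zero fun j _ => by rw [h3 i j, zero_mul]

end Sys60

/-- **diagonal forms over a finite extension** -/
theorem diagIso_ext {E L : Type*} [Field E] [Field L] [Algebra E L] [FiniteDimensional E L]
    (h2 : (2 : E) ≠ 0) {u m : ℕ} (hE : DiagIso E (u + 1))
    (hm : (Module.finrank E L + 1) * u < 2 * m) : DiagIso L m := by
  have _ := h2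
  intro a
  set e := finrank E L with he
  have he0 : 0 < e := finrank_pos
  let b := finBasis E L
  let B : Fin e → (Fin m → L) →ₗ[E] (Fin m → L) →ₗ[E] E := fun i =>
    LinearMap.mk₂ E (fun x y => b.repr (∑ j, a j * (x j * y j)) i)
      (fun x x' y => by
        simp only [Pi.add_apply, add_mul, mul_add, Finset.sum_add_distrib, map_add,
          Finsupp.add_apply])
      (fun c x y => by
        have e1 : ∑ j, a j * ((c • x) j * y j) = c • ∑ j, a j * (x j * y j) := by
          rw [Finset.smul_sum]
          refine Finset.sum_congr rfl fun j _ => ?_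
          rw [Pi.smul_apply, smul_mul_assoc, mul_smul_comm]
        rw [e1, map_smul, Finsupp.smul_apply])
      (fun x y y' => by
        simp only [Pi.add_apply, mul_add, Finset.sum_add_distrib, map_add,
          Finsupp.add_apply])
      (fun c x y => by
        have e1 : ∑ j, a j * (x j * (c • y) j) = c • ∑ j, a j * (x j * y j) := by
          rw [Finset.smul_sum]
          refine Finset.sum_congr rfl fun j _ => ?_
          rw [Pi.smul_apply, mul_smul_comm, mul_smul_comm]
        rw [e1, map_smul, Finsupp.smul_apply])
  have hBa : ∀ i x y, B i x y = b.repr (∑ j, a j * (x j * y j)) i := fun i x y => rfl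
  obtain ⟨x, hx0, hx⟩ := Sys60.system hE e (Fin m → L) B (fun i x y => by
    rw [hBa, hBa]
    simp only [mul_comm]) (by
    rw [finrank_pi_fintype]
    simp only [Finset.sum_const, Finset.card_univ, Fintype.card_fin, smul_eq_mul]
    rw [← he]
    have : e * ((e + 1) * u) < e * (2 * m) := Nat.mul_lt_mul_of_pos_left hm he0
    calc e * (e + 1) * u = e * ((e + 1) * u) := by ring
      _ < e * (2 * m) := this
      _ = 2 * (m * e) := by ring)
  refine ⟨x, hx0, ?_⟩
  have h3 : b.repr (∑ j, a j * (x j * x j)) = 0 := by
    ext i
    rw [← hBa, hx i]; rfl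
  have h4 : ∑ j, a j * (x j * x j) = 0 := by
    have := b.repr.map_eq_zero_iff.1 h3
    exact this
  rw [← h4]
  exact Finset.sum_congr rfl fun j _ => by ring

end Pool.Agent.Work.QK
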